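import Pool.Agent.Helper597_fou.Lk

/-!
# Deformation of the displacement of a symplectic map preserving all but one of the coordinates `x_i`
-/

set_option autoImplicit false
set_option linter.unusedSectionVars false

open MeasureTheory Set Filter Topology
open scoped ContDiff

noncomputable section

namespace Pool.Agent.Helper597_fou

namespace PS

/-- the index of a coordinate of `ℝ^{2n}`; the index `0` is reserved for the time -/
def ix {n : ℕ} (α : Fin n ⊕ Fin n) : Fin (n + n + 1) := (finSumFinEquiv α).succ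

theorem ix_inj {n : ℕ} {α β : Fin n ⊕ Fin n} (h : ix α = ix β) : α = β :=
  finSumFinEquiv.injective (Fin.succ_injective _ h)

theorem ix_ne_zero {n : ℕ} (α : Fin n ⊕ Fin n) : ix α ≠ 0 := Fin.succ_ne_zero _

theorem ix_ne {n : ℕ} {α β : Fin n ⊕ Fin n} (h : α ≠ β) : ix α ≠ ix β := fun h' => h (ix_inj h')

/-- the displacement of a symplectic map which preserves the coordinates `x_i`, `i ≠ a` -/
structure Sd {n : ℕ} (a : Fin n) (U : Fin n ⊕ Fin n → PS (n + n)) : Prop where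
  zero : ∀ i, i ≠ a → U (Sum.inl i) = 0
  indep : ∀ i, i ≠ a → ∀ α, dd (ix (Sum.inr i)) (U α) = 0
  jac : J (ix (Sum.inl a)) (ix (Sum.inr a)) (U (Sum.inl a)) (U (Sum.inr a)) = 1
  e1 : ∀ k, k ≠ a → dd (ix (Sum.inl a)) (U (Sum.inr k)) =
    th1 (ix (Sum.inl a)) (ix (Sum.inl k)) (U (Sum.inl a)) (U (Sum.inr a))
  e2 : ∀ k, k ≠ a → dd (ix (Sum.inr a)) (U (Sum.inr k)) =
    th2 (ix (Sum.inr a)) (ix (Sum.inl k)) (U (Sum.inl a)) (U (Sum.inr a))
  e3 : ∀ k l, k ≠ a → l ≠ a → dd (ix (Sum.inl l)) (U (Sum.inr k)) -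
    dd (ix (Sum.inl k)) (U (Sum.inr l)) +
    dd (ix (Sum.inl k)) (U (Sum.inl a)) * dd (ix (Sum.inl l)) (U (Sum.inr a)) -
    dd (ix (Sum.inl k)) (U (Sum.inr a)) * dd (ix (Sum.inl l)) (U (Sum.inl a)) = 0

theorem Sd.deform {n : ℕ} {a : Fin n} {U : Fin n ⊕ Fin n → PS (n + n)} (h : Sd a U)
    (hT : ∀ α, dd 0 (U α) = 0) :
    ∃ U' : Fin n ⊕ Fin n → PS (n + n), Sd a U' ∧ (∀ α, sl 0 0 (U' α) = 0) ∧
      ∀ α, sl 0 (1 / 2) (U' α) = U α := by
  classical
  set p : Fin (n + n + 1) := ix (Sum.inl a) with hp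
  set q : Fin (n + n + 1) := ix (Sum.inr a) with hq
  set f := U (Sum.inl a) with hf
  set g := U (Sum.inr a) with hg
  have hpq : p ≠ q := ix_ne (by simp)
  have hp0 : p ≠ 0 := ix_ne_zero _
  have hq0 : q ≠ 0 := ix_ne_zero _
  have hx0 : ∀ k : Fin n, ix (Sum.inl k : Fin n ⊕ Fin n) ≠ 0 := fun k => ix_ne_zero _
  set Z : Finset (Fin (n + n + 1)) :=
    (Finset.univ.erase a).image fun i => ix (Sum.inr i) with hZ
  have hmemZ : ∀ i, i ≠ a → ix (Sum.inr i) ∈ Z := by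
    intro i hi
    rw [hZ, Finset.mem_image]
    exact ⟨i, Finset.mem_erase.2 ⟨hi, Finset.mem_univ _⟩, rfl⟩
  have hZmem : ∀ l ∈ Z, ∃ i, i ≠ a ∧ l = ix (Sum.inr i) := by
    intro l hl
    rw [hZ, Finset.mem_image] at hl
    obtain ⟨i, hi, rfl⟩ := hl
    exact ⟨i, (Finset.mem_erase.1 hi).1, rfl⟩
  obtain ⟨Φ₁, Φ₂, b1, ⟨c1, c2, c3, c4⟩, ⟨d1, d2, d3, d4⟩, b4⟩ := deformation' hpq hp0 hq0
    (hT (Sum.inl a)) (hT (Sum.inr a)) h.jac Z
    (fun hm => by
      obtain ⟨i, -, hi⟩ := hZmem _ hm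
      exact absurd (ix_inj hi) (by simp))
    (fun hm => by
      obtain ⟨i, hia, hi⟩ := hZmem _ hm
      have := ix_inj hi
      simp only [Sum.inr.injEq] at this
      exact hia this.symm)
    (fun hm => by
      obtain ⟨i, -, hi⟩ := hZmem _ hm
      exact absurd hi.symm (ix_ne_zero _))
    (fun l hl => by
      obtain ⟨i, hia, rfl⟩ := hZmem _ hl
      exact h.indep i hia _)
    (fun l hl => by
      obtain ⟨i, hia, rfl⟩ := hZmem _ hl
      exact h.indep i hia _)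
  -- normalisation
  set F : PS (n + n) := Φ₁ - P0 p q Φ₁ + s2 0 * P0 p q f with hF
  set G : PS (n + n) := Φ₂ - P0 p q Φ₂ + s2 0 * P0 p q g with hG
  have hs2 : ∀ i, i ≠ 0 → dd i (s2 (M := n + n) 0) = 0 := fun i hi => dd_s2 hi
  have hpF : dd p F = dd p Φ₁ := by
    rw [hF, dd_add, dd_sub, dd_mul, dd_p_P0, dd_p_P0, hs2 p hp0]
    ring
  have hqF : dd q F = dd q Φ₁ := by
    rw [hF, dd_add, dd_sub, dd_mul, dd_q_P0, dd_q_P0, hs2 q hq0]
    ring
  have hpG : dd p G = dd p Φ₂ := by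
    rw [hG, dd_add, dd_sub, dd_mul, dd_p_P0, dd_p_P0, hs2 p hp0]
    ring
  have hqG : dd q G = dd q Φ₂ := by
    rw [hG, dd_add, dd_sub, dd_mul, dd_q_P0, dd_q_P0, hs2 q hq0]
    ring
  have hJFG : J p q F G = 1 := by rw [J_congr hpF hqF hpG hqG, b1]
  -- the mean values
  have hPf : ∀ k, k ≠ a → dd (ix (Sum.inl k)) (P0 p q f) = 0 := by
    intro k hk
    have h1 := P0_th2 h.jac (ix (Sum.inl k))
    rw [← h.e2 k hk, P0_dd_q] at h1
    exact neg_eq_zero.1 h1.symm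
  have hPg : ∀ k, k ≠ a → dd (ix (Sum.inl k)) (P0 p q g) = 0 := by
    intro k hk
    have h1 := P0_th1 h.jac (ix (Sum.inl k))
    rw [← h.e1 k hk, P0_dd_p] at h1
    exact h1.symm
  have hs2P : ∀ w : PS (n + n), dd p w = 0 → dd q w = 0 → P0 p q (s2 0 * w) = s2 0 * w := by
    intro w hw1 hw2
    refine P0_of_dd ?_ ?_
    · rw [dd_mul, hw1, hs2 p hp0]; ring
    · rw [dd_mul, hw2, hs2 q hq0]; ring
  have hP0F : P0 p q F = s2 0 * P0 p q f := by
    rw [hF, P0_add, P0_sub, P0_P0, hs2P _ (dd_p_P0 f) (dd_q_P0 f)]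
    ring
  have hP0G : P0 p q G = s2 0 * P0 p q g := by
    rw [hG, P0_add, P0_sub, P0_P0, hs2P _ (dd_p_P0 g) (dd_q_P0 g)]
    ring
  have hPF : ∀ k, k ≠ a → dd (ix (Sum.inl k)) (P0 p q F) = 0 := by
    intro k hk
    rw [hP0F, dd_mul, hPf k hk, hs2 _ (hx0 k)]
    ring
  have hPG : ∀ k, k ≠ a → dd (ix (Sum.inl k)) (P0 p q G) = 0 := by
    intro k hk
    rw [hP0G, dd_mul, hPg k hk, hs2 _ (hx0 k)]
    ring
  -- the slices
  have hF0 : sl 0 0 F = 0 := by
    rw [hF, sl_add, sl_sub, sl_mul, sl_s2_zero, sl_P0 hp0 hq0, P0_of_dd c1 c2]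
    ring
  have hG0 : sl 0 0 G = 0 := by
    rw [hG, sl_add, sl_sub, sl_mul, sl_s2_zero, sl_P0 hp0 hq0, P0_of_dd c3 c4]
    ring
  have hfs : sl 0 (1 / 2) f = f := sl_of_dd _ (hT (Sum.inl a))
  have hgs : sl 0 (1 / 2) g = g := sl_of_dd _ (hT (Sum.inr a))
  have hF1 : sl 0 (1 / 2) F = f := by
    have e1 : P0 p q (sl 0 (1 / 2) Φ₁ - f) = sl 0 (1 / 2) Φ₁ - f :=
      P0_of_dd (by rw [dd_sub, d1, sub_self]) (by rw [dd_sub, d2, sub_self])
    rw [P0_sub] at e1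
    rw [hF, sl_add, sl_sub, sl_mul, sl_s2_half, sl_P0 hp0 hq0, sl_P0 hp0 hq0, hfs]
    linear_combination -e1
  have hG1 : sl 0 (1 / 2) G = g := by
    have e1 : P0 p q (sl 0 (1 / 2) Φ₂ - g) = sl 0 (1 / 2) Φ₂ - g :=
      P0_of_dd (by rw [dd_sub, d3, sub_self]) (by rw [dd_sub, d4, sub_self])
    rw [P0_sub] at e1
    rw [hG, sl_add, sl_sub, sl_mul, sl_s2_half, sl_P0 hp0 hq0, sl_P0 hp0 hq0, hgs]
    linear_combination -e1
  -- independence
  have hFi : ∀ i, i ≠ a → dd (ix (Sum.inr i)) F = 0 := by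
    intro i hi
    have e1 := (b4 _ (hmemZ i hi)).1
    have e2 : dd (ix (Sum.inr i)) f = 0 := h.indep i hi (Sum.inl a)
    rw [hF, dd_add, dd_sub, dd_mul, dd_P0, dd_P0, e1, e2, hs2 _ (ix_ne_zero _), P0_zero]
    ring
  have hGi : ∀ i, i ≠ a → dd (ix (Sum.inr i)) G = 0 := by
    intro i hi
    have e1 := (b4 _ (hmemZ i hi)).2
    have e2 : dd (ix (Sum.inr i)) g = 0 := h.indep i hi (Sum.inr a)
    rw [hG, dd_add, dd_sub, dd_mul, dd_P0, dd_P0, e1, e2, hs2 _ (ix_ne_zero _), P0_zero]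
    ring
  -- the closed correction
  set δ : Fin n → PS (n + n) := fun k => U (Sum.inr k) - lam p q (ix (Sum.inl k)) f g with hδ
  have hδp : ∀ k, k ≠ a → dd p (δ k) = 0 := by
    intro k hk
    rw [hδ]
    simp only
    rw [dd_sub, h.e1 k hk, dd_p_lam h.jac (hPg k hk), sub_self]
  have hδq : ∀ k, k ≠ a → dd q (δ k) = 0 := by
    intro k hk
    rw [hδ]
    simp only
    rw [dd_sub, h.e2 k hk, dd_q_lam h.jac (hPf k hk), sub_self]
  have hδc : ∀ k l, k ≠ a → l ≠ a → dd (ix (Sum.inl l)) (δ k) = dd (ix (Sum.inl k)) (δ l) := by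
    intro k l hk hl
    have e1 := h.e3 k l hk hl
    have e2 := lam_closed h.jac (hPf k hk) (hPg k hk) (hPf l hl) (hPg l hl)
    rw [hδ]
    simp only [dd_sub]
    linear_combination e1 - e2
  have hδi : ∀ k i, i ≠ a → dd (ix (Sum.inr i)) (δ k) = 0 := by
    intro k i hi
    rw [hδ]
    simp only [dd_sub]
    rw [h.indep i hi, dd_lam (h.indep i hi (Sum.inl a)) (h.indep i hi (Sum.inr a)), sub_self]
  have hδs : ∀ k, sl 0 (1 / 2) (δ k) = δ k := by
    intro k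
    refine sl_of_dd _ ?_
    rw [hδ]
    simp only [dd_sub]
    rw [hT, dd_lam (hT (Sum.inl a)) (hT (Sum.inr a)), sub_self]
  set L : Fin n → PS (n + n) := fun k => lam p q (ix (Sum.inl k)) F G + s2 0 * δ k with hL
  set U' : Fin n ⊕ Fin n → PS (n + n) := Sum.elim (fun i => if i = a then F else 0)
    (fun i => if i = a then G else L i) with hU'
  have u1 : U' (Sum.inl a) = F := by simp [hU']
  have u2 : U' (Sum.inr a) = G := by simp [hU']
  have u3 : ∀ k, k ≠ a → U' (Sum.inr k) = L k := fun k hk => by simp [hU', hk]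
  have u4 : ∀ k, k ≠ a → U' (Sum.inl k) = 0 := fun k hk => by simp [hU', hk]
  refine ⟨U', ⟨u4, ?_, ?_, ?_, ?_, ?_⟩, ?_, ?_⟩
  · intro i hi α
    rcases α with k | k
    · by_cases hk : k = a
      · rw [hk, u1, hFi i hi]
      · rw [u4 k hk, dd_zero]
    · by_cases hk : k = a
      · rw [hk, u2, hGi i hi]
      · rw [u3 k hk, hL]
        simp only [dd_add]
        rw [dd_lam (hFi i hi) (hGi i hi), dd_mul, hδi k i hi, hs2 _ (ix_ne_zero _)]
        ring
  · rw [u1, u2]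
    exact hJFG
  · intro k hk
    rw [u3 k hk, u1, u2, hL]
    simp only [dd_add]
    rw [dd_p_lam hJFG (hPG k hk), dd_mul, hδp k hk, hs2 p hp0]
    ring
  · intro k hk
    rw [u3 k hk, u1, u2, hL]
    simp only [dd_add]
    rw [dd_q_lam hJFG (hPF k hk), dd_mul, hδq k hk, hs2 q hq0]
    ring
  · intro k l hk hl
    rw [u3 k hk, u3 l hl, u1, u2, hL]
    simp only [dd_add, dd_mul]
    rw [hs2 _ (hx0 k), hs2 _ (hx0 l), hδc k l hk hl]
    have e2 := lam_closed hJFG (hPF k hk) (hPG k hk) (hPF l hl) (hPG l hl)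
    linear_combination e2
  · intro α
    rcases α with k | k
    · by_cases hk : k = a
      · rw [hk, u1, hF0]
      · rw [u4 k hk, sl_zero]
    · by_cases hk : k = a
      · rw [hk, u2, hG0]
      · rw [u3 k hk, hL]
        simp only [sl_add, sl_mul]
        rw [sl_lam hp0 hq0 (hx0 k), hF0, hG0, lam_zero, sl_s2_zero]
        ring
  · intro α
    rcases α with k | k
    · by_cases hk : k = a
      · rw [hk, u1, hF1]
      · rw [u4 k hk, sl_zero, h.zero k hk]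
    · by_cases hk : k = a
      · rw [hk, u2, hG1]
      · rw [u3 k hk, hL]
        simp only [sl_add, sl_mul]
        rw [sl_lam hp0 hq0 (hx0 k), hF1, hG1, sl_s2_half, hδs k, hδ]
        ring

end PS

end Pool.Agent.Helper597_fou
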