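import Mathlib

/-!
# Fourier series of smooth periodic functions on `ℝ^{M+1}`

Definitions and Fourier inversion. (Adapted from the three dimensional toolkit `H459R3.NS`.)
-/

set_option autoImplicit false

open MeasureTheory Set Filter Topology
open scoped ContDiff

noncomputable section

namespace Pool.Agent.Helper597_fou

variable {M : ℕ}

/-- The space `ℝ^{M+1}`. -/
abbrev E (M : ℕ) := Fin (M + 1) → ℝ

/-- Frequencies. -/
abbrev K (M : ℕ) := Fin (M + 1) → ℤ

/-- integer vectors as real vectors -/
def il (k : K M) : E M := fun i => (k i : ℝ)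

/-- `f` is periodic for the lattice of integer vectors. -/
def Per {F : Type*} (f : E M → F) : Prop := ∀ (x : E M) (k : K M), f (x + il k) = f x

/-- The period cell. -/
def cube (M : ℕ) : Set (E M) := Icc 0 1

/-- The derivative in the direction of the `j`-th coordinate. -/
def pd {F : Type*} [NormedAddCommGroup F] [NormedSpace ℝ F] (j : Fin (M + 1))
    (f : E M → F) (x : E M) : F := fderiv ℝ f x (Pi.single j 1)

/-- `k · x`. -/
def ph (k : K M) (x : E M) : ℝ := ∑ j, (k j : ℝ) * x j

/-- The character `exp (2 π i k · x)`. -/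
def ee (k : K M) (x : E M) : ℂ := Complex.exp (2 * Real.pi * Complex.I * (ph k x : ℂ))

/-- The Fourier coefficients `∫ exp (-2 π i k · x) f(x) dx` over the period cell. -/
def fc (f : E M → ℂ) (k : K M) : ℂ := ∫ x in cube M, ee (-k) x * f x

attribute [local instance] instMeasureSpaceUnitAddCircle

theorem ph_add (k : K M) (x y : E M) : ph k (x + y) = ph k x + ph k y := by
  simp [ph, mul_add, Finset.sum_add_distrib]

theorem ph_add_left (k l : K M) (x : E M) : ph (k + l) x = ph k x + ph l x := by
  simp [ph, add_mul, Finset.sum_add_distrib]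

theorem ph_neg (k : K M) (x : E M) : ph (-k) x = -ph k x := by
  simp [ph, Finset.sum_neg_distrib]

theorem ee_add_left (k l : K M) (x : E M) : ee (k + l) x = ee k x * ee l x := by
  rw [ee, ee, ee, ← Complex.exp_add, ph_add_left]
  congr 1
  push_cast
  ring

theorem ee_zero (x : E M) : ee 0 x = 1 := by simp [ee, ph]

theorem norm_ee (k : K M) (x : E M) : ‖ee k x‖ = 1 := by
  have : ee k x = Complex.exp (((2 * Real.pi * ph k x : ℝ) : ℂ) * Complex.I) := by
    rw [ee]; congr 1; push_cast; ring
  rw [this, Complex.norm_exp_ofReal_mul_I]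

theorem ee_neg (k : K M) (x : E M) : ee (-k) x = (starRingEnd ℂ) (ee k x) := by
  have h1 : ee k x = Complex.exp (((2 * Real.pi * ph k x : ℝ) : ℂ) * Complex.I) := by
    rw [ee]; congr 1; push_cast; ring
  have h2 : ee (-k) x = Complex.exp (-(((2 * Real.pi * ph k x : ℝ) : ℂ) * Complex.I)) := by
    rw [ee, ph_neg]; congr 1; push_cast; ring
  rw [h1, h2, ← Complex.exp_conj]
  congr 1
  rw [map_mul, Complex.conj_ofReal, Complex.conj_I]
  ring

theorem ph_contDiff (k : K M) {n : WithTop ℕ∞} : ContDiff ℝ n (ph k) := by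
  unfold ph
  exact ContDiff.sum fun i _ => contDiff_const.mul (contDiff_apply ℝ ℝ i)

theorem ee_contDiff (k : K M) {n : WithTop ℕ∞} : ContDiff ℝ n (ee k) := by
  unfold ee
  exact (contDiff_const.mul (Complex.ofRealCLM.contDiff.comp (ph_contDiff k))).cexp

theorem ee_continuous (k : K M) : Continuous (ee k) := (ee_contDiff k (n := 0)).continuous

theorem ph_il (k l : K M) : ph k (il l) = ((∑ j, k j * l j : ℤ) : ℝ) := by
  simp [ph, il]

theorem ee_il (k l : K M) : ee k (il l) = 1 := by
  rw [ee, ph_il, Complex.exp_eq_one_iff]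
  exact ⟨∑ j, k j * l j, by push_cast; ring⟩

theorem ee_add (k : K M) (x y : E M) : ee k (x + y) = ee k x * ee k y := by
  rw [ee, ee, ee, ← Complex.exp_add, ph_add]
  congr 1
  push_cast
  ring

theorem ee_per (k : K M) : Per (ee k) := fun x l => by rw [ee_add, ee_il, mul_one]

theorem Per.mul {f g : E M → ℂ} (hf : Per f) (hg : Per g) : Per (fun x => f x * g x) :=
  fun x k => by simp only [hf x k, hg x k]

/-! ### lift to the torus -/

/-- The covering map. -/
def cov (x : E M) : UnitAddTorus (Fin (M + 1)) := fun i => (x i : UnitAddCircle)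

theorem cov_surj : Function.Surjective (cov (M := M)) := by
  intro t
  choose y hy using fun i => QuotientAddGroup.mk_surjective (t i)
  exact ⟨y, funext hy⟩

theorem cov_quot : IsOpenQuotientMap (cov (M := M)) := by
  have h : IsOpenQuotientMap (Pi.map (fun (_ : Fin (M + 1)) (r : ℝ) => (r : UnitAddCircle))) :=
    IsOpenQuotientMap.piMap fun _ => QuotientAddGroup.isOpenQuotientMap_mk
  exact h

theorem Per.eq_of_cov {F : Type*} {f : E M → F} (hf : Per f) {x y : E M} (h : cov x = cov y) :
    f x = f y := by
  have h1 : ∀ i, ∃ n : ℤ, y i - x i = n := by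
    intro i
    have h2 : ((x i : ℝ) : UnitAddCircle) = (y i : UnitAddCircle) := congrFun h i
    rw [QuotientAddGroup.eq, AddSubgroup.mem_zmultiples_iff] at h2
    obtain ⟨n, hn⟩ := h2
    refine ⟨n, ?_⟩
    rw [zsmul_one] at hn
    rw [hn]; ring
  choose m hm using h1
  have : y = x + il m := by
    funext i
    rw [Pi.add_apply, il, ← hm i]; ring
  rw [this, hf]

/-- The function on the torus. -/
def lift (f : E M → ℂ) (t : UnitAddTorus (Fin (M + 1))) : ℂ :=
  f (Function.surjInv cov_surj t)

theorem lift_cov {f : E M → ℂ} (hf : Per f) (x : E M) : lift f (cov x) = f x :=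
  hf.eq_of_cov (Function.surjInv_eq cov_surj (cov x))

theorem lift_continuous {f : E M → ℂ} (hf : Per f) (hc : Continuous f) : Continuous (lift f) := by
  rw [cov_quot.isQuotientMap.continuous_iff]
  have : lift f ∘ cov = f := funext fun x => lift_cov hf x
  rwa [this]

theorem mFourier_cov (k : K M) (x : E M) : UnitAddTorus.mFourier k (cov x) = ee k x := by
  change ∏ i, (fourier (k i) ((x i : ℝ) : UnitAddCircle) : ℂ) = _
  have h1 : ∀ i, (fourier (k i) ((x i : ℝ) : UnitAddCircle) : ℂ)
      = Complex.exp (2 * Real.pi * Complex.I * ((k i : ℝ) * x i : ℝ)) := by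
    intro i
    rw [fourier_coe_apply]
    congr 1
    push_cast
    ring
  rw [Finset.prod_congr rfl fun i _ => h1 i, ← Complex.exp_sum, ee, ph]
  congr 1
  push_cast
  rw [Finset.mul_sum]

theorem cell_ae : ({x : E M | ∀ i, x i ∈ Ioc ((0 : E M) i) ((0 : E M) i + 1)} : Set (E M))
    =ᵐ[volume] cube M := by
  have e : ({x : E M | ∀ i, x i ∈ Ioc ((0 : E M) i) ((0 : E M) i + 1)} : Set (E M))
      = Set.pi univ (fun i => Ioc ((0 : E M) i) ((1 : E M) i)) := by
    ext x; simp
  rw [e]
  exact Measure.univ_pi_Ioc_ae_eq_Icc (μ := fun _ : Fin (M + 1) => (volume : Measure ℝ))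

theorem integral_torus {F : Type*} [NormedAddCommGroup F] [NormedSpace ℝ F]
    (f : UnitAddTorus (Fin (M + 1)) → F) : ∫ t, f t = ∫ x in cube M, f (cov x) := by
  rw [UnitAddTorus.integral_preimage f 0, Measure.restrict_congr_set cell_ae]
  rfl

theorem fc_eq {f : E M → ℂ} (hf : Per f) (k : K M) :
    UnitAddTorus.mFourierCoeff (lift f) k = fc f k := by
  rw [UnitAddTorus.mFourierCoeff, integral_torus, fc]
  congr 1
  funext x
  rw [mFourier_cov, lift_cov hf, smul_eq_mul]

/-- Fourier inversion. -/
theorem hasSum_fc {f : E M → ℂ} (hf : Per f) (hc : Continuous f) (hs : Summable (fc f))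
    (x : E M) : HasSum (fun k => fc f k * ee k x) (f x) := by
  let F : C(UnitAddTorus (Fin (M + 1)), ℂ) := ⟨lift f, lift_continuous hf hc⟩
  have e : UnitAddTorus.mFourierCoeff F = fc f := funext fun k => fc_eq hf k
  have h := UnitAddTorus.hasSum_mFourier_series_apply_of_summable (f := F) (by rw [e]; exact hs)
    (cov x)
  rw [e] at h
  simp only [mFourier_cov, smul_eq_mul] at h
  rw [show F (cov x) = f x from lift_cov hf x] at h
  exact h

/-- Orthogonality. -/
theorem integral_ee (k : K M) : ∫ x in cube M, ee k x = if k = 0 then 1 else 0 := by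
  have h := UnitAddTorus.orthonormal_mFourier (d := Fin (M + 1))
  rw [orthonormal_iff_ite] at h
  have h1 := h 0 k
  simp only [ContinuousMap.inner_toLp, UnitAddTorus.mFourier_zero] at h1
  rw [integral_torus] at h1
  simp only [mFourier_cov, ContinuousMap.one_apply, map_one, mul_one] at h1
  rw [h1]
  by_cases hk : k = 0
  · simp [hk]
  · rw [if_neg hk, if_neg (fun h => hk h.symm)]

theorem cube_finite : IsFiniteMeasure (volume.restrict (cube M)) := by
  constructor
  rw [Measure.restrict_apply_univ]
  exact isCompact_Icc.measure_lt_top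

theorem integrableOn_cube {F : Type*} [NormedAddCommGroup F] {f : E M → F} (hf : Continuous f) :
    IntegrableOn f (cube M) := hf.continuousOn.integrableOn_compact isCompact_Icc

/-! ### Absolutely convergent Fourier series -/

/-- The sum of the Fourier series with coefficients `a`. -/
def S (a : K M → ℂ) (x : E M) : ℂ := ∑' k, a k * ee k x

theorem norm_term (a : K M → ℂ) (k : K M) (x : E M) : ‖a k * ee k x‖ = ‖a k‖ := by
  rw [norm_mul, norm_ee, mul_one]

theorem summable_term {a : K M → ℂ} (ha : Summable a) (x : E M) :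
    Summable fun k => a k * ee k x := by
  refine Summable.of_norm ?_
  simp_rw [norm_term]
  exact ha.norm

theorem S_continuous {a : K M → ℂ} (ha : Summable a) : Continuous (S a) := by
  unfold S
  exact continuous_tsum (fun k => continuous_const.mul (ee_continuous k)) ha.norm
    (fun k x => (norm_term a k x).le)

theorem S_per (a : K M → ℂ) : Per (S a) := by
  intro x k
  unfold S
  exact tsum_congr fun l => by rw [ee_per l x k]

theorem norm_S_le {a : K M → ℂ} (ha : Summable a) (x : E M) : ‖S a x‖ ≤ ∑' k, ‖a k‖ := by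
  unfold S
  refine (norm_tsum_le_tsum_norm ?_).trans (le_of_eq (tsum_congr fun k => norm_term a k x))
  simp_rw [norm_term]
  exact ha.norm

theorem integral_S_mul {a : K M → ℂ} (ha : Summable a) {g : E M → ℂ} (hg : Continuous g) :
    HasSum (fun k => a k * ∫ x in cube M, ee k x * g x) (∫ x in cube M, S a x * g x) := by
  have hi : ∀ k, Integrable (fun x => a k * (ee k x * g x)) (volume.restrict (cube M)) := fun k =>
    (integrableOn_cube ((ee_continuous k).mul hg)).const_mul _
  have hs : Summable fun k => ∫ x in cube M, ‖a k * (ee k x * g x)‖ := by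
    have e : ∀ k, ∫ x in cube M, ‖a k * (ee k x * g x)‖ = ‖a k‖ * ∫ x in cube M, ‖g x‖ := by
      intro k
      rw [← integral_const_mul]
      congr 1
      funext x
      rw [norm_mul, norm_mul, norm_ee, one_mul]
    simp_rw [e]
    exact ha.norm.mul_right _
  have h := hasSum_integral_of_summable_integral_norm hi hs
  have e1 : ∀ k, ∫ x in cube M, a k * (ee k x * g x) = a k * ∫ x in cube M, ee k x * g x :=
    fun k => integral_const_mul _ _
  simp_rw [e1] at h
  have e2 : (∫ x in cube M, ∑' k, a k * (ee k x * g x)) = ∫ x in cube M, S a x * g x := by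
    congr 1
    funext x
    unfold S
    rw [← tsum_mul_right]
    exact tsum_congr fun k => by ring
  rwa [e2] at h

theorem integral_ee_S (k : K M) {c : K M → ℂ} (hc : Summable c) :
    ∫ x in cube M, ee k x * S c x = c (-k) := by
  have h := integral_S_mul hc (ee_continuous k)
  have e : ∀ m, c m * ∫ x in cube M, ee m x * ee k x = if m = -k then c (-k) else 0 := by
    intro m
    simp_rw [← ee_add_left]
    rw [integral_ee]
    by_cases hm : m = -k
    · rw [if_pos hm, if_pos (by rw [hm]; simp), mul_one, hm]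
    · rw [if_neg hm, if_neg (fun h => hm (eq_neg_of_add_eq_zero_left h)), mul_zero]
  simp_rw [e] at h
  have h2 := h.unique (hasSum_ite_eq (-k) (c (-k)))
  rw [← h2]
  congr 1
  funext x
  ring

/-- the Fourier coefficients of the sum of an absolutely convergent Fourier series -/
theorem fc_S {c : K M → ℂ} (hc : Summable c) : fc (S c) = c := by
  funext k
  rw [fc, integral_ee_S (-k) hc, neg_neg]

/-- the Fourier coefficients of a product -/
theorem hasSum_fc_mul {b c : K M → ℂ} (hb : Summable b) (hc : Summable c) (k : K M) :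
    HasSum (fun l => b l * c (k - l)) (fc (fun x => S b x * S c x) k) := by
  have h := integral_S_mul hb (g := fun x => ee (-k) x * S c x)
    ((ee_continuous (-k)).mul (S_continuous hc))
  have e : ∀ l, b l * ∫ x in cube M, ee l x * (ee (-k) x * S c x) = b l * c (k - l) := by
    intro l
    have e1 : (∫ x in cube M, ee l x * (ee (-k) x * S c x)) =
        ∫ x in cube M, ee (l + -k) x * S c x := by
      congr 1
      funext x
      rw [ee_add_left]; ring
    rw [e1, integral_ee_S (l + -k) hc]
    congr 2
    abel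
  simp_rw [e] at h
  have e2 : (∫ x in cube M, S b x * (ee (-k) x * S c x)) =
      ∫ x in cube M, ee (-k) x * (S b x * S c x) := by
    congr 1
    funext x
    ring
  rwa [e2] at h

theorem summable_sq {b : K M → ℂ} (hb : Summable b) : Summable fun k => ‖b k‖ ^ 2 := by
  have hM : ∀ k, ‖b k‖ ≤ ∑' m, ‖b m‖ := fun k => hb.norm.le_tsum k fun _ _ => norm_nonneg _
  refine Summable.of_nonneg_of_le (fun p => by positivity) (fun p => ?_)
    (hb.norm.mul_left (∑' m, ‖b m‖))
  rw [sq]
  exact mul_le_mul_of_nonneg_right (hM p) (norm_nonneg _)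

/-- Parseval -/
theorem integral_norm_sq {b : K M → ℂ} (hb : Summable b) :
    ∫ x in cube M, ‖S b x‖ ^ 2 = ∑' k, ‖b k‖ ^ 2 := by
  set b' : K M → ℂ := fun k => (starRingEnd ℂ) (b (-k)) with hb'
  have hbs : Summable b' := by
    refine Summable.of_norm ?_
    simp only [hb', RCLike.norm_conj]
    exact ((Equiv.neg (K M)).summable_iff (f := fun k => ‖b k‖)).2 hb.norm
  have e1 : ∀ x, S b' x = (starRingEnd ℂ) (S b x) := by
    intro x
    unfold S
    rw [Complex.conj_tsum, ← (Equiv.neg (K M)).tsum_eq]
    refine tsum_congr fun k => ?_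
    simp only [hb', Equiv.neg_apply, map_mul, neg_neg, ee_neg]
  have h := integral_S_mul hb (S_continuous hbs)
  have e2 : ∀ k, b k * ∫ x in cube M, ee k x * S b' x = ((‖b k‖ ^ 2 : ℝ) : ℂ) := by
    intro k
    rw [integral_ee_S k hbs]
    simp only [hb', neg_neg]
    rw [Complex.mul_conj, Complex.normSq_eq_norm_sq]
  simp_rw [e2] at h
  have e3 : (∫ x in cube M, S b x * S b' x) = ((∫ x in cube M, ‖S b x‖ ^ 2 : ℝ) : ℂ) := by
    rw [← integral_complex_ofReal]
    congr 1
    funext x
    rw [e1, Complex.mul_conj, Complex.normSq_eq_norm_sq]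
  rw [e3] at h
  have h2 : HasSum (fun k => ‖b k‖ ^ 2) (∫ x in cube M, ‖S b x‖ ^ 2) := by
    exact_mod_cast h
  rw [h2.tsum_eq]

end Pool.Agent.Helper597_fou
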