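import Pool.Agent.Helper597_fou.SP

/-!
# The equation `g = b + μ S g`

`S` is a Fourier multiplier with `|m k| ≤ 1`, and `μ` a smooth periodic function with `|μ| ≤ κ < 1`.
-/

set_option autoImplicit false

open MeasureTheory Set Filter Topology
open scoped ContDiff

noncomputable section

namespace Pool.Agent.Helper597_fou

variable {M : ℕ}

/-- the `L²` bound for products -/
theorem l2_mul {f : E M → ℂ} (hf : SP f) {κ : ℝ} (hκ : ∀ x, ‖f x‖ ≤ κ) {a : K M → ℂ} (ha : RD a) :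
    ∑' k, ‖fc (fun x => f x * S a x) k‖ ^ 2 ≤ κ ^ 2 * ∑' k, ‖a k‖ ^ 2 := by
  have hκ0 : 0 ≤ κ := (norm_nonneg _).trans (hκ 0)
  have h1 := (hf.mul ha.sp).parseval
  have h2 := ha.sp.parseval
  rw [ha.fc_S] at h2
  rw [← h1, ← h2, ← integral_const_mul]
  refine setIntegral_mono (integrableOn_cube ((hf.mul ha.sp).cont.norm.pow 2))
    ((integrableOn_cube (ha.sp.cont.norm.pow 2)).const_mul _) fun x => ?_
  simp only [norm_mul]
  rw [mul_pow]
  exact mul_le_mul_of_nonneg_right (pow_le_pow_left₀ (norm_nonneg _) (hκ x) 2) (by positivity)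

theorem RD.sq {a : K M → ℂ} (ha : RD a) : Summable fun k => ‖a k‖ ^ 2 := summable_sq ha.summable

/-- a convolution sum -/
theorem conv_summable {η a : K M → ℂ} (hη : RD η) (ha : RD a) (k : K M) :
    Summable fun l => ‖η (k - l)‖ * ‖a l‖ := by
  obtain ⟨C, hC⟩ := hη.bound 0
  refine Summable.of_nonneg_of_le (fun l => by positivity) (fun l => ?_)
    (ha.summable.norm.mul_left C)
  have := hC (k - l)
  rw [pow_zero, one_mul] at this
  exact mul_le_mul_of_nonneg_right this (norm_nonneg _)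

theorem RD.norm {a : K M → ℂ} (ha : RD a) : RD fun k => ((‖a k‖ : ℝ) : ℂ) :=
  ha.mono 0 1 fun k => by simp

/-- Young's inequality -/
theorem young {η a : K M → ℂ} (hη : RD η) (ha : RD a) :
    Summable (fun k => (∑' l, ‖η (k - l)‖ * ‖a l‖) ^ 2) ∧
    ∑' k, (∑' l, ‖η (k - l)‖ * ‖a l‖) ^ 2 ≤ (∑' k, ‖η k‖) ^ 2 * ∑' k, ‖a k‖ ^ 2 := by
  have hη' := hη.norm
  have ha' := ha.norm
  have hb : ∀ x, ‖S (fun k => ((‖η k‖ : ℝ) : ℂ)) x‖ ≤ ∑' k, ‖η k‖ := by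
    intro x
    refine (norm_S_le hη'.summable x).trans (le_of_eq ?_)
    exact tsum_congr fun k => by simp
  have h1 := l2_mul hη'.sp hb ha'
  have h2 : ∀ k, ‖fc (fun x => S (fun k => ((‖η k‖ : ℝ) : ℂ)) x *
      S (fun k => ((‖a k‖ : ℝ) : ℂ)) x) k‖ ^ 2 = (∑' l, ‖η (k - l)‖ * ‖a l‖) ^ 2 := by
    intro k
    have h3 := (fc_mul hη'.sp ha'.sp k).tsum_eq
    rw [hη'.fc_S, ha'.fc_S] at h3
    rw [← h3]
    have h4 : (∑' l, ((‖η (k - l)‖ : ℝ) : ℂ) * ((‖a l‖ : ℝ) : ℂ)) =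
        ((∑' l, ‖η (k - l)‖ * ‖a l‖ : ℝ) : ℂ) := by
      rw [Complex.ofReal_tsum]
      exact tsum_congr fun l => by push_cast; ring
    rw [h4, Complex.norm_real, Real.norm_eq_abs, sq_abs]
  have h5 : (∑' k, ‖(((‖a k‖ : ℝ) : ℂ))‖ ^ 2) = ∑' k, ‖a k‖ ^ 2 :=
    tsum_congr fun k => by simp
  simp_rw [h2] at h1
  rw [h5] at h1
  refine ⟨?_, h1⟩
  have h6 : RD (fc (fun x => S (fun k => ((‖η k‖ : ℝ) : ℂ)) x *
      S (fun k => ((‖a k‖ : ℝ) : ℂ)) x)) := (hη'.sp.mul ha'.sp).rd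
  have h7 := h6.sq
  simp_rw [h2] at h7
  exact h7

/-- the scaled weight -/
def wE (ε : ℝ) (s : ℕ) (k : K M) : ℝ := (1 + ε * ‖k‖) ^ s

theorem one_le_wE {ε : ℝ} (hε : 0 ≤ ε) (s : ℕ) (k : K M) : 1 ≤ wE ε s k := by
  unfold wE
  have := norm_nonneg k
  exact one_le_pow₀ (by nlinarith)

theorem wE_le {ε : ℝ} (hε : 0 ≤ ε) (hε1 : ε ≤ 1) (s : ℕ) (k : K M) : wE ε s k ≤ wt k ^ s := by
  unfold wE wt
  have := norm_nonneg k
  gcongr
  nlinarith

theorem le_wE {ε : ℝ} (hε : 0 ≤ ε) (hε1 : ε ≤ 1) (s : ℕ) (k : K M) :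
    ε ^ s * wt k ^ s ≤ wE ε s k := by
  unfold wE wt
  rw [← mul_pow]
  have := norm_nonneg k
  gcongr
  linarith

theorem wE_sub {ε : ℝ} (hε : 0 ≤ ε) (s : ℕ) (k l : K M) :
    |wE ε s k - wE ε s l| ≤ wE ε s l * (wE ε s (k - l) - 1) := by
  have hk := one_le_wE hε s k
  have hl := one_le_wE hε s l
  have hkl := one_le_wE hε s (k - l)
  have h1 : wE ε s k ≤ wE ε s l * wE ε s (k - l) := by
    unfold wE
    rw [← mul_pow]
    have h2 : ‖k‖ ≤ ‖l‖ + ‖k - l‖ := by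
      have := norm_add_le l (k - l)
      rwa [add_sub_cancel] at this
    have := norm_nonneg k
    have := norm_nonneg l
    have := norm_nonneg (k - l)
    refine pow_le_pow_left₀ (by positivity) ?_ s
    nlinarith [mul_nonneg (mul_nonneg hε (norm_nonneg l)) (mul_nonneg hε (norm_nonneg (k - l)))]
  have h2 : wE ε s l ≤ wE ε s k * wE ε s (k - l) := by
    unfold wE
    rw [← mul_pow]
    have h2 : ‖l‖ ≤ ‖k‖ + ‖k - l‖ := by
      have := norm_sub_le k (k - l)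
      rwa [sub_sub_cancel] at this
    have := norm_nonneg k
    have := norm_nonneg l
    have := norm_nonneg (k - l)
    refine pow_le_pow_left₀ (by positivity) ?_ s
    nlinarith [mul_nonneg (mul_nonneg hε (norm_nonneg k)) (mul_nonneg hε (norm_nonneg (k - l)))]
  rw [abs_le]
  constructor
  · -- `w l - w k ≤ w l (W - 1)`
    nlinarith
  · nlinarith

/-- the error coefficients -/
def eta (f : E M → ℂ) (ε : ℝ) (s : ℕ) (k : K M) : ℂ := (((wE ε s k - 1 : ℝ)) : ℂ) * fc f k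

theorem rd_eta {f : E M → ℂ} (hf : SP f) {ε : ℝ} (hε : 0 ≤ ε) (hε1 : ε ≤ 1) (s : ℕ) :
    RD (eta f ε s) := by
  refine hf.rd.mono s 1 fun k => ?_
  unfold eta
  rw [norm_mul, Complex.norm_real, Real.norm_eq_abs,
    abs_of_nonneg (by linarith [one_le_wE hε s k]), one_mul]
  refine mul_le_mul_of_nonneg_right ?_ (norm_nonneg _)
  linarith [wE_le hε hε1 s k]

theorem rd_wE {a : K M → ℂ} (ha : RD a) {ε : ℝ} (hε : 0 ≤ ε) (hε1 : ε ≤ 1) (s : ℕ) :
    RD fun k => ((wE ε s k : ℝ) : ℂ) * a k := by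
  refine ha.mono s 1 fun k => ?_
  rw [norm_mul, Complex.norm_real, Real.norm_eq_abs,
    abs_of_nonneg (by linarith [one_le_wE hε s k]), one_mul]
  exact mul_le_mul_of_nonneg_right (wE_le hε hε1 s k) (norm_nonneg _)

/-- the weighted energy -/
def En (ε : ℝ) (s : ℕ) (a : K M → ℂ) : ℝ := ∑' k, (wE ε s k * ‖a k‖) ^ 2

theorem en_summable {a : K M → ℂ} (ha : RD a) {ε : ℝ} (hε : 0 ≤ ε) (hε1 : ε ≤ 1) (s : ℕ) :
    Summable fun k => (wE ε s k * ‖a k‖) ^ 2 := by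
  refine (rd_wE ha hε hε1 s).sq.congr fun k => ?_
  rw [norm_mul, Complex.norm_real, Real.norm_eq_abs,
    abs_of_nonneg (by linarith [one_le_wE hε s k])]

theorem en_nonneg (ε : ℝ) (s : ℕ) (a : K M → ℂ) : 0 ≤ En ε s a := tsum_nonneg fun _ => sq_nonneg _

/-- the weighted estimate -/
theorem en_mul {f : E M → ℂ} (hf : SP f) {κ : ℝ} (hκ : ∀ x, ‖f x‖ ≤ κ) {a : K M → ℂ} (ha : RD a)
    {ε : ℝ} (hε : 0 ≤ ε) (hε1 : ε ≤ 1) (s : ℕ) {θ : ℝ} (hθ : 0 < θ) :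
    En ε s (fc fun x => f x * S a x) ≤
      ((1 + θ) * κ ^ 2 + (1 + θ⁻¹) * (∑' k, ‖eta f ε s k‖) ^ 2) * En ε s a := by
  set b : K M → ℂ := fun k => ((wE ε s k : ℝ) : ℂ) * a k with hb
  have hbr : RD b := rd_wE ha hε hε1 s
  have hηr := rd_eta hf hε hε1 s
  have hnb : ∀ k, ‖b k‖ = wE ε s k * ‖a k‖ := fun k => by
    rw [hb]
    simp only
    rw [norm_mul, Complex.norm_real, Real.norm_eq_abs,
      abs_of_nonneg (by linarith [one_le_wE hε s k])]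
  have hEb : (∑' k, ‖b k‖ ^ 2) = En ε s a := tsum_congr fun k => by rw [hnb]
  have h1 := l2_mul hf hκ hbr
  obtain ⟨h2s, h2⟩ := young hηr hbr
  rw [hEb] at h1 h2
  have key : ∀ k, (wE ε s k * ‖fc (fun x => f x * S a x) k‖) ^ 2 ≤
      (1 + θ) * ‖fc (fun x => f x * S b x) k‖ ^ 2 +
      (1 + θ⁻¹) * (∑' l, ‖eta f ε s (k - l)‖ * ‖b l‖) ^ 2 := by
    intro k
    have c1 := fc_mul hf ha.sp k
    have c2 := fc_mul hf hbr.sp k
    rw [ha.fc_S] at c1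
    rw [hbr.fc_S] at c2
    have c3 : HasSum (fun l => fc f (k - l) * (((wE ε s k - wE ε s l : ℝ) : ℂ) * a l))
        (((wE ε s k : ℝ) : ℂ) * fc (fun x => f x * S a x) k - fc (fun x => f x * S b x) k) := by
      have e := (c1.mul_left ((wE ε s k : ℝ) : ℂ)).sub c2
      refine e.congr_fun fun l => ?_
      simp only [hb]
      push_cast
      ring
    have c4 : ‖((wE ε s k : ℝ) : ℂ) * fc (fun x => f x * S a x) k -
        fc (fun x => f x * S b x) k‖ ≤ ∑' l, ‖eta f ε s (k - l)‖ * ‖b l‖ := by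
      rw [← c3.tsum_eq]
      refine tsum_of_norm_bounded (conv_summable hηr hbr k).hasSum fun l => ?_
      rw [norm_mul, norm_mul, Complex.norm_real, Real.norm_eq_abs, hnb]
      have h55 : ‖eta f ε s (k - l)‖ = (wE ε s (k - l) - 1) * ‖fc f (k - l)‖ := by
        unfold eta
        rw [norm_mul, Complex.norm_real, Real.norm_eq_abs,
          abs_of_nonneg (by linarith [one_le_wE hε s (k - l)])]
      rw [h55]
      have h5 := wE_sub hε s k l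
      calc ‖fc f (k - l)‖ * (|wE ε s k - wE ε s l| * ‖a l‖)
          ≤ ‖fc f (k - l)‖ * (wE ε s l * (wE ε s (k - l) - 1) * ‖a l‖) := by gcongr
        _ = (wE ε s (k - l) - 1) * ‖fc f (k - l)‖ * (wE ε s l * ‖a l‖) := by ring
    set X := ‖fc (fun x => f x * S b x) k‖ with hX
    set Y := ∑' l, ‖eta f ε s (k - l)‖ * ‖b l‖ with hY
    have c5 : wE ε s k * ‖fc (fun x => f x * S a x) k‖ ≤ X + Y := by
      have h6 : ‖((wE ε s k : ℝ) : ℂ) * fc (fun x => f x * S a x) k‖ =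
          wE ε s k * ‖fc (fun x => f x * S a x) k‖ := by
        rw [norm_mul, Complex.norm_real, Real.norm_eq_abs,
          abs_of_nonneg (by linarith [one_le_wE hε s k])]
      rw [← h6]
      have h7 := norm_add_le (fc (fun x => f x * S b x) k)
        (((wE ε s k : ℝ) : ℂ) * fc (fun x => f x * S a x) k - fc (fun x => f x * S b x) k)
      rw [add_sub_cancel] at h7
      linarith
    have hX0 : 0 ≤ X := norm_nonneg _
    have hY0 : 0 ≤ Y := tsum_nonneg fun l => by positivity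
    have hL0 : 0 ≤ wE ε s k * ‖fc (fun x => f x * S a x) k‖ :=
      mul_nonneg (by linarith [one_le_wE hε s k]) (norm_nonneg _)
    calc (wE ε s k * ‖fc (fun x => f x * S a x) k‖) ^ 2 ≤ (X + Y) ^ 2 :=
          pow_le_pow_left₀ hL0 c5 2
      _ ≤ (1 + θ) * X ^ 2 + (1 + θ⁻¹) * Y ^ 2 := by
        have h8 : 0 ≤ θ⁻¹ * (θ * X - Y) ^ 2 := by positivity
        have h9 : θ⁻¹ * (θ * X - Y) ^ 2 = θ * X ^ 2 - 2 * X * Y + θ⁻¹ * Y ^ 2 := by
          field_simp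
          ring
        nlinarith
  have hs1 : Summable fun k => ‖fc (fun x => f x * S b x) k‖ ^ 2 := (hf.mul hbr.sp).rd.sq
  have hs : Summable fun k => (1 + θ) * ‖fc (fun x => f x * S b x) k‖ ^ 2 +
      (1 + θ⁻¹) * (∑' l, ‖eta f ε s (k - l)‖ * ‖b l‖) ^ 2 :=
    (hs1.mul_left _).add (h2s.mul_left _)
  calc En ε s (fc fun x => f x * S a x) ≤ ∑' k, ((1 + θ) * ‖fc (fun x => f x * S b x) k‖ ^ 2 +
      (1 + θ⁻¹) * (∑' l, ‖eta f ε s (k - l)‖ * ‖b l‖) ^ 2) :=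
        (en_summable (hf.mul ha.sp).rd hε hε1 s).tsum_le_tsum key hs
    _ = (1 + θ) * ∑' k, ‖fc (fun x => f x * S b x) k‖ ^ 2 +
      (1 + θ⁻¹) * ∑' k, (∑' l, ‖eta f ε s (k - l)‖ * ‖b l‖) ^ 2 := by
        rw [Summable.tsum_add (hs1.mul_left _) (h2s.mul_left _), tsum_mul_left, tsum_mul_left]
    _ ≤ (1 + θ) * (κ ^ 2 * En ε s a) + (1 + θ⁻¹) * ((∑' k, ‖eta f ε s k‖) ^ 2 * En ε s a) := by
        gcongr
    _ = _ := by ring

/-- the error tends to zero -/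
theorem tendsto_eta {f : E M → ℂ} (hf : SP f) (s : ℕ) :
    Tendsto (fun ε : ℝ => ∑' k, ‖eta f ε s k‖) (𝓝[>] 0) (𝓝 0) := by
  have h0 : (∑' k : K M, (0 : ℝ)) = 0 := tsum_zero
  suffices hsuff : Tendsto (fun ε : ℝ => ∑' k, ‖eta f ε s k‖) (𝓝[>] 0) (𝓝 (∑' k : K M, (0 : ℝ))) by
    rwa [h0] at hsuff
  refine tendsto_tsum_of_dominated_convergence (bound := fun k => wt k ^ s * ‖fc f k‖)
    (hf.rd s) (fun k => ?_) ?_
  · have h1 : Tendsto (fun ε : ℝ => |wE ε s k - 1| * ‖fc f k‖) (𝓝 0) (𝓝 (|wE 0 s k - 1| * ‖fc f k‖)) := by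
      have : Continuous fun ε : ℝ => |wE ε s k - 1| * ‖fc f k‖ := by
        unfold wE
        fun_prop
      exact this.tendsto 0
    have h2 : |wE 0 s k - 1| * ‖fc f k‖ = 0 := by simp [wE]
    rw [h2] at h1
    refine (h1.mono_left nhdsWithin_le_nhds).congr fun ε => ?_
    unfold eta
    rw [norm_mul, Complex.norm_real, Real.norm_eq_abs]
  · have h1 : ∀ᶠ ε : ℝ in 𝓝[>] 0, ε ≤ 1 := by
      have : ∀ᶠ ε : ℝ in 𝓝 0, ε ≤ 1 := Iic_mem_nhds one_pos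
      exact this.filter_mono nhdsWithin_le_nhds
    filter_upwards [h1, self_mem_nhdsWithin] with ε hε1 hε k
    have hε' : (0 : ℝ) ≤ ε := le_of_lt hε
    rw [norm_norm]
    unfold eta
    rw [norm_mul, Complex.norm_real, Real.norm_eq_abs,
      abs_of_nonneg (by linarith [one_le_wE hε' s k])]
    refine mul_le_mul_of_nonneg_right ?_ (norm_nonneg _)
    linarith [wE_le hε' hε1 s k]

/-- multiplication by `f` is a contraction for suitable weighted energies -/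
theorem contraction {f : E M → ℂ} (hf : SP f) {κ : ℝ} (hκ : ∀ x, ‖f x‖ ≤ κ) (hκ1 : κ < 1)
    (s : ℕ) : ∃ ε : ℝ, 0 < ε ∧ ε ≤ 1 ∧ ∃ q : ℝ, 0 ≤ q ∧ q < 1 ∧ ∀ a : K M → ℂ, RD a →
      En ε s (fc fun x => f x * S a x) ≤ q * En ε s a := by
  have hκ0 : 0 ≤ κ := (norm_nonneg _).trans (hκ 0)
  have hκ2 : κ ^ 2 < 1 := by nlinarith
  set θ : ℝ := (1 - κ ^ 2) / 2 with hθ
  have hθ0 : 0 < θ := by rw [hθ]; linarith
  have h1 : Tendsto (fun ε : ℝ => (1 + θ⁻¹) * (∑' k, ‖eta f ε s k‖) ^ 2) (𝓝[>] 0) (𝓝 0) := by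
    have := ((tendsto_eta hf s).pow 2).const_mul (1 + θ⁻¹)
    simpa using this
  have h2 : ∀ᶠ ε : ℝ in 𝓝[>] 0, (1 + θ⁻¹) * (∑' k, ‖eta f ε s k‖) ^ 2 < (1 - κ ^ 2) / 4 :=
    h1.eventually (Iio_mem_nhds (by linarith))
  have h3 : ∀ᶠ ε : ℝ in 𝓝[>] 0, ε ≤ 1 := by
    have : ∀ᶠ ε : ℝ in 𝓝 0, ε ≤ 1 := Iic_mem_nhds one_pos
    exact this.filter_mono nhdsWithin_le_nhds
  obtain ⟨ε, hε2, hε1, hε⟩ := (h2.and (h3.and self_mem_nhdsWithin)).exists
  have hε' : (0 : ℝ) < ε := hε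
  refine ⟨ε, hε', hε1, (1 + θ) * κ ^ 2 + (1 + θ⁻¹) * (∑' k, ‖eta f ε s k‖) ^ 2, by positivity, ?_,
    fun a ha => en_mul hf hκ ha hε'.le hε1 s hθ0⟩
  have h4 : (1 + θ) * κ ^ 2 ≤ κ ^ 2 + θ := by nlinarith
  rw [hθ] at h4 ⊢
  rw [hθ] at hε2
  linarith

/-! ### The Neumann series -/

/-- the operator `g ↦ μ S g` -/
def TT (μ : E M → ℂ) (m : K M → ℂ) (g : E M → ℂ) : E M → ℂ := fun x => μ x * Mul m g x

theorem SP.TT {μ g : E M → ℂ} {m : K M → ℂ} (hμ : SP μ) (hm : Tame m) (hg : SP g) :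
    SP (TT μ m g) := hμ.mul (hm.sp hg)

theorem SP.TT_iter {μ g : E M → ℂ} {m : K M → ℂ} (hμ : SP μ) (hm : Tame m) (hg : SP g) (j : ℕ) :
    SP ((Helper597_fou.TT μ m)^[j] g) := by
  induction j with
  | zero => exact hg
  | succ j ih => rw [Function.iterate_succ_apply']; exact hμ.TT hm ih

theorem fc_TT {μ g : E M → ℂ} {m : K M → ℂ} (hμ : SP μ) (hm : Tame m) (hg : SP g) (k : K M) :
    HasSum (fun l => fc μ (k - l) * (m l * fc g l)) (fc (TT μ m g) k) := by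
  have h := fc_mul hμ (hm.sp hg) k
  simp_rw [hm.fc hg] at h
  exact h

theorem en_TT {μ g : E M → ℂ} {m : K M → ℂ} (hm : ∀ k, ‖m k‖ ≤ 1) (hg : SP g)
    {ε : ℝ} (hε : 0 ≤ ε) (hε1 : ε ≤ 1) {s : ℕ} {q : ℝ} (hq0 : 0 ≤ q)
    (hq : ∀ a : K M → ℂ, RD a → En ε s (fc fun x => μ x * S a x) ≤ q * En ε s a) :
    En ε s (fc (TT μ m g)) ≤ q * En ε s (fc g) := by
  have hmt : Tame m := tame_of_bdd 1 hm
  have h1 := hq (fun k => m k * fc g k) (hmt.rd hg.rd)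
  have h2 : En ε s (fun k => m k * fc g k) ≤ En ε s (fc g) := by
    refine (en_summable (hmt.rd hg.rd) hε hε1 s).tsum_le_tsum (fun k => ?_)
      (en_summable hg.rd hε hε1 s)
    have hw := one_le_wE hε s k
    refine pow_le_pow_left₀ (by positivity) ?_ 2
    refine mul_le_mul_of_nonneg_left ?_ (by linarith)
    rw [norm_mul]
    exact mul_le_of_le_one_left (norm_nonneg _) (hm k)
  exact h1.trans (mul_le_mul_of_nonneg_left h2 hq0)

theorem en_iter {μ g : E M → ℂ} {m : K M → ℂ} (hμ : SP μ) (hm : ∀ k, ‖m k‖ ≤ 1) (hg : SP g)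
    {ε : ℝ} (hε : 0 ≤ ε) (hε1 : ε ≤ 1) {s : ℕ} {q : ℝ} (hq0 : 0 ≤ q)
    (hq : ∀ a : K M → ℂ, RD a → En ε s (fc fun x => μ x * S a x) ≤ q * En ε s a) (j : ℕ) :
    En ε s (fc ((TT μ m)^[j] g)) ≤ q ^ j * En ε s (fc g) := by
  have hmt : Tame m := tame_of_bdd 1 hm
  induction j with
  | zero => simp
  | succ j ih =>
    rw [Function.iterate_succ_apply']
    refine (en_TT hm (hμ.TT_iter hmt hg j) hε hε1 hq0 hq).trans ?_
    calc q * En ε s (fc ((TT μ m)^[j] g)) ≤ q * (q ^ j * En ε s (fc g)) :=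
          mul_le_mul_of_nonneg_left ih hq0
      _ = q ^ (j + 1) * En ε s (fc g) := by ring

theorem coef_le_en {a : K M → ℂ} (ha : RD a) {ε : ℝ} (hε : 0 ≤ ε) (hε1 : ε ≤ 1) (s : ℕ)
    (k : K M) : wE ε s k * ‖a k‖ ≤ Real.sqrt (En ε s a) := by
  refine Real.le_sqrt_of_sq_le ?_
  exact (en_summable ha hε hε1 s).le_tsum k fun _ _ => sq_nonneg _

/-- geometric decay of the iterates in all weighted norms -/
theorem iter_decay {μ g : E M → ℂ} {m : K M → ℂ} (hμ : SP μ) {κ : ℝ} (hκ : ∀ x, ‖μ x‖ ≤ κ)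
    (hκ1 : κ < 1) (hm : ∀ k, ‖m k‖ ≤ 1) (hg : SP g) (s : ℕ) :
    ∃ C r : ℝ, 0 ≤ C ∧ 0 ≤ r ∧ r < 1 ∧ ∀ j k, wt k ^ s * ‖fc ((TT μ m)^[j] g) k‖ ≤ C * r ^ j := by
  obtain ⟨ε, hε, hε1, q, hq0, hq1, hq⟩ := contraction hμ hκ hκ1 s
  have hmt : Tame m := tame_of_bdd 1 hm
  refine ⟨(ε ^ s)⁻¹ * Real.sqrt (En ε s (fc g)), Real.sqrt q, by positivity, Real.sqrt_nonneg _,
    ?_, fun j k => ?_⟩
  · rw [Real.sqrt_lt' one_pos]
    simpa using hq1
  · have h1 := en_iter hμ hm hg hε.le hε1 hq0 hq j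
    have h2 := coef_le_en (hμ.TT_iter hmt hg j).rd hε.le hε1 s k
    have h3 : Real.sqrt (En ε s (fc ((TT μ m)^[j] g))) ≤
        Real.sqrt q ^ j * Real.sqrt (En ε s (fc g)) := by
      refine Real.sqrt_le_iff.2 ⟨by positivity, ?_⟩
      rw [mul_pow, ← pow_mul, mul_comm j 2, pow_mul, Real.sq_sqrt hq0,
        Real.sq_sqrt (en_nonneg _ _ _)]
      exact h1
    have h4 := le_wE hε.le hε1 s k
    have hn : 0 ≤ ‖fc ((TT μ m)^[j] g) k‖ := norm_nonneg _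
    have h5 : ε ^ s * (wt k ^ s * ‖fc ((TT μ m)^[j] g) k‖) ≤
        Real.sqrt q ^ j * Real.sqrt (En ε s (fc g)) := by
      calc ε ^ s * (wt k ^ s * ‖fc ((TT μ m)^[j] g) k‖) =
            (ε ^ s * wt k ^ s) * ‖fc ((TT μ m)^[j] g) k‖ := by ring
        _ ≤ wE ε s k * ‖fc ((TT μ m)^[j] g) k‖ := mul_le_mul_of_nonneg_right h4 hn
        _ ≤ _ := h2.trans h3
    have hεs : 0 < ε ^ s := by positivity
    calc wt k ^ s * ‖fc ((TT μ m)^[j] g) k‖ =
          (ε ^ s)⁻¹ * (ε ^ s * (wt k ^ s * ‖fc ((TT μ m)^[j] g) k‖)) := by field_simp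
      _ ≤ (ε ^ s)⁻¹ * (Real.sqrt q ^ j * Real.sqrt (En ε s (fc g))) :=
          mul_le_mul_of_nonneg_left h5 (by positivity)
      _ = _ := by ring

/-- the solution of `g = b + μ S g` -/
def Rs (μ : E M → ℂ) (m : K M → ℂ) (b : E M → ℂ) : E M → ℂ :=
  S fun k => ∑' j, fc ((TT μ m)^[j] b) k

section solution

variable {μ b : E M → ℂ} {m : K M → ℂ} (hμ : SP μ) {κ : ℝ} (hκ : ∀ x, ‖μ x‖ ≤ κ)
  (hκ1 : κ < 1) (hm : ∀ k, ‖m k‖ ≤ 1) (hb : SP b)

include hμ hκ hκ1 hm hb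

theorem coef_summable (k : K M) : Summable fun j => fc ((TT μ m)^[j] b) k := by
  obtain ⟨C, r, hC, hr, hr1, h⟩ := iter_decay hμ hκ hκ1 hm hb 0
  refine Summable.of_norm_bounded ((summable_geometric_of_lt_one hr hr1).mul_left C) fun j => ?_
  have := h j k
  rwa [pow_zero, one_mul] at this

theorem rd_coef : RD fun k => ∑' j, fc ((TT μ m)^[j] b) k := by
  refine rd_of_bounds fun s => ?_
  obtain ⟨C, r, hC, hr, hr1, h⟩ := iter_decay hμ hκ hκ1 hm hb s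
  have hg := summable_geometric_of_lt_one hr hr1
  refine ⟨∑' j, C * r ^ j, fun k => ?_⟩
  have hw := wt_pos k
  have h1 : ‖∑' j, fc ((TT μ m)^[j] b) k‖ ≤ ∑' j, (wt k ^ s)⁻¹ * (C * r ^ j) := by
    refine tsum_of_norm_bounded ((hg.mul_left C).mul_left _).hasSum fun j => ?_
    have h2 := h j k
    calc ‖fc ((TT μ m)^[j] b) k‖ = (wt k ^ s)⁻¹ * (wt k ^ s * ‖fc ((TT μ m)^[j] b) k‖) := by
          field_simp
      _ ≤ _ := mul_le_mul_of_nonneg_left h2 (by positivity)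
  rw [tsum_mul_left] at h1
  calc wt k ^ s * ‖∑' j, fc ((TT μ m)^[j] b) k‖ ≤
        wt k ^ s * ((wt k ^ s)⁻¹ * ∑' j, C * r ^ j) :=
        mul_le_mul_of_nonneg_left h1 (by positivity)
    _ = _ := by field_simp

theorem sp_Rs : SP (Rs μ m b) := (rd_coef hμ hκ hκ1 hm hb).sp

theorem fc_Rs (k : K M) : fc (Rs μ m b) k = ∑' j, fc ((TT μ m)^[j] b) k := by
  unfold Rs
  rw [(rd_coef hμ hκ hκ1 hm hb).fc_S]

theorem Rs_eq (x : E M) : Rs μ m b x = b x + μ x * Mul m (Rs μ m b) x := by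
  have hmt : Tame m := tame_of_bdd 1 hm
  have hR := sp_Rs hμ hκ hκ1 hm hb
  have h1 : Rs μ m b = fun x => b x + TT μ m (Rs μ m b) x := by
    refine hR.ext_fc (hb.add (hμ.TT hmt hR)) fun k => ?_
    rw [fc_add hb (hμ.TT hmt hR), fc_Rs hμ hκ hκ1 hm hb,
      (coef_summable hμ hκ hκ1 hm hb k).tsum_eq_zero_add]
    congr 1
    rw [← (fc_TT hμ hmt hR k).tsum_eq]
    simp_rw [fc_Rs hμ hκ hκ1 hm hb]
    obtain ⟨C, r, hC, hr, hr1, h⟩ := iter_decay hμ hκ hκ1 hm hb 0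
    have hg := summable_geometric_of_lt_one hr hr1
    have e1 : ∀ j, fc ((TT μ m)^[j + 1] b) k =
        ∑' l, fc μ (k - l) * (m l * fc ((TT μ m)^[j] b) l) := by
      intro j
      rw [Function.iterate_succ_apply', ← (fc_TT hμ hmt (hμ.TT_iter hmt hb j) k).tsum_eq]
    have e2 : ∀ l, fc μ (k - l) * (m l * ∑' j, fc ((TT μ m)^[j] b) l) =
        ∑' j, fc μ (k - l) * (m l * fc ((TT μ m)^[j] b) l) := by
      intro l
      rw [← tsum_mul_left, ← tsum_mul_left]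
    simp_rw [e1, e2]
    have hs : Summable fun p : ℕ × K M =>
        fc μ (k - p.2) * (m p.2 * fc ((TT μ m)^[p.1] b) p.2) := by
      have hμs : Summable fun l : K M => ‖fc μ (k - l)‖ :=
        ((Equiv.subLeft k).summable_iff (f := fun l : K M => ‖fc μ l‖)).2 hμ.rd.summable.norm
      refine Summable.of_norm_bounded ((hg.mul_left C).mul_of_nonneg hμs
        (fun j => by positivity) (fun l => norm_nonneg _)) fun p => ?_
      rw [norm_mul, norm_mul]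
      have h2 := h p.1 p.2
      rw [pow_zero, one_mul] at h2
      calc ‖fc μ (k - p.2)‖ * (‖m p.2‖ * ‖fc ((TT μ m)^[p.1] b) p.2‖) ≤
            ‖fc μ (k - p.2)‖ * (1 * (C * r ^ p.1)) := by
            gcongr
            exact hm _
        _ = C * r ^ p.1 * ‖fc μ (k - p.2)‖ := by ring
    exact (Summable.tsum_comm (f := fun (l : K M) (j : ℕ) =>
      fc μ (k - l) * (m l * fc ((TT μ m)^[j] b) l))
      ((Equiv.prodComm _ _).summable_iff.1 hs))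
  exact congrFun h1 x

omit hb in
/-- uniqueness -/
theorem unique_zero {g : E M → ℂ} (hg : SP g) (h : ∀ x, g x = μ x * Mul m g x) : ∀ x, g x = 0 := by
  have hmt : Tame m := tame_of_bdd 1 hm
  obtain ⟨ε, hε, hε1, q, hq0, hq1, hq⟩ := contraction hμ hκ hκ1 0
  have h1 := en_TT hm hg hε.le hε1 hq0 hq
  have h2 : TT μ m g = g := funext fun x => (h x).symm
  rw [h2] at h1
  have h3 := en_nonneg ε 0 (fc g)
  have h4 : En ε 0 (fc g) = 0 := by nlinarith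
  have h5 : ∀ k, fc g k = 0 := by
    intro k
    have h6 := coef_le_en hg.rd hε.le hε1 0 k
    rw [h4, Real.sqrt_zero] at h6
    have h7 := one_le_wE hε.le 0 k
    have h8 := norm_nonneg (fc g k)
    have h9 : ‖fc g k‖ = 0 := by nlinarith
    exact norm_eq_zero.1 h9
  have h6 : g = fun _ => 0 := by
    refine hg.ext_fc (SP.const 0) fun k => ?_
    rw [h5, fc_const]
    simp
  intro x
  rw [h6]

theorem unique_sol {g : E M → ℂ} (hg : SP g) (h : ∀ x, g x = b x + μ x * Mul m g x) :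
    g = Rs μ m b := by
  have hmt : Tame m := tame_of_bdd 1 hm
  have hR := sp_Rs hμ hκ hκ1 hm hb
  have h1 := unique_zero hμ hκ hκ1 hm (hg.sub hR) (fun x => by
    have e : Mul m (fun x => g x - Rs μ m b x) = fun x => Mul m g x - Mul m (Rs μ m b) x := by
      refine (hmt.sp (hg.sub hR)).ext_fc ((hmt.sp hg).sub (hmt.sp hR)) fun k => ?_
      rw [hmt.fc (hg.sub hR), fc_sub hg hR, fc_sub (hmt.sp hg) (hmt.sp hR), hmt.fc hg, hmt.fc hR]
      ring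
    rw [e]
    simp only
    have h2 := Rs_eq hμ hκ hκ1 hm hb x
    have h3 := h x
    linear_combination h3 - h2)
  funext x
  exact sub_eq_zero.1 (h1 x)

end solution

end Pool.Agent.Helper597_fou
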