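import Pool.Agent.Helper597_fou.PS
import Pool.Agent.Helper597_torsymp.Fam

/-!
# Area preserving maps in families

A smooth family of area preserving diffeomorphisms of the plane torus `x_p, x_q`, homotopic to the
identity, is deformed to translations through such families.
-/

set_option autoImplicit false
set_option linter.unusedSectionVars false

open MeasureTheory Set Filter Topology
open scoped ContDiff

noncomputable section

namespace Pool.Agent.Helper597_fou

variable {M : ℕ}

namespace PS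

/-- the map `x ↦ x + a(x) e_p + b(x) e_q` -/
def kn (p q : Fin (M + 1)) (a b : PS M) (x : E M) : E M :=
  x + a.1 x • (Pi.single p 1 : E M) + b.1 x • (Pi.single q 1 : E M)

variable {p q : Fin (M + 1)}

theorem kn_contDiff (a b : PS M) : ContDiff ℝ ∞ (kn p q a b) := by
  unfold kn
  exact (contDiff_id.add (a.smooth.smul contDiff_const)).add (b.smooth.smul contDiff_const)

theorem kn_per (a b : PS M) (x : E M) (k : K M) : kn p q a b (x + il k) = kn p q a b x + il k := by
  unfold kn
  rw [a.per, b.per]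
  abel

theorem hasFDerivAt_kn (a b : PS M) (x : E M) :
    HasFDerivAt (kn p q a b) (ContinuousLinearMap.id ℝ (E M) +
      (fderiv ℝ a.1 x).smulRight (Pi.single p 1 : E M) +
      (fderiv ℝ b.1 x).smulRight (Pi.single q 1 : E M)) x := by
  have h1 := ((a.diff x).hasFDerivAt.smul_const (Pi.single p 1 : E M))
  have h2 := ((b.diff x).hasFDerivAt.smul_const (Pi.single q 1 : E M))
  exact ((hasFDerivAt_id x).add h1).add h2

/-- composition with `kn p q a b` -/
def cmp (p q : Fin (M + 1)) (f a b : PS M) : PS M :=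
  ⟨fun x => f.1 (kn p q a b x), f.smooth.comp (kn_contDiff a b), fun x k => by
    simp only
    rw [kn_per, f.per]⟩

theorem cmp_val (f a b : PS M) (x : E M) : (cmp p q f a b).1 x = f.1 (kn p q a b x) := rfl

theorem cmp_add (f g a b : PS M) : cmp p q (f + g) a b = cmp p q f a b + cmp p q g a b := rfl
theorem cmp_sub (f g a b : PS M) : cmp p q (f - g) a b = cmp p q f a b - cmp p q g a b := rfl
theorem cmp_mul (f g a b : PS M) : cmp p q (f * g) a b = cmp p q f a b * cmp p q g a b := rfl
theorem cmp_one (a b : PS M) : cmp p q 1 a b = 1 := rfl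
theorem cmp_zero (a b : PS M) : cmp p q 0 a b = 0 := rfl

theorem kn_zero (x : E M) : kn p q (0 : PS M) 0 x = x := by
  simp [kn]

theorem cmp_id (f : PS M) : cmp p q f 0 0 = f := ext' fun x => by rw [cmp_val, kn_zero]

/-- the chain rule -/
theorem dd_cmp (i : Fin (M + 1)) (f a b : PS M) : dd i (cmp p q f a b) =
    cmp p q (dd i f) a b + cmp p q (dd p f) a b * dd i a + cmp p q (dd q f) a b * dd i b := by
  refine ext' fun x => ?_
  have h := (f.diff (kn p q a b x)).hasFDerivAt.comp x (hasFDerivAt_kn (p := p) (q := q) a b x)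
  have h1 : fderiv ℝ (cmp p q f a b).1 x = _ := h.fderiv
  simp only [add_val, mul_val, cmp_val, dd_val]
  unfold pd
  rw [h1]
  simp only [ContinuousLinearMap.comp_apply, _root_.add_apply, ContinuousLinearMap.id_apply,
    ContinuousLinearMap.smulRight_apply, map_add, map_smul, smul_eq_mul]
  ring

/-- the Jacobian in the plane -/
def J (p q : Fin (M + 1)) (a b : PS M) : PS M := (1 + dd p a) * (1 + dd q b) - dd q a * dd p b

theorem J_comp (f g a b : PS M) : J p q (a + cmp p q f a b) (b + cmp p q g a b) =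
    cmp p q (J p q f g) a b * J p q a b := by
  unfold J
  simp only [dd_add, dd_cmp, cmp_add, cmp_sub, cmp_mul, cmp_one]
  ring

theorem J_zero : J p q (0 : PS M) 0 = 1 := by
  unfold J
  simp

theorem sl_J {j : Fin (M + 1)} (hp : p ≠ j) (hq : q ≠ j) (c : ℝ) (a b : PS M) :
    sl j c (J p q a b) = J p q (sl j c a) (sl j c b) := by
  unfold J
  simp only [sl_add, sl_sub, sl_mul, sl_one, dd_sl hp, dd_sl hq]

theorem sl_cmp {j : Fin (M + 1)} (hp : p ≠ j) (hq : q ≠ j) (c : ℝ) (f a b : PS M) :
    sl j c (cmp p q f a b) = cmp p q (sl j c f) (sl j c a) (sl j c b) := by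
  refine ext' fun x => ?_
  simp only [sl_val, cmp_val]
  refine congrArg f.1 ?_
  unfold kn
  simp only [sl_val]
  funext i
  by_cases hi : i = j
  · subst hi
    simp [rs, Ne.symm hp, Ne.symm hq]
  · simp [rs, hi, Ne.symm hp, Ne.symm hq]

theorem aux_pos {s A : ℝ} (h0 : 0 ≤ s) (h1 : s ≤ 1) (hA : 0 < 1 + A) : 0 < 1 + s * A := by
  rcases h0.eq_or_lt with h | h
  · rw [← h]
    norm_num
  · nlinarith [mul_pos h hA]

/-- invertibility of triangular maps -/
theorem exists_inv (hpq : p ≠ q) {a b : PS M} (h1 : dd q a = 0)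
    (ha : ∀ x, 0 < 1 + (dd p a).1 x) (hb : ∀ x, 0 < 1 + (dd q b).1 x) :
    ∃ a' b' : PS M, (a' + cmp p q a a' b' = 0 ∧ b' + cmp p q b a' b' = 0) ∧
      (a + cmp p q a' a b = 0 ∧ b + cmp p q b' a b = 0) := by
  set s : ℝ → ℝ := Real.smoothTransition with hs
  have hs0 : ∀ t, 0 ≤ s t := Real.smoothTransition.nonneg
  have hs1 : ∀ t, s t ≤ 1 := Real.smoothTransition.le_one
  set Φ : ℝ × E M → E M := fun z => z.2 + (s z.1 * a.1 z.2) • (Pi.single p 1 : E M) +
    (s z.1 * b.1 z.2) • (Pi.single q 1 : E M) with hΦ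
  have hsl : ∀ t, (fun x => Φ (t, x)) = kn p q (s t • a) (s t • b) := by
    intro t
    rfl
  have hsm : ContDiff ℝ ∞ Φ := by
    have e1 : ContDiff ℝ ∞ fun z : ℝ × E M => s z.1 :=
      Real.smoothTransition.contDiff.comp contDiff_fst
    have e2 : ContDiff ℝ ∞ fun z : ℝ × E M => a.1 z.2 := a.smooth.comp contDiff_snd
    have e3 : ContDiff ℝ ∞ fun z : ℝ × E M => b.1 z.2 := b.smooth.comp contDiff_snd
    exact (contDiff_snd.add ((e1.mul e2).smul contDiff_const)).add
      ((e1.mul e3).smul contDiff_const)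
  have hfam : Helper597_torsymp.IsFam Φ := by
    refine ⟨hsm, fun t x v hv => ?_⟩
    rw [hsl, (hasFDerivAt_kn _ _ x).fderiv] at hv
    simp only [_root_.add_apply, ContinuousLinearMap.id_apply,
      ContinuousLinearMap.smulRight_apply] at hv
    have hvi : ∀ i, i ≠ p → i ≠ q → v i = 0 := by
      intro i hip hiq
      have := congrFun hv i
      simpa [hip, hiq] using this
    have hve : v = v p • (Pi.single p 1 : E M) + v q • (Pi.single q 1 : E M) := by
      funext i
      by_cases hip : i = p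
      · subst hip
        simp [hpq]
      · by_cases hiq : i = q
        · subst hiq
          simp [hip]
        · simp [hip, hiq, hvi i hip hiq]
    have hda : ∀ w : E M, fderiv ℝ (s t • a).1 x w = s t * fderiv ℝ a.1 x w := by
      intro w
      have : HasFDerivAt (s t • a).1 (s t • fderiv ℝ a.1 x) x :=
        (a.diff x).hasFDerivAt.const_mul (s t)
      rw [this.fderiv]
      rfl
    have hdb : ∀ w : E M, fderiv ℝ (s t • b).1 x w = s t * fderiv ℝ b.1 x w := by
      intro w
      have : HasFDerivAt (s t • b).1 (s t • fderiv ℝ b.1 x) x :=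
        (b.diff x).hasFDerivAt.const_mul (s t)
      rw [this.fderiv]
      rfl
    have hap : fderiv ℝ a.1 x v = v p * (dd p a).1 x := by
      have h2 : (dd q a).1 x = 0 := by rw [h1]; rfl
      rw [dd_val] at h2 ⊢
      unfold pd at h2 ⊢
      conv_lhs => rw [hve]
      rw [map_add, map_smul, map_smul, h2]
      simp
    have hp0 : v p = 0 := by
      have h3 := congrFun hv p
      simp only [Pi.add_apply, Pi.smul_apply, Pi.single_eq_same, smul_eq_mul, mul_one,
        Pi.single_eq_of_ne hpq, mul_zero, add_zero, Pi.zero_apply] at h3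
      rw [hda, hap] at h3
      have h4 : 0 < 1 + s t * (dd p a).1 x := aux_pos (hs0 t) (hs1 t) (ha x)
      have h5 : v p * (1 + s t * (dd p a).1 x) = 0 := by linear_combination h3
      exact (mul_eq_zero.1 h5).resolve_right h4.ne'
    have hbq : fderiv ℝ b.1 x v = v q * (dd q b).1 x := by
      rw [dd_val]
      unfold pd
      conv_lhs => rw [hve, hp0]
      rw [map_add, map_smul, map_smul]
      simp
    have hq0 : v q = 0 := by
      have h3 := congrFun hv q
      simp only [Pi.add_apply, Pi.smul_apply, Pi.single_eq_same, smul_eq_mul, mul_one,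
        Pi.single_eq_of_ne (Ne.symm hpq), mul_zero, add_zero, Pi.zero_apply] at h3
      rw [hdb, hbq] at h3
      have h4 : 0 < 1 + s t * (dd q b).1 x := aux_pos (hs0 t) (hs1 t) (hb x)
      have h5 : v q * (1 + s t * (dd q b).1 x) = 0 := by linear_combination h3
      exact (mul_eq_zero.1 h5).resolve_right h4.ne'
    rw [hve, hp0, hq0]
    simp
  have hequi : ∀ t, Helper597_torsymp.Equi (1 : Matrix (Fin (M + 1)) (Fin (M + 1)) ℤ)
      fun x => Φ (t, x) := by
    intro t x k
    rw [Matrix.one_mulVec, hsl]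
    exact kn_per _ _ x k
  have h0 : Function.Injective fun x => Φ (0, x) := by
    have : (fun x => Φ (0, x)) = id := by
      funext x
      simp [hΦ, hs, Real.smoothTransition.zero]
    rw [this]
    exact Function.injective_id
  obtain ⟨Ψ, hΨ, hΨ1, hΨ2⟩ := hfam.exists_inverse hequi h0
  have hone : ∀ x, Φ (1, x) = kn p q a b x := by
    intro x
    simp [hΦ, kn, hs, Real.smoothTransition.one]
  set L : E M → E M := fun x => Ψ (1, x) with hL
  have hLs : ContDiff ℝ ∞ L := hΨ.comp (contDiff_const.prodMk contDiff_id)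
  have hLK : ∀ x, L (kn p q a b x) = x := fun x => by rw [← hone]; exact hΨ1 1 x
  have hKL : ∀ x, kn p q a b (L x) = x := fun x => by rw [← hone]; exact hΨ2 1 x
  have hLper : ∀ x (k : K M), L (x + il k) = L x + il k := by
    intro x k
    have h3 : x + il k = kn p q a b (L x + il k) := by rw [kn_per, hKL]
    rw [h3, hLK]
  have hmk : ∀ f : PS M, ∃ g : PS M, ∀ x, g.1 x = -f.1 (L x) := fun f =>
    ⟨⟨fun x => -f.1 (L x), (f.smooth.comp hLs).neg, fun x k => by
      simp only
      rw [hLper, f.per]⟩, fun x => rfl⟩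
  obtain ⟨a', ha'⟩ := hmk a
  obtain ⟨b', hb'⟩ := hmk b
  have hLk : ∀ x, kn p q a' b' x = L x := by
    intro x
    have h3 := hKL x
    unfold kn at h3 ⊢
    rw [ha', hb']
    have h4 := eq_sub_of_add_eq (eq_sub_of_add_eq h3)
    rw [neg_smul, neg_smul]
    conv_rhs => rw [h4]
    abel
  refine ⟨a', b', ⟨ext' fun x => ?_, ext' fun x => ?_⟩, ⟨ext' fun x => ?_, ext' fun x => ?_⟩⟩
  · rw [add_val, cmp_val, hLk, ha']
    exact neg_add_cancel _
  · rw [add_val, cmp_val, hLk, hb']
    exact neg_add_cancel _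
  · rw [add_val, cmp_val, ha', hLK]
    exact add_neg_cancel _
  · rw [add_val, cmp_val, hb', hLK]
    exact add_neg_cancel _

/-- the Knothe map of a density -/
theorem knothe {ρ : PS M} (hpos : ∀ x, 0 < ρ.1 x) (hmean : Av p (Av q ρ) = 1) :
    ∃ a b : PS M, dd q a = 0 ∧ (∀ x, 0 < 1 + (dd p a).1 x) ∧ (∀ x, 0 < 1 + (dd q b).1 x) ∧
      J p q a b = ρ ∧ ∀ (j : Fin (M + 1)) (c : ℝ), p ≠ j → q ≠ j → sl j c ρ = 1 →
        sl j c a = 0 ∧ sl j c b = 0 := by
  have h1pos := Av_pos hpos q
  have h1ne : ∀ x, (Av q ρ).1 x ≠ 0 := fun x => (h1pos x).ne'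
  set r := inv' (Av q ρ) h1ne with hr
  have hr1 : Av q ρ * r = 1 := mul_inv' _ _
  have hrq : dd q r = 0 := dd_inv' _ _ (dd_Av_self q ρ)
  have hap : dd p (Vv p (Av q ρ)) = Av q ρ - 1 := by rw [dd_Vv_self, hmean]
  have haq : dd q (Vv p (Av q ρ)) = 0 := by rw [dd_Vv, dd_Av_self, Vv_zero]
  have hbq : dd q (Vv q (ρ * r)) = ρ * r - 1 := by rw [dd_Vv_self, Av_mul ρ hrq, hr1]
  refine ⟨Vv p (Av q ρ), Vv q (ρ * r), haq, fun x => ?_, fun x => ?_, ?_, ?_⟩
  · rw [hap, sub_val, one_val]
    have := h1pos x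
    linarith
  · rw [hbq, sub_val, one_val, mul_val, hr, inv'_val]
    have h2 := mul_pos (hpos x) (inv_pos.2 (h1pos x))
    linarith
  · unfold J
    rw [hap, haq, hbq]
    linear_combination ρ * hr1
  · intro j c hpj hqj h
    have h3 : sl j c (Av q ρ) = 1 := by rw [sl_Av hqj, h, Av_one]
    have h4 : sl j c r = 1 := by
      have := congrArg (sl j c) hr1
      rw [sl_mul, h3, one_mul, sl_one] at this
      exact this
    constructor
    · rw [sl_Vv hpj, h3, Vv_one]
    · rw [sl_Vv hqj, sl_mul, h, h4, one_mul, Vv_one]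

/-! ### Real and imaginary parts -/

theorem dz_re_im {f : E M → ℂ} (hf : SP f) (x : E M) :
    dz p q f x = ((((dd p (reP hf)).1 x + (dd q (imP hf)).1 x) / 2 : ℝ) : ℂ) +
      Complex.I * ((((dd p (imP hf)).1 x - (dd q (reP hf)).1 x) / 2 : ℝ) : ℂ) := by
  have h : f = fun x => cc (reP hf) x + Complex.I * cc (imP hf) x := by
    funext y
    unfold cc
    simp only [reP_val, imP_val]
    rw [mul_comm]
    exact (Complex.re_add_im (f y)).symm
  have hp : ∀ i, pd i f x = ((dd i (reP hf)).1 x : ℂ) + Complex.I * ((dd i (imP hf)).1 x : ℂ) := by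
    intro i
    have e1 : pd i (cc (reP hf)) x = ((dd i (reP hf)).1 x : ℂ) :=
      (congrFun (cc_dd i (reP hf)) x).symm
    have e2 : pd i (cc (imP hf)) x = ((dd i (imP hf)).1 x : ℂ) :=
      (congrFun (cc_dd i (imP hf)) x).symm
    have e3 : pd i f x = pd i (fun x => cc (reP hf) x + Complex.I * cc (imP hf) x) x := by
      conv_lhs => rw [h]
    rw [e3, pd_add (reP hf).sp.diff ((imP hf).sp.cmul Complex.I).diff, e1,
      pd_mul (differentiable_const _) (imP hf).sp.diff, pd_const, e2]
    ring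
  unfold dz
  rw [hp, hp]
  push_cast
  linear_combination (-1 / 2 : ℂ) * ((dd q (imP hf)).1 x : ℂ) * Complex.I_sq

theorem dzb_re_im {f : E M → ℂ} (hf : SP f) (x : E M) :
    dzb p q f x = ((((dd p (reP hf)).1 x - (dd q (imP hf)).1 x) / 2 : ℝ) : ℂ) +
      Complex.I * ((((dd p (imP hf)).1 x + (dd q (reP hf)).1 x) / 2 : ℝ) : ℂ) := by
  have h : f = fun x => cc (reP hf) x + Complex.I * cc (imP hf) x := by
    funext y
    unfold cc
    simp only [reP_val, imP_val]
    rw [mul_comm]
    exact (Complex.re_add_im (f y)).symm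
  have hp : ∀ i, pd i f x = ((dd i (reP hf)).1 x : ℂ) + Complex.I * ((dd i (imP hf)).1 x : ℂ) := by
    intro i
    have e1 : pd i (cc (reP hf)) x = ((dd i (reP hf)).1 x : ℂ) :=
      (congrFun (cc_dd i (reP hf)) x).symm
    have e2 : pd i (cc (imP hf)) x = ((dd i (imP hf)).1 x : ℂ) :=
      (congrFun (cc_dd i (imP hf)) x).symm
    have e3 : pd i f x = pd i (fun x => cc (reP hf) x + Complex.I * cc (imP hf) x) x := by
      conv_lhs => rw [h]
    rw [e3, pd_add (reP hf).sp.diff ((imP hf).sp.cmul Complex.I).diff, e1,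
      pd_mul (differentiable_const _) (imP hf).sp.diff, pd_const, e2]
    ring
  unfold dzb
  rw [hp, hp]
  push_cast
  linear_combination (1 / 2 : ℂ) * ((dd q (imP hf)).1 x : ℂ) * Complex.I_sq

/-- the Jacobian in complex notation -/
theorem J_re_im {f : E M → ℂ} (hf : SP f) (x : E M) :
    (((J p q (reP hf) (imP hf)).1 x : ℝ) : ℂ) =
      (1 + dz p q f x) * (starRingEnd ℂ) (1 + dz p q f x) -
        dzb p q f x * (starRingEnd ℂ) (dzb p q f x) := by
  rw [dz_re_im hf, dzb_re_im hf]
  unfold J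
  simp only [sub_val, mul_val, add_val, one_val, map_add, map_mul, map_one, Complex.conj_ofReal,
    Complex.conj_I]
  set A := (dd p (reP hf)).1 x
  set B := (dd q (reP hf)).1 x
  set C := (dd p (imP hf)).1 x
  set D := (dd q (imP hf)).1 x
  push_cast
  linear_combination ((C - B) ^ 2 / 4 - (C + B) ^ 2 / 4 : ℂ) * Complex.I_sq

end PS

end Pool.Agent.Helper597_fou
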