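import Pool.Agent.Helper597_fou.EE

/-!
# The deformation of families of area preserving maps
-/

set_option autoImplicit false
set_option linter.unusedSectionVars false

open MeasureTheory Set Filter Topology
open scoped ContDiff

noncomputable section

namespace Pool.Agent.Helper597_fou

variable {M : ℕ}

/-- a continuous periodic function with values of norm less than one is bounded away from one -/
theorem exists_kappa {f : E M → ℂ} (hf : SP f) (h : ∀ x, ‖f x‖ < 1) :
    ∃ κ < 1, ∀ x, ‖f x‖ ≤ κ := by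
  have hc : IsCompact (cube M) := isCompact_Icc
  have hne : (cube M).Nonempty := ⟨0, by
    constructor
    · exact le_refl _
    · intro i; simp⟩
  obtain ⟨y, -, hy⟩ := hc.exists_isMaxOn hne hf.cont.norm.continuousOn
  refine ⟨‖f y‖, h y, fun x => ?_⟩
  obtain ⟨k, hk⟩ := Helper597_torsymp.exists_frac x
  rw [← hf.per x k]
  exact hy hk

namespace PS

variable {p q : Fin (M + 1)}

/-- the function `sin² (π x_j)` -/
def s2 (j : Fin (M + 1)) : PS M :=
  ⟨fun x => Real.sin (Real.pi * x j) ^ 2,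
    (Real.contDiff_sin.comp (contDiff_const.mul (contDiff_apply ℝ ℝ j))).pow 2, fun x k => by
      simp only [Pi.add_apply, il]
      rw [mul_add, mul_comm Real.pi (k j : ℝ)]
      have h := Real.sin_add_int_mul_pi (Real.pi * x j) (k j)
      rw [h]
      rw [mul_pow]
      have h2 : ((-1 : ℝ) ^ (k j)) ^ 2 = 1 := by
        rw [← zpow_natCast, ← zpow_mul, mul_comm, zpow_mul]
        norm_num
      rw [h2, one_mul]⟩

theorem s2_val (j : Fin (M + 1)) (x : E M) : (s2 j).1 x = Real.sin (Real.pi * x j) ^ 2 := rfl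

theorem sl_s2_zero (j : Fin (M + 1)) : sl j 0 (s2 j) = (0 : PS M) :=
  ext' fun x => by
    rw [sl_val, s2_val, rs_self]
    simp

theorem sl_s2_half (j : Fin (M + 1)) : sl j (1 / 2) (s2 j) = (1 : PS M) :=
  ext' fun x => by
    rw [sl_val, s2_val, rs_self, show Real.pi * (1 / 2) = Real.pi / 2 by ring, Real.sin_pi_div_two]
    simp

theorem dd_s2 {i j : Fin (M + 1)} (hij : i ≠ j) : dd i (s2 j) = (0 : PS M) := by
  refine ext' fun x => ?_
  rw [dd_val]
  unfold pd
  have h1 : HasFDerivAt (fun x : E M => x j)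
      (ContinuousLinearMap.proj (R := ℝ) (φ := fun _ : Fin (M + 1) => ℝ) j) x :=
    (ContinuousLinearMap.proj (R := ℝ) (φ := fun _ : Fin (M + 1) => ℝ) j).hasFDerivAt
  have h2 := ((h1.const_mul Real.pi).sin).pow 2
  have h3 : HasFDerivAt (s2 j).1 _ x := h2
  rw [h3.fderiv]
  simp [Ne.symm hij]

/-- complex combination -/
theorem sp_cx (f g : PS M) : SP (fun x => cc f x + Complex.I * cc g x) :=
  f.sp.add (g.sp.cmul Complex.I)

theorem reP_cx (f g : PS M) : reP (sp_cx f g) = f := ext' fun x => by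
  rw [reP_val]
  simp [cc]

theorem imP_cx (f g : PS M) : imP (sp_cx f g) = g := ext' fun x => by
  rw [imP_val]
  simp [cc]

theorem J_congr {a b a' b' : PS M} (h1 : dd p a = dd p a') (h2 : dd q a = dd q a')
    (h3 : dd p b = dd p b') (h4 : dd q b = dd q b') : J p q a b = J p q a' b' := by
  unfold J
  rw [h1, h2, h3, h4]

/-- the real partial derivatives from the complex ones -/
theorem dd_of_dz {f g : E M → ℂ} (hf : SP f) (hg : SP g) (h1 : ∀ x, dz p q f x = dz p q g x)
    (h2 : ∀ x, dzb p q f x = dzb p q g x) :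
    dd p (reP hf) = dd p (reP hg) ∧ dd q (reP hf) = dd q (reP hg) ∧
      dd p (imP hf) = dd p (imP hg) ∧ dd q (imP hf) = dd q (imP hg) := by
  have key : ∀ x, (dd p (reP hf)).1 x = (dd p (reP hg)).1 x ∧
      (dd q (reP hf)).1 x = (dd q (reP hg)).1 x ∧
      (dd p (imP hf)).1 x = (dd p (imP hg)).1 x ∧ (dd q (imP hf)).1 x = (dd q (imP hg)).1 x := by
    intro x
    have e1 := h1 x
    have e2 := h2 x
    rw [dz_re_im hf, dz_re_im hg] at e1
    rw [dzb_re_im hf, dzb_re_im hg] at e2
    have r1 := congrArg Complex.re e1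
    have i1 := congrArg Complex.im e1
    have r2 := congrArg Complex.re e2
    have i2 := congrArg Complex.im e2
    simp only [Complex.add_re, Complex.add_im, Complex.mul_re, Complex.mul_im, Complex.I_re,
      Complex.I_im, Complex.ofReal_re, Complex.ofReal_im] at r1 i1 r2 i2
    refine ⟨by linarith, by linarith, by linarith, by linarith⟩
  exact ⟨ext' fun x => (key x).1, ext' fun x => (key x).2.1, ext' fun x => (key x).2.2.1,
    ext' fun x => (key x).2.2.2⟩

/-- **The deformation theorem**. Let `φ₁, φ₂` be functions of the variables other than `x_j` such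
that `(x_p, x_q) ↦ (x_p + φ₁, x_q + φ₂)` is area preserving. There is a family of area preserving
maps with parameter `x_j` which are translations for `x_j = 0`, and which agree with the given
one up to translations for `x_j = 1/2`. All maps depend on the other variables as well. -/
theorem deformation {j : Fin (M + 1)} (hpq : p ≠ q) (hp : p ≠ j) (hq : q ≠ j) {φ₁ φ₂ : PS M}
    (h1 : dd j φ₁ = 0) (h2 : dd j φ₂ = 0) (hJ : J p q φ₁ φ₂ = 1) :
    ∃ Φ₁ Φ₂ : PS M, J p q Φ₁ Φ₂ = 1 ∧
      (dd p (sl j 0 Φ₁) = 0 ∧ dd q (sl j 0 Φ₁) = 0 ∧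
        dd p (sl j 0 Φ₂) = 0 ∧ dd q (sl j 0 Φ₂) = 0) ∧
      (dd p (sl j (1 / 2) Φ₁) = dd p φ₁ ∧ dd q (sl j (1 / 2) Φ₁) = dd q φ₁ ∧
        dd p (sl j (1 / 2) Φ₂) = dd p φ₂ ∧ dd q (sl j (1 / 2) Φ₂) = dd q φ₂) := by
  set φ : E M → ℂ := fun x => cc φ₁ x + Complex.I * cc φ₂ x with hφdef
  have hφ : SP φ := sp_cx φ₁ φ₂
  have hre : reP hφ = φ₁ := reP_cx φ₁ φ₂
  have him : imP hφ = φ₂ := imP_cx φ₁ φ₂
  have hjac : ∀ x, ‖1 + dz p q φ x‖ ^ 2 - ‖dzb p q φ x‖ ^ 2 = 1 := by
    intro x
    have h := J_re_im (p := p) (q := q) hφ x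
    rw [hre, him, hJ, one_val, Complex.mul_conj, Complex.mul_conj, Complex.normSq_eq_norm_sq,
      Complex.normSq_eq_norm_sq] at h
    exact_mod_cast h.symm
  have hne : ∀ x, 1 + dz p q φ x ≠ 0 := by
    intro x h
    have := hjac x
    rw [h, norm_zero] at this
    have h3 := sq_nonneg ‖dzb p q φ x‖
    nlinarith
  have hden : SP (fun x => 1 + dz p q φ x) := (SP.const 1).add hφ.dz
  set μf : E M → ℂ := fun x => dzb p q φ x * (1 + dz p q φ x)⁻¹ with hμf
  have hμfs : SP μf := hφ.dzb.mul (hden.inv hne)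
  have hμf1 : ∀ x, ‖μf x‖ < 1 := by
    intro x
    rw [hμf]
    simp only
    rw [norm_mul, norm_inv, ← div_eq_mul_inv, div_lt_one (norm_pos_iff.2 (hne x))]
    have := hjac x
    have h3 := norm_nonneg (1 + dz p q φ x)
    have h4 := norm_nonneg (dzb p q φ x)
    nlinarith
  obtain ⟨κ, hκ1, hκ⟩ := exists_kappa hμfs hμf1
  have hκ0 : 0 ≤ κ := (norm_nonneg _).trans (hκ 0)
  set μ : E M → ℂ := fun x => cc (s2 j) x * μf x with hμdef
  have hμ : SP μ := (s2 j).sp.mul hμfs
  have hμκ : ∀ x, ‖μ x‖ ≤ κ := by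
    intro x
    rw [hμdef]
    simp only
    rw [norm_mul]
    have h3 : ‖cc (s2 j) x‖ ≤ 1 := by
      unfold cc
      rw [Complex.norm_real, Real.norm_eq_abs, s2_val, abs_of_nonneg (sq_nonneg _)]
      exact Real.sin_sq_le_one _
    have h4 := hκ x
    have h5 := norm_nonneg (cc (s2 j) x)
    have h6 := norm_nonneg (μf x)
    nlinarith
  have hψ : SP (psiB p q μ) := sp_psiB hμ hμκ hκ1
  set ψ₁ := reP hψ with hψ₁
  set ψ₂ := imP hψ with hψ₂
  set ρ := J p q ψ₁ ψ₂ with hρ
  have hccρ : cc ρ = fun x => jacB p q μ x * (detB p q μ x)⁻¹ := by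
    funext x
    have h := J_re_im (p := p) (q := q) hψ x
    rw [jac_psiB hμ hμκ hκ1] at h
    exact h
  have hρpos : ∀ x, 0 < ρ.1 x := by
    intro x
    have h := congrFun hccρ x
    have h3 : ((ρ.1 x : ℝ) : ℂ) = jacB p q μ x * (detB p q μ x)⁻¹ := h
    have e1 : jacB p q μ x = ((jacB p q μ x).re : ℂ) :=
      (Complex.conj_eq_iff_re.1 (jacB_conj x)).symm
    have e2 : detB p q μ x = ((detB p q μ x).re : ℂ) :=
      (Complex.conj_eq_iff_re.1 (detB_conj x)).symm
    rw [e1, e2] at h3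
    have h4 : ρ.1 x = (jacB p q μ x).re * ((detB p q μ x).re)⁻¹ := by exact_mod_cast h3
    rw [h4]
    exact mul_pos (jacB_re_pos hμ hμκ hκ1 x) (inv_pos.2 (detB_re_pos hμ hμκ hκ1 x))
  have hmean : Av p (Av q ρ) = 1 := by
    apply cc_inj
    have e1 : cc (Av p (Av q ρ)) = Mul (mJ p) (Mul (mJ q) (cc ρ)) := by
      rw [Av, cc_mr, Av, cc_mr]
    rw [e1, ← Mul_m0 ρ.sp, hccρ, m0_jac_psiB hμ hμκ hκ1, cc_one]
  obtain ⟨a, b, haq, hap, hbq, hab, hsl⟩ := knothe hρpos hmean
  obtain ⟨a', b', ⟨hi1, hi2⟩, -⟩ := exists_inv hpq haq hap hbq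
  -- the slices
  have hslice : ∀ (c : ℝ) (f₁ f₂ : PS M), J p q f₁ f₂ = 1 →
      (∀ x, dzb p q (fun y => cc f₁ y + Complex.I * cc f₂ y) x =
        μ (rs j c x) * (1 + dz p q (fun y => cc f₁ y + Complex.I * cc f₂ y) x)) →
      dd p (sl j c (a' + cmp p q ψ₁ a' b')) = dd p f₁ ∧
      dd q (sl j c (a' + cmp p q ψ₁ a' b')) = dd q f₁ ∧
      dd p (sl j c (b' + cmp p q ψ₂ a' b')) = dd p f₂ ∧
      dd q (sl j c (b' + cmp p q ψ₂ a' b')) = dd q f₂ := by
    intro c f₁ f₂ hJf hf
    have hs := slice_psiB hμ hμκ hκ1 hp hq c (sp_cx f₁ f₂) hf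
    have hd := dd_of_dz (p := p) (q := q) (hψ.rs j c) (sp_cx f₁ f₂) (fun x => by
      rw [dz_rs hψ.diff hp hq]
      exact (hs x).1) (fun x => by
      rw [dzb_rs hψ.diff hp hq]
      exact (hs x).2)
    rw [reP_cx, imP_cx] at hd
    have er : reP (hψ.rs j c) = sl j c ψ₁ := rfl
    have ei : imP (hψ.rs j c) = sl j c ψ₂ := rfl
    rw [er, ei] at hd
    obtain ⟨d1, d2, d3, d4⟩ := hd
    have hρ1 : sl j c ρ = 1 := by
      rw [hρ, sl_J hp hq, J_congr d1 d2 d3 d4, hJf]
    obtain ⟨sa, sb⟩ := hsl j c hp hq hρ1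
    have sa' : sl j c a' = 0 := by
      have h := congrArg (sl j c) hi1
      rw [sl_add, sl_cmp hp hq, sa, cmp_zero, add_zero, sl_zero] at h
      exact h
    have sb' : sl j c b' = 0 := by
      have h := congrArg (sl j c) hi2
      rw [sl_add, sl_cmp hp hq, sb, cmp_zero, add_zero, sl_zero] at h
      exact h
    have s1 : sl j c (a' + cmp p q ψ₁ a' b') = sl j c ψ₁ := by
      rw [sl_add, sl_cmp hp hq, sa', sb', cmp_id, zero_add]
    have s2 : sl j c (b' + cmp p q ψ₂ a' b') = sl j c ψ₂ := by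
      rw [sl_add, sl_cmp hp hq, sa', sb', cmp_id, zero_add]
    rw [s1, s2]
    exact ⟨d1, d2, d3, d4⟩
  refine ⟨a' + cmp p q ψ₁ a' b', b' + cmp p q ψ₂ a' b', ?_, ?_, ?_⟩
  · have h3 := J_comp (p := p) (q := q) a b a' b'
    rw [hi1, hi2, J_zero] at h3
    rw [J_comp, ← hρ, ← hab]
    exact h3.symm
  · have h3 := hslice 0 0 0 J_zero (fun x => by
      have e1 : (fun y => cc (0 : PS M) y + Complex.I * cc (0 : PS M) y) = fun _ => 0 := by
        funext y
        simp [cc]
      have e2 : μ (rs j 0 x) = 0 := by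
        rw [hμdef]
        simp only
        unfold cc
        rw [s2_val, rs_self]
        simp
      rw [e1, e2, zero_mul]
      unfold dzb
      rw [pd_const, pd_const]
      simp)
    simp only [dd_zero] at h3
    exact h3
  · refine hslice (1 / 2) φ₁ φ₂ hJ fun x => ?_
    have e2 : μ (rs j (1 / 2) x) = μf x := by
      have e3 : cc (s2 j) (rs j (1 / 2) x) = 1 := by
        unfold cc
        rw [s2_val, rs_self, show Real.pi * (1 / 2) = Real.pi / 2 by ring, Real.sin_pi_div_two]
        simp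
      have e4 : μf (rs j (1 / 2) x) = μf x := by
        have hz1 : ∀ y, pd j φ y = 0 := by
          intro y
          have f1 : pd j (cc φ₁) y = 0 := by
            rw [← cc_dd, h1]
            simp [cc]
          have f2 : pd j (cc φ₂) y = 0 := by
            rw [← cc_dd, h2]
            simp [cc]
          rw [hφdef, pd_add φ₁.sp.diff (φ₂.sp.cmul Complex.I).diff,
            pd_mul (differentiable_const _) φ₂.sp.diff, pd_const, f1, f2]
          simp
        have hφr : (fun y => φ (rs j (1 / 2) y)) = φ := by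
          funext y
          exact const_of_pd hφ.diff hz1 y _
        have g1 : ∀ y, dz p q φ (rs j (1 / 2) y) = dz p q φ y := by
          intro y
          have := dz_rs hφ.diff hp hq (1 / 2) y
          rw [hφr] at this
          exact this.symm
        have g2 : ∀ y, dzb p q φ (rs j (1 / 2) y) = dzb p q φ y := by
          intro y
          have := dzb_rs hφ.diff hp hq (1 / 2) y
          rw [hφr] at this
          exact this.symm
        rw [hμf]
        simp only
        rw [g1, g2]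
      rw [hμdef]
      simp only
      rw [e3, e4, one_mul]
    rw [e2, hμf]
    simp only
    have h3 : 1 + dz p q (fun y => cc φ₁ y + Complex.I * cc φ₂ y) x ≠ 0 := hne x
    rw [← hφdef] at h3 ⊢
    field_simp

end PS

end Pool.Agent.Helper597_fou
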