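import Pool.Agent.Helper597_fou.EE2

/-!
# The momentum components

Given a family `z + (f, g)` of area preserving maps of the plane torus `x_p, x_q`, with parameters
`x_k`, we construct the functions `lam k` which make the map
`(x_k, y_k, z) ↦ (x_k, y_k + lam k, z + (f, g))` symplectic.
-/

set_option autoImplicit false
set_option linter.unusedSectionVars false

open MeasureTheory Set Filter Topology
open scoped ContDiff

noncomputable section

namespace Pool.Agent.Helper597_fou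

variable {M : ℕ}

namespace PS

variable {p q : Fin (M + 1)}

theorem add_self_eq_zero' {f : PS M} (h : f + f = 0) : f = 0 := by
  refine ext' fun x => ?_
  have h1 : (f + f).1 x = (0 : PS M).1 x := by rw [h]
  rw [add_val, zero_val] at h1
  rw [zero_val]
  linarith

/-- the mean value in the plane -/
def P0 (p q : Fin (M + 1)) (f : PS M) : PS M := Av p (Av q f)

theorem P0_add (f g : PS M) : P0 p q (f + g) = P0 p q f + P0 p q g := by simp [P0]
theorem P0_sub (f g : PS M) : P0 p q (f - g) = P0 p q f - P0 p q g := by simp [P0]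
@[simp] theorem P0_zero : P0 p q (0 : PS M) = 0 := by simp [P0]
theorem P0_neg (f : PS M) : P0 p q (-f) = -P0 p q f := by
  rw [← zero_sub, P0_sub, P0_zero, zero_sub]

@[simp] theorem P0_dd_p (f : PS M) : P0 p q (dd p f) = 0 := by
  rw [P0, Av_comm, Av_dd_self, Av_zero]

@[simp] theorem P0_dd_q (f : PS M) : P0 p q (dd q f) = 0 := by
  rw [P0, Av_dd_self, Av_zero]

theorem dd_P0 (i : Fin (M + 1)) (f : PS M) : dd i (P0 p q f) = P0 p q (dd i f) := by
  rw [P0, dd_Av, dd_Av, P0]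

@[simp] theorem dd_p_P0 (f : PS M) : dd p (P0 p q f) = 0 := by rw [dd_P0, P0_dd_p]
@[simp] theorem dd_q_P0 (f : PS M) : dd q (P0 p q f) = 0 := by rw [dd_P0, P0_dd_q]

theorem P0_of_dd {f : PS M} (h1 : dd p f = 0) (h2 : dd q f = 0) : P0 p q f = f := by
  rw [P0, Av_of_dd h2, Av_of_dd h1]

@[simp] theorem P0_P0 (f : PS M) : P0 p q (P0 p q f) = P0 p q f :=
  P0_of_dd (dd_p_P0 f) (dd_q_P0 f)

theorem P0_mul (f : PS M) {g : PS M} (h1 : dd p g = 0) (h2 : dd q g = 0) :
    P0 p q (f * g) = P0 p q f * g := by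
  rw [P0, Av_mul f h2, Av_mul _ h1, P0]

theorem sl_P0 {j : Fin (M + 1)} (hp : p ≠ j) (hq : q ≠ j) (c : ℝ) (f : PS M) :
    sl j c (P0 p q f) = P0 p q (sl j c f) := by
  rw [P0, sl_Av hp, sl_Av hq, P0]

@[simp] theorem P0_Vv_p (f : PS M) : P0 p q (Vv p f) = 0 := by
  rw [P0, Av_comm, Av_Vv_self, Av_zero]

@[simp] theorem P0_Vv_q (f : PS M) : P0 p q (Vv q f) = 0 := by
  rw [P0, Av_Vv_self, Av_zero]

/-! ### mean values for area preserving maps -/

theorem mean_n1 {f g : PS M} (h : J p q f g = 1) : P0 p q (g * dd p f) = 0 := by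
  apply add_self_eq_zero'
  rw [← P0_add]
  have e : g * dd p f + g * dd p f = -dd q (g * g) - dd p (f * dd q (g * g)) +
      dd q (f * dd p (g * g)) := by
    unfold J at h
    simp only [dd_mul, dd_add, dd_comm q p]
    linear_combination 2 * g * h
  rw [e, P0_add, P0_sub, P0_neg, P0_dd_q, P0_dd_p, P0_dd_q]
  ring

theorem mean_n2 {f g : PS M} (h : J p q f g = 1) : P0 p q (f * dd q g) = 0 := by
  apply add_self_eq_zero'
  rw [← P0_add]
  have e : f * dd q g + f * dd q g = -dd p (f * f) - dd q (g * dd p (f * f)) +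
      dd p (g * dd q (f * f)) := by
    unfold J at h
    simp only [dd_mul, dd_add, dd_comm q p]
    linear_combination 2 * f * h
  rw [e, P0_add, P0_sub, P0_neg, P0_dd_p, P0_dd_q, P0_dd_p]
  ring

/-- the derivative of the momentum in the direction `p` -/
def th1 (p : Fin (M + 1)) (k : Fin (M + 1)) (f g : PS M) : PS M :=
  dd k g * (1 + dd p f) - dd k f * dd p g

/-- the derivative of the momentum in the direction `q` -/
def th2 (q : Fin (M + 1)) (k : Fin (M + 1)) (f g : PS M) : PS M :=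
  dd k g * dd q f - dd k f * (1 + dd q g)

theorem P0_th1 {f g : PS M} (h : J p q f g = 1) (k : Fin (M + 1)) :
    P0 p q (th1 p k f g) = dd k (P0 p q g) := by
  have e : th1 p k f g = dd k g + dd k (g * dd p f) - dd p (dd k f * g) := by
    unfold th1
    simp only [dd_mul, dd_comm k p]
    ring
  rw [e, P0_sub, P0_add, P0_dd_p, ← dd_P0, ← dd_P0, mean_n1 h]
  simp

theorem P0_th2 {f g : PS M} (h : J p q f g = 1) (k : Fin (M + 1)) :
    P0 p q (th2 q k f g) = -dd k (P0 p q f) := by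
  have e : th2 q k f g = -dd k f + (dd q (dd k g * f) - dd k (f * dd q g)) := by
    unfold th2
    simp only [dd_mul, dd_comm k q]
    ring
  rw [e, P0_add, P0_sub, P0_neg, P0_dd_q, ← dd_P0, ← dd_P0, mean_n2 h]
  simp

theorem th_closed {f g : PS M} (h : J p q f g = 1) (k : Fin (M + 1)) :
    dd q (th1 p k f g) = dd p (th2 q k f g) := by
  have e := congrArg (dd k) h
  unfold J at e
  unfold th1 th2
  simp only [dd_mul, dd_add, dd_sub, dd_one, dd_comm q p, dd_comm k p, dd_comm k q] at e ⊢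
  linear_combination e

/-- the momentum -/
def lam (p q : Fin (M + 1)) (k : Fin (M + 1)) (f g : PS M) : PS M :=
  Vv p (th1 p k f g) + Vv q (Av p (th2 q k f g)) + P0 p q (f * dd k g)

theorem dd_p_lam {f g : PS M} (h : J p q f g = 1) {k : Fin (M + 1)}
    (hg : dd k (P0 p q g) = 0) : dd p (lam p q k f g) = th1 p k f g := by
  have h1 : Av p (th1 p k f g) = 0 := by
    have h2 : dd q (Av p (th1 p k f g)) = 0 := by
      rw [dd_Av, th_closed h, Av_dd_self]
    have h3 := P0_th1 h k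
    rw [hg, P0, Av_comm, Av_of_dd h2] at h3
    exact h3
  unfold lam
  rw [dd_add, dd_add, dd_Vv_self, h1, dd_Vv, dd_Av_self, Vv_zero, dd_p_P0]
  ring

theorem dd_q_lam {f g : PS M} (h : J p q f g = 1) {k : Fin (M + 1)}
    (hf : dd k (P0 p q f) = 0) : dd q (lam p q k f g) = th2 q k f g := by
  have h1 : Av q (Av p (th2 q k f g)) = 0 := by
    have h3 := P0_th2 h k
    rw [hf, neg_zero, P0, Av_comm] at h3
    exact h3
  unfold lam
  rw [dd_add, dd_add, dd_Vv, th_closed h, Vv_dd_self, dd_Vv_self, h1, dd_q_P0]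
  ring

theorem P0_lam (k : Fin (M + 1)) (f g : PS M) :
    P0 p q (lam p q k f g) = P0 p q (f * dd k g) := by
  unfold lam
  rw [P0_add, P0_add, P0_Vv_p, P0_Vv_q, P0_P0]
  ring

theorem lam_closed {f g : PS M} (h : J p q f g = 1) {k l : Fin (M + 1)}
    (hfk : dd k (P0 p q f) = 0) (hgk : dd k (P0 p q g) = 0)
    (hfl : dd l (P0 p q f) = 0) (hgl : dd l (P0 p q g) = 0) :
    dd l (lam p q k f g) - dd k (lam p q l f g) + dd k f * dd l g - dd k g * dd l f = 0 := by
  set Om := dd l (lam p q k f g) - dd k (lam p q l f g) + dd k f * dd l g - dd k g * dd l f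
    with hOm
  have h1 : dd p Om = 0 := by
    rw [hOm]
    simp only [dd_sub, dd_add, dd_mul]
    rw [dd_comm p l (lam p q k f g), dd_comm p k (lam p q l f g), dd_p_lam h hgk, dd_p_lam h hgl]
    unfold th1
    simp only [dd_mul, dd_add, dd_sub, dd_one, dd_comm l p, dd_comm k p, dd_comm l k]
    ring
  have h2 : dd q Om = 0 := by
    rw [hOm]
    simp only [dd_sub, dd_add, dd_mul]
    rw [dd_comm q l (lam p q k f g), dd_comm q k (lam p q l f g), dd_q_lam h hfk, dd_q_lam h hfl]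
    unfold th2
    simp only [dd_mul, dd_add, dd_sub, dd_one, dd_comm l q, dd_comm k q, dd_comm l k]
    ring
  rw [← P0_of_dd h1 h2, hOm]
  have e : dd l (lam p q k f g) - dd k (lam p q l f g) + dd k f * dd l g - dd k g * dd l f =
      dd l (lam p q k f g) - dd k (lam p q l f g) + (dd k (f * dd l g) - dd l (f * dd k g)) := by
    simp only [dd_mul, dd_comm l k]
    ring
  rw [e, P0_add, P0_sub, P0_sub, ← dd_P0, ← dd_P0, ← dd_P0, ← dd_P0, P0_lam, P0_lam]
  ring

theorem sl_lam {j : Fin (M + 1)} (hp : p ≠ j) (hq : q ≠ j) {k : Fin (M + 1)} (hk : k ≠ j) (c : ℝ)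
    (f g : PS M) : sl j c (lam p q k f g) = lam p q k (sl j c f) (sl j c g) := by
  unfold lam th1 th2
  simp only [sl_add, sl_sub, sl_mul, sl_one, sl_Vv hp, sl_Vv hq, sl_Av hp, sl_P0 hp hq, dd_sl hk,
    dd_sl hp, dd_sl hq]

theorem dd_lam {i k : Fin (M + 1)} {f g : PS M} (hf : dd i f = 0) (hg : dd i g = 0) :
    dd i (lam p q k f g) = 0 := by
  unfold lam th1 th2
  simp only [dd_add, dd_Vv, dd_Av, dd_P0, dd_mul, dd_sub, dd_one, dd_comm i k, dd_comm i p,
    dd_comm i q, hf, hg, dd_zero, mul_zero, zero_mul, add_zero, sub_zero, Vv_zero, Av_zero, P0_zero]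

theorem lam_zero (k : Fin (M + 1)) : lam p q k (0 : PS M) 0 = 0 := by
  unfold lam th1 th2
  simp

/-! ### The deformation, with independence of further variables -/

theorem sl_comm {i j : Fin (M + 1)} (hij : i ≠ j) (c d : ℝ) (f : PS M) :
    sl i c (sl j d f) = sl j d (sl i c f) := by
  refine ext' fun x => ?_
  simp only [sl_val]
  refine congrArg f.1 ?_
  funext l
  by_cases h1 : l = i
  · subst h1
    simp [rs, hij]
  · by_cases h2 : l = j
    · subst h2
      simp [rs, h1]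
    · simp [rs, h1, h2]

theorem deformation' {j : Fin (M + 1)} (hpq : p ≠ q) (hp : p ≠ j) (hq : q ≠ j) {φ₁ φ₂ : PS M}
    (h1 : dd j φ₁ = 0) (h2 : dd j φ₂ = 0) (hJ : J p q φ₁ φ₂ = 1) (Z : Finset (Fin (M + 1)))
    (hpZ : p ∉ Z) (hqZ : q ∉ Z) (hjZ : j ∉ Z) (hZ1 : ∀ i ∈ Z, dd i φ₁ = 0)
    (hZ2 : ∀ i ∈ Z, dd i φ₂ = 0) :
    ∃ Φ₁ Φ₂ : PS M, J p q Φ₁ Φ₂ = 1 ∧
      (dd p (sl j 0 Φ₁) = 0 ∧ dd q (sl j 0 Φ₁) = 0 ∧
        dd p (sl j 0 Φ₂) = 0 ∧ dd q (sl j 0 Φ₂) = 0) ∧
      (dd p (sl j (1 / 2) Φ₁) = dd p φ₁ ∧ dd q (sl j (1 / 2) Φ₁) = dd q φ₁ ∧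
        dd p (sl j (1 / 2) Φ₂) = dd p φ₂ ∧ dd q (sl j (1 / 2) Φ₂) = dd q φ₂) ∧
      ∀ i ∈ Z, dd i Φ₁ = 0 ∧ dd i Φ₂ = 0 := by
  induction Z using Finset.induction_on with
  | empty =>
    obtain ⟨Φ₁, Φ₂, a1, a2, a3⟩ := deformation hpq hp hq h1 h2 hJ
    exact ⟨Φ₁, Φ₂, a1, a2, a3, fun i hi => absurd hi (Finset.notMem_empty i)⟩
  | insert i Z hi ih =>
    have hpi : p ≠ i := fun h => hpZ (by rw [h]; exact Finset.mem_insert_self _ _)
    have hqi : q ≠ i := fun h => hqZ (by rw [h]; exact Finset.mem_insert_self _ _)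
    have hji : j ≠ i := fun h => hjZ (by rw [h]; exact Finset.mem_insert_self _ _)
    obtain ⟨Φ₁, Φ₂, a1, ⟨b1, b2, b3, b4⟩, ⟨c1, c2, c3, c4⟩, a4⟩ := ih
      (fun h => hpZ (Finset.mem_insert_of_mem h)) (fun h => hqZ (Finset.mem_insert_of_mem h))
      (fun h => hjZ (Finset.mem_insert_of_mem h))
      (fun l hl => hZ1 l (Finset.mem_insert_of_mem hl))
      (fun l hl => hZ2 l (Finset.mem_insert_of_mem hl))
    have hi1 := hZ1 i (Finset.mem_insert_self _ _)
    have hi2 := hZ2 i (Finset.mem_insert_self _ _)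
    have d1 : ∀ l, dd l φ₁ = sl i 0 (dd l φ₁) := fun l =>
      (sl_of_dd 0 (by rw [dd_comm, hi1, dd_zero])).symm
    have d2 : ∀ l, dd l φ₂ = sl i 0 (dd l φ₂) := fun l =>
      (sl_of_dd 0 (by rw [dd_comm, hi2, dd_zero])).symm
    refine ⟨sl i 0 Φ₁, sl i 0 Φ₂, ?_, ⟨?_, ?_, ?_, ?_⟩, ⟨?_, ?_, ?_, ?_⟩, ?_⟩
    · rw [← sl_J hpi hqi, a1, sl_one]
    · rw [sl_comm hji, dd_sl hpi, b1, sl_zero]
    · rw [sl_comm hji, dd_sl hqi, b2, sl_zero]
    · rw [sl_comm hji, dd_sl hpi, b3, sl_zero]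
    · rw [sl_comm hji, dd_sl hqi, b4, sl_zero]
    · rw [sl_comm hji, dd_sl hpi, c1, ← d1]
    · rw [sl_comm hji, dd_sl hqi, c2, ← d1]
    · rw [sl_comm hji, dd_sl hpi, c3, ← d2]
    · rw [sl_comm hji, dd_sl hqi, c4, ← d2]
    · intro l hl
      rw [Finset.mem_insert] at hl
      by_cases hli : l = i
      · subst hli
        exact ⟨dd_sl_self _ _ _, dd_sl_self _ _ _⟩
      · have hlZ : l ∈ Z := hl.resolve_left hli
        rw [dd_sl hli, dd_sl hli, (a4 l hlZ).1, (a4 l hlZ).2]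
        exact ⟨sl_zero _ _, sl_zero _ _⟩

end PS

end Pool.Agent.Helper597_fou
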