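import Pool.Agent.Helper597_fou.Bel

/-!
# The Beurling transform in two of the variables

`∂_z`, `∂_z̄` for `z = x_p + i x_q`, and the identity which makes the logarithmic Beltrami equation
`τ = ∂_z μ + μ S τ` solvable in the form `τ = ∂_z̄ σ`.
-/

set_option autoImplicit false

open MeasureTheory Set Filter Topology
open scoped ContDiff

noncomputable section

namespace Pool.Agent.Helper597_fou

variable {M : ℕ}

/-! ### More on multipliers -/

theorem mul_cmul (m : K M → ℂ) (c : ℂ) (f : E M → ℂ) :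
    Mul m (fun x => c * f x) = fun x => c * Mul m f x := by
  funext x
  unfold Mul S
  rw [← tsum_mul_left]
  refine tsum_congr fun k => ?_
  simp only [fc_cmul]
  ring

theorem mul_add' {m : K M → ℂ} (hm : Tame m) {f g : E M → ℂ} (hf : SP f) (hg : SP g) :
    Mul m (fun x => f x + g x) = fun x => Mul m f x + Mul m g x := by
  refine (hm.sp (hf.add hg)).ext_fc ((hm.sp hf).add (hm.sp hg)) fun k => ?_
  rw [hm.fc (hf.add hg), fc_add hf hg, fc_add (hm.sp hf) (hm.sp hg), hm.fc hf, hm.fc hg]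
  ring

theorem mul_sub' {m : K M → ℂ} (hm : Tame m) {f g : E M → ℂ} (hf : SP f) (hg : SP g) :
    Mul m (fun x => f x - g x) = fun x => Mul m f x - Mul m g x := by
  refine (hm.sp (hf.sub hg)).ext_fc ((hm.sp hf).sub (hm.sp hg)) fun k => ?_
  rw [hm.fc (hf.sub hg), fc_sub hf hg, fc_sub (hm.sp hf) (hm.sp hg), hm.fc hf, hm.fc hg]
  ring

theorem mul_zero' (m : K M → ℂ) : Mul m (fun _ : E M => (0 : ℂ)) = fun _ => 0 := by
  have := mul_cmul m 0 (fun _ : E M => (0 : ℂ))
  simpa using this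

theorem norm_Mul_le {m : K M → ℂ} (hm : ∀ k, ‖m k‖ ≤ 1) {f : E M → ℂ} (hf : SP f) (x : E M) :
    ‖Mul m f x‖ ≤ ∑' k, ‖fc f k‖ := by
  have hmt : Tame m := tame_of_bdd 1 hm
  refine (norm_S_le (hmt.rd hf.rd).summable x).trans ?_
  refine (hmt.rd hf.rd).summable.norm.tsum_le_tsum (fun k => ?_) hf.rd.summable.norm
  rw [norm_mul]
  exact mul_le_of_le_one_left (norm_nonneg _) (hm k)

theorem TT_cmul (μ : E M → ℂ) (m : K M → ℂ) (c d : ℂ) (g : E M → ℂ) :
    TT (fun x => c * μ x) m (fun x => d * g x) = fun x => (c * d) * TT μ m g x := by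
  funext x
  unfold TT
  rw [mul_cmul]
  ring

theorem TT_iter_cmul (μ : E M → ℂ) (m : K M → ℂ) (c : ℂ) (g : E M → ℂ) (j : ℕ) :
    (TT (fun x => c * μ x) m)^[j] (fun x => c * g x) = fun x => c ^ (j + 1) * (TT μ m)^[j] g x := by
  induction j with
  | zero => simp
  | succ j ih =>
    rw [Function.iterate_succ_apply', ih, TT_cmul, Function.iterate_succ_apply']
    funext x
    ring

/-! ### The operators in the plane of the directions `p`, `q` -/

variable (p q : Fin (M + 1))

/-- the complex frequency -/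
def zt (k : K M) : ℂ := (k p : ℂ) + Complex.I * (k q : ℂ)

/-- the multiplier of the Beurling transform -/
def mB (k : K M) : ℂ := (starRingEnd ℂ) (zt p q k) / zt p q k

/-- the multiplier of the inverse of `∂_z̄` -/
def mI (k : K M) : ℂ := (Real.pi * Complex.I * zt p q k)⁻¹

/-- the multiplier of the mean value in the plane of the directions `p`, `q` -/
def m0 (k : K M) : ℂ := if zt p q k = 0 then 1 else 0

/-- `∂_z` -/
def dz (f : E M → ℂ) (x : E M) : ℂ := (pd p f x - Complex.I * pd q f x) / 2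

/-- `∂_z̄` -/
def dzb (f : E M → ℂ) (x : E M) : ℂ := (pd p f x + Complex.I * pd q f x) / 2

variable {p q}

theorem norm_mB (k : K M) : ‖mB p q k‖ ≤ 1 := by
  unfold mB
  rw [norm_div, RCLike.norm_conj]
  exact div_self_le_one _

theorem zt_re (k : K M) : (zt p q k).re = k p := by simp [zt]

theorem zt_im (k : K M) : (zt p q k).im = k q := by simp [zt]

theorem zt_eq_zero {k : K M} : zt p q k = 0 ↔ k p = 0 ∧ k q = 0 := by
  constructor
  · intro h
    have h1 := congrArg Complex.re h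
    have h2 := congrArg Complex.im h
    rw [zt_re] at h1
    rw [zt_im] at h2
    simp only [Complex.zero_re, Complex.zero_im] at h1 h2
    exact ⟨by exact_mod_cast h1, by exact_mod_cast h2⟩
  · rintro ⟨h1, h2⟩
    simp [zt, h1, h2]

theorem one_le_norm_zt {k : K M} (h : zt p q k ≠ 0) : 1 ≤ ‖zt p q k‖ := by
  have h1 : ¬ (k p = 0 ∧ k q = 0) := fun h' => h (zt_eq_zero.2 h')
  have h2 : 1 ≤ |(k p : ℝ)| ∨ 1 ≤ |(k q : ℝ)| := by
    by_contra hc
    push Not at hc
    apply h1
    have e1 : |k p| < 1 := by exact_mod_cast hc.1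
    have e2 : |k q| < 1 := by exact_mod_cast hc.2
    exact ⟨Int.abs_lt_one_iff.1 e1, Int.abs_lt_one_iff.1 e2⟩
  rcases h2 with h2 | h2
  · have := Complex.abs_re_le_norm (zt p q k)
    rw [zt_re] at this
    exact h2.trans this
  · have := Complex.abs_im_le_norm (zt p q k)
    rw [zt_im] at this
    exact h2.trans this

theorem norm_mI (k : K M) : ‖mI p q k‖ ≤ 1 := by
  unfold mI
  by_cases h : zt p q k = 0
  · simp [h]
  · have h1 := one_le_norm_zt h
    rw [norm_inv, norm_mul, norm_mul, Complex.norm_I, Complex.norm_real, Real.norm_eq_abs,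
      abs_of_pos Real.pi_pos, mul_one]
    have := Real.pi_gt_three
    refine inv_le_one_of_one_le₀ ?_
    nlinarith

theorem norm_m0 (k : K M) : ‖m0 p q k‖ ≤ 1 := by
  unfold m0
  split_ifs <;> simp

theorem tame_mB : Tame (mB (M := M) p q) := tame_of_bdd 1 norm_mB

theorem tame_mI : Tame (mI (M := M) p q) := tame_of_bdd 1 norm_mI

theorem tame_m0 : Tame (m0 (M := M) p q) := tame_of_bdd 1 norm_m0

theorem SP.dz {f : E M → ℂ} (hf : SP f) : SP (dz p q f) := by
  have h := ((hf.pd p).sub ((hf.pd q).cmul Complex.I)).cmul (1 / 2)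
  refine (?_ : Helper597_fou.dz p q f = _) ▸ h
  funext x
  unfold Helper597_fou.dz
  ring

theorem SP.dzb {f : E M → ℂ} (hf : SP f) : SP (dzb p q f) := by
  have h := ((hf.pd p).add ((hf.pd q).cmul Complex.I)).cmul (1 / 2)
  refine (?_ : Helper597_fou.dzb p q f = _) ▸ h
  funext x
  unfold Helper597_fou.dzb
  ring

theorem fc_dz {f : E M → ℂ} (hf : SP f) (k : K M) :
    fc (dz p q f) k = Real.pi * Complex.I * (starRingEnd ℂ) (zt p q k) * fc f k := by
  have e : dz p q f = fun x => (1 / 2 : ℂ) * (pd p f x - Complex.I * pd q f x) := by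
    funext x
    unfold dz
    ring
  rw [e, fc_cmul, fc_sub (hf.pd p) ((hf.pd q).cmul _), fc_cmul, fc_pd hf, fc_pd hf]
  unfold D zt
  simp only [map_add, map_mul, Complex.conj_I, map_intCast]
  linear_combination (-Real.pi * (k q : ℂ) * fc f k) * (Complex.I_mul_I) +
    (Real.pi * (k q : ℂ) * fc f k) * (Complex.I_mul_I)

theorem fc_dzb {f : E M → ℂ} (hf : SP f) (k : K M) :
    fc (dzb p q f) k = Real.pi * Complex.I * zt p q k * fc f k := by
  have e : dzb p q f = fun x => (1 / 2 : ℂ) * (pd p f x + Complex.I * pd q f x) := by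
    funext x
    unfold dzb
    ring
  rw [e, fc_cmul, fc_add (hf.pd p) ((hf.pd q).cmul _), fc_cmul, fc_pd hf, fc_pd hf]
  unfold D zt
  ring

/-- `S ∂_z̄ = ∂_z` -/
theorem mB_dzb {f : E M → ℂ} (hf : SP f) : Mul (mB p q) (dzb p q f) = dz p q f := by
  refine (tame_mB.sp hf.dzb).ext_fc hf.dz fun k => ?_
  rw [tame_mB.fc hf.dzb, fc_dz hf, fc_dzb hf]
  unfold mB
  by_cases h : zt p q k = 0
  · simp [h]
  · field_simp

/-- `∂_z̄ S = ∂_z` -/
theorem dzb_mB {f : E M → ℂ} (hf : SP f) : dzb p q (Mul (mB p q) f) = dz p q f := by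
  refine (tame_mB.sp hf).dzb.ext_fc hf.dz fun k => ?_
  rw [fc_dzb (tame_mB.sp hf), fc_dz hf, tame_mB.fc hf]
  unfold mB
  by_cases h : zt p q k = 0
  · simp [h]
  · field_simp

theorem dz_mul {f g : E M → ℂ} (hf : Differentiable ℝ f) (hg : Differentiable ℝ g) (x : E M) :
    dz p q (fun y => f y * g y) x = f x * dz p q g x + dz p q f x * g x := by
  unfold dz
  rw [pd_mul hf hg, pd_mul hf hg]
  ring

theorem dzb_mul {f g : E M → ℂ} (hf : Differentiable ℝ f) (hg : Differentiable ℝ g) (x : E M) :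
    dzb p q (fun y => f y * g y) x = f x * dzb p q g x + dzb p q f x * g x := by
  unfold dzb
  rw [pd_mul hf hg, pd_mul hf hg]
  ring

theorem dz_cmul (c : ℂ) {f : E M → ℂ} (hf : Differentiable ℝ f) (x : E M) :
    dz p q (fun y => c * f y) x = c * dz p q f x := by
  rw [dz_mul (differentiable_const c) hf]
  unfold dz
  rw [pd_const, pd_const]
  ring

theorem dz_exp {f : E M → ℂ} (hf : Differentiable ℝ f) (x : E M) :
    dz p q (fun y => Complex.exp (f y)) x = Complex.exp (f x) * dz p q f x := by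
  unfold dz
  rw [pd_exp hf, pd_exp hf]
  ring

theorem dzb_exp {f : E M → ℂ} (hf : Differentiable ℝ f) (x : E M) :
    dzb p q (fun y => Complex.exp (f y)) x = Complex.exp (f x) * dzb p q f x := by
  unfold dzb
  rw [pd_exp hf, pd_exp hf]
  ring

theorem dz_log {f : E M → ℂ} (hf : Differentiable ℝ f) (h0 : ∀ x, f x ∈ Complex.slitPlane)
    (x : E M) : dz p q (fun y => Complex.log (f y)) x = (f x)⁻¹ * dz p q f x := by
  unfold dz
  rw [pd_log hf h0, pd_log hf h0]
  ring

theorem dzb_log {f : E M → ℂ} (hf : Differentiable ℝ f) (h0 : ∀ x, f x ∈ Complex.slitPlane)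
    (x : E M) : dzb p q (fun y => Complex.log (f y)) x = (f x)⁻¹ * dzb p q f x := by
  unfold dzb
  rw [pd_log hf h0, pd_log hf h0]
  ring

theorem dzb_const_add (c : ℂ) {f : E M → ℂ} (hf : Differentiable ℝ f) (x : E M) :
    dzb p q (fun y => c + f y) x = dzb p q f x := by
  unfold dzb
  rw [pd_add (differentiable_const c) hf, pd_add (differentiable_const c) hf, pd_const, pd_const]
  ring

/-! ### The logarithm -/

section log

variable {μ : E M → ℂ} (hμ : SP μ) {κ : ℝ} (hκ : ∀ x, ‖μ x‖ ≤ κ) (hκ1 : κ < 1)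

include hμ hκ hκ1

/-- If the solution of `g = 1 + S (μ g)` lies in the slit plane, then the mean values of the
solution `τ` of `τ = ∂_z μ + μ S τ` in the plane vanish. -/
theorem mean_of_slit (hs : ∀ x, 1 + Mul (mB p q) (Rs μ (mB p q) μ) x ∈ Complex.slitPlane)
    {k : K M} (hk : zt p q k = 0) : fc (Rs μ (mB p q) (dz p q μ)) k = 0 := by
  set W := Rs μ (mB p q) μ with hW
  have hWs : SP W := sp_Rs hμ hκ hκ1 norm_mB hμ
  have hSW : SP (Mul (mB p q) W) := tame_mB.sp hWs
  set g : E M → ℂ := fun x => 1 + Mul (mB p q) W x with hg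
  have hgs : SP g := (SP.const 1).add hSW
  have hg0 : ∀ x, g x ≠ 0 := fun x => Complex.slitPlane_ne_zero (hs x)
  have hWg : ∀ x, W x = μ x * g x := by
    intro x
    have := Rs_eq hμ hκ hκ1 norm_mB hμ x (m := mB p q)
    rw [← hW] at this
    rw [this, hg]
    ring
  set σ : E M → ℂ := fun x => Complex.log (g x) with hσ
  have hσs : SP σ := hgs.log hs
  have h1 : ∀ x, dzb p q g x = dz p q W x := by
    intro x
    rw [← dzb_mB hWs]
    exact dzb_const_add 1 hSW.diff x
  have h2 : ∀ x, dz p q W x = μ x * dz p q g x + dz p q μ x * g x := by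
    intro x
    have e : W = fun x => μ x * g x := funext hWg
    rw [e]
    exact dz_mul hμ.diff hgs.diff x
  have h3 : ∀ x, dzb p q σ x = dz p q μ x + μ x * Mul (mB p q) (dzb p q σ) x := by
    intro x
    rw [mB_dzb hσs]
    have e1 : dzb p q σ x = (g x)⁻¹ * dzb p q g x := dzb_log hgs.diff hs x
    have e2 : dz p q σ x = (g x)⁻¹ * dz p q g x := dz_log hgs.diff hs x
    rw [e1, e2, h1, h2]
    have := hg0 x
    field_simp
    ring
  have h4 := unique_sol hμ hκ hκ1 norm_mB hμ.dz hσs.dzb h3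
  rw [← h4, fc_dzb hσs, hk]
  ring

omit hμ hκ hκ1 in
/-- a power series which vanishes for small positive arguments -/
theorem coef_zero_of_small {a : ℕ → ℂ} {C r : ℝ} (hr : 0 ≤ r) (hr1 : r < 1)
    (ha : ∀ j, ‖a j‖ ≤ C * r ^ j) {ε : ℝ} (hε : 0 < ε) (hε1 : ε ≤ 1)
    (h : ∀ c : ℝ, 0 < c → c < ε → ∑' j, (c : ℂ) ^ (j + 1) * a j = 0) (j : ℕ) : a j = 0 := by
  induction j using Nat.strong_induction_on with
  | _ J ih =>
    have hC : 0 ≤ C := by
      have := ha 0
      rw [pow_zero, mul_one] at this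
      exact (norm_nonneg _).trans this
    have hgs := summable_geometric_of_lt_one hr hr1
    set B : ℝ := C * (1 - r)⁻¹ with hB
    have hB0 : 0 ≤ B := by
      have : 0 < 1 - r := by linarith
      positivity
    -- the bound `‖a J‖ ≤ c B`
    have key : ∀ c : ℝ, 0 < c → c < ε → ‖a J‖ ≤ c * B := by
      intro c hc hcε
      have hs : Summable fun j => (c : ℂ) ^ (j + 1) * a j := by
        refine Summable.of_norm_bounded (hgs.mul_left C) fun j => ?_
        rw [norm_mul, norm_pow, Complex.norm_real, Real.norm_eq_abs, abs_of_pos hc]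
        calc c ^ (j + 1) * ‖a j‖ ≤ 1 * (C * r ^ j) :=
              mul_le_mul (pow_le_one₀ hc.le (by linarith)) (ha j) (norm_nonneg _) zero_le_one
          _ = C * r ^ j := one_mul _
      have h1 := h c hc hcε
      rw [← hs.sum_add_tsum_nat_add J] at h1
      have h2 : ∑ i ∈ Finset.range J, (c : ℂ) ^ (i + 1) * a i = 0 :=
        Finset.sum_eq_zero fun i hi => by rw [ih i (Finset.mem_range.1 hi), mul_zero]
      rw [h2, zero_add] at h1
      have hs' : Summable fun i => (c : ℂ) ^ (i + J + 1) * a (i + J) :=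
        (summable_nat_add_iff J (f := fun j => (c : ℂ) ^ (j + 1) * a j)).2 hs
      rw [hs'.tsum_eq_zero_add] at h1
      rw [zero_add] at h1
      have hbnd : ∀ i, ‖(c : ℂ) ^ (i + 1 + J + 1) * a (i + 1 + J)‖ ≤
          c ^ (J + 2) * (C * r ^ i) := by
        intro i
        rw [norm_mul, norm_pow, Complex.norm_real, Real.norm_eq_abs, abs_of_pos hc]
        have e1 : c ^ (i + 1 + J + 1) = c ^ i * c ^ (J + 2) := by rw [← pow_add]; congr 1; ring
        have e2 : ‖a (i + 1 + J)‖ ≤ C * r ^ i := by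
          refine (ha _).trans (mul_le_mul_of_nonneg_left ?_ hC)
          rw [show i + 1 + J = i + (1 + J) by ring, pow_add]
          exact mul_le_of_le_one_right (by positivity) (pow_le_one₀ hr hr1.le)
        have e3 : c ^ i ≤ 1 := pow_le_one₀ hc.le (by linarith)
        rw [e1]
        calc c ^ i * c ^ (J + 2) * ‖a (i + 1 + J)‖ ≤ 1 * c ^ (J + 2) * (C * r ^ i) := by gcongr
          _ = c ^ (J + 2) * (C * r ^ i) := by ring
      have h3 : ‖∑' i, (c : ℂ) ^ (i + 1 + J + 1) * a (i + 1 + J)‖ ≤ c ^ (J + 2) * B := by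
        have h4 : HasSum (fun i => c ^ (J + 2) * (C * r ^ i)) (c ^ (J + 2) * B) :=
          ((hasSum_geometric_of_lt_one hr hr1).mul_left C).mul_left _
        exact tsum_of_norm_bounded h4 hbnd
      have h4 : (c : ℂ) ^ (J + 1) * a J = -∑' i, (c : ℂ) ^ (i + 1 + J + 1) * a (i + 1 + J) :=
        eq_neg_of_add_eq_zero_left h1
      have h5 : c ^ (J + 1) * ‖a J‖ ≤ c ^ (J + 2) * B := by
        have h6 := congrArg norm h4
        rw [norm_mul, norm_pow, Complex.norm_real, Real.norm_eq_abs, abs_of_pos hc, norm_neg] at h6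
        rw [h6]
        exact h3
      have h7 : c ^ (J + 2) * B = c ^ (J + 1) * (c * B) := by ring
      rw [h7] at h5
      exact le_of_mul_le_mul_left h5 (by positivity)
    by_contra hne
    have hpos : 0 < ‖a J‖ := norm_pos_iff.2 hne
    set c : ℝ := min (ε / 2) (‖a J‖ / (2 * (B + 1))) with hc
    have hc0 : 0 < c := lt_min (by linarith) (by positivity)
    have hcε : c < ε := lt_of_le_of_lt (min_le_left _ _) (by linarith)
    have h1 := key c hc0 hcε
    have h2 : c ≤ ‖a J‖ / (2 * (B + 1)) := min_le_right _ _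
    have h3 : c * B ≤ ‖a J‖ / (2 * (B + 1)) * (B + 1) := by
      have : c * B ≤ c * (B + 1) := by nlinarith
      refine this.trans (mul_le_mul_of_nonneg_right h2 (by linarith))
    have h4 : ‖a J‖ / (2 * (B + 1)) * (B + 1) = ‖a J‖ / 2 := by
      field_simp
    linarith

/-- **The mean values of the solution of the logarithmic Beltrami equation vanish.** -/
theorem mean_zero {k : K M} (hk : zt p q k = 0) (j : ℕ) :
    fc ((TT μ (mB p q))^[j] (dz p q μ)) k = 0 := by
  obtain ⟨C, r, hC, hr, hr1, hbd⟩ := iter_decay hμ hκ hκ1 (norm_mB (p := p) (q := q)) hμ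
    (2 * (M + 1))
  obtain ⟨C', r', hC', hr', hr1', hbd'⟩ := iter_decay hμ hκ hκ1 (norm_mB (p := p) (q := q))
    hμ.dz 0 (g := dz p q μ)
  have hκ0 : 0 ≤ κ := (norm_nonneg _).trans (hκ 0)
  set B : ℝ := ∑' k : K M, ((wt k) ^ (2 * (M + 1)))⁻¹ * (C * (1 - r)⁻¹) with hB
  have hr2 : 0 < 1 - r := by linarith
  have hB0 : 0 ≤ B := tsum_nonneg fun k => by
    have := wt_pos k
    positivity
  refine coef_zero_of_small (a := fun j => fc ((TT μ (mB p q))^[j] (dz p q μ)) k)
    (C := C') hr' hr1' (fun j => by simpa using hbd' j k)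
    (ε := 1 / (B + 1)) (by positivity) (by rw [div_le_one (by positivity)]; linarith) ?_ j
  intro c hc hcε
  have hc1 : c < 1 := lt_of_lt_of_le hcε (by rw [div_le_one (by positivity)]; linarith)
  set ν : E M → ℂ := fun x => (c : ℂ) * μ x with hν
  have hνs : SP ν := hμ.cmul _
  have hνκ : ∀ x, ‖ν x‖ ≤ κ := by
    intro x
    rw [hν]
    simp only
    rw [norm_mul, Complex.norm_real, Real.norm_eq_abs, abs_of_pos hc]
    have := hκ x
    have h0 := norm_nonneg (μ x)
    nlinarith
  have hiter : ∀ (g : E M → ℂ) (j : ℕ), fc ((TT ν (mB p q))^[j] (fun x => (c : ℂ) * g x)) =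
      fun k => (c : ℂ) ^ (j + 1) * fc ((TT μ (mB p q))^[j] g) k := by
    intro g j
    funext l
    rw [hν, TT_iter_cmul, fc_cmul]
  have hdz : dz p q ν = fun x => (c : ℂ) * dz p q μ x := by
    funext x
    exact dz_cmul (c : ℂ) hμ.diff x
  have hfcR : fc (Rs ν (mB p q) (dz p q ν)) k =
      ∑' j, (c : ℂ) ^ (j + 1) * fc ((TT μ (mB p q))^[j] (dz p q μ)) k := by
    rw [fc_Rs hνs hνκ hκ1 norm_mB hνs.dz, hdz]
    refine tsum_congr fun j => ?_
    rw [hiter]
  rw [← hfcR]
  refine mean_of_slit hνs hνκ hκ1 (fun x => ?_) hk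
  -- the solution is close to one
  have hRs : SP (Rs ν (mB p q) ν) := sp_Rs hνs hνκ hκ1 norm_mB hνs
  have h1 := norm_Mul_le (norm_mB (p := p) (q := q)) hRs x
  have h2 : ∀ l, ‖fc (Rs ν (mB p q) ν) l‖ ≤ c * (((wt l) ^ (2 * (M + 1)))⁻¹ * (C * (1 - r)⁻¹)) := by
    intro l
    rw [fc_Rs hνs hνκ hκ1 norm_mB hνs]
    have hw := wt_pos l
    have h4 : HasSum (fun j => c * (((wt l) ^ (2 * (M + 1)))⁻¹ * (C * r ^ j)))
        (c * (((wt l) ^ (2 * (M + 1)))⁻¹ * (C * (1 - r)⁻¹))) :=
      (((hasSum_geometric_of_lt_one hr hr1).mul_left C).mul_left _).mul_left _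
    refine tsum_of_norm_bounded h4 fun j => ?_
    have e : fc ((TT ν (mB p q))^[j] ν) l = (c : ℂ) ^ (j + 1) * fc ((TT μ (mB p q))^[j] μ) l :=
      congrFun (hiter μ j) l
    rw [e, norm_mul, norm_pow, Complex.norm_real, Real.norm_eq_abs, abs_of_pos hc]
    have h5 := hbd j l
    have h6 : ‖fc ((TT μ (mB p q))^[j] μ) l‖ ≤ ((wt l) ^ (2 * (M + 1)))⁻¹ * (C * r ^ j) := by
      rw [← div_eq_inv_mul, le_div_iff₀ (by positivity)]
      linarith
    have h7 : c ^ (j + 1) ≤ c := by
      rw [pow_succ]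
      exact mul_le_of_le_one_left hc.le (pow_le_one₀ hc.le hc1.le)
    exact mul_le_mul h7 h6 (norm_nonneg _) hc.le
  have h3 : ∑' l, ‖fc (Rs ν (mB p q) ν) l‖ ≤ c * B := by
    rw [hB, ← tsum_mul_left]
    refine hRs.rd.summable.norm.tsum_le_tsum h2 ?_
    exact (summable_wt.mul_right _).mul_left _
  have h4 : c * B < 1 := by
    rw [lt_div_iff₀ (by positivity)] at hcε
    nlinarith
  refine Complex.mem_slitPlane_of_norm_lt_one ?_
  linarith

/-- the solution of `τ = ∂_z μ + μ S τ` has mean value zero in the plane -/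
theorem fc_tau {k : K M} (hk : zt p q k = 0) : fc (Rs μ (mB p q) (dz p q μ)) k = 0 := by
  rw [fc_Rs hμ hκ hκ1 norm_mB hμ.dz]
  simp_rw [mean_zero hμ hκ hκ1 hk]
  exact tsum_zero

end log

end Pool.Agent.Helper597_fou
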