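import Pool.Agent.Helper597_fou.Psi

/-!
# The algebra of real smooth periodic functions

with the partial derivatives `dd i`, the averages `Av j` in the direction `j`, and the primitives
`Vv j` in the direction `j`.
-/

set_option autoImplicit false
set_option linter.unusedSectionVars false

open MeasureTheory Set Filter Topology
open scoped ContDiff

noncomputable section

namespace Pool.Agent.Helper597_fou

variable {M : ℕ}

/-- The algebra of real smooth periodic functions on `ℝ^{M+1}`, as a subalgebra. -/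
def PSa (M : ℕ) : Subalgebra ℝ (E M → ℝ) where
  carrier := {f | ContDiff ℝ ∞ f ∧ Per f}
  mul_mem' := fun {f g} hf hg => ⟨hf.1.mul hg.1, fun x k => by
    simp only [Pi.mul_apply, hf.2 x k, hg.2 x k]⟩
  add_mem' := fun {f g} hf hg => ⟨hf.1.add hg.1, fun x k => by
    simp only [Pi.add_apply, hf.2 x k, hg.2 x k]⟩
  algebraMap_mem' := fun r => ⟨contDiff_const, fun _ _ => rfl⟩

/-- The type of real smooth periodic functions on `ℝ^{M+1}`. -/
def PS (M : ℕ) : Type := PSa M

instance : CommRing (PS M) := inferInstanceAs (CommRing (PSa M))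
instance : Algebra ℝ (PS M) := inferInstanceAs (Algebra ℝ (PSa M))

namespace PS

theorem ext' {f g : PS M} (h : ∀ x, f.1 x = g.1 x) : f = g := Subtype.ext (funext h)

theorem smooth (f : PS M) : ContDiff ℝ ∞ f.1 := f.2.1

theorem diff (f : PS M) : Differentiable ℝ f.1 := f.smooth.differentiable (by simp)

theorem per (f : PS M) : Per f.1 := f.2.2

@[simp] theorem add_val (f g : PS M) (x : E M) : (f + g).1 x = f.1 x + g.1 x := rfl
@[simp] theorem sub_val (f g : PS M) (x : E M) : (f - g).1 x = f.1 x - g.1 x := rfl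
@[simp] theorem mul_val (f g : PS M) (x : E M) : (f * g).1 x = f.1 x * g.1 x := rfl
@[simp] theorem neg_val (f : PS M) (x : E M) : (-f).1 x = -f.1 x := rfl
@[simp] theorem one_val (x : E M) : (1 : PS M).1 x = 1 := rfl
@[simp] theorem zero_val (x : E M) : (0 : PS M).1 x = 0 := rfl
@[simp] theorem smul_val (c : ℝ) (f : PS M) (x : E M) : (c • f).1 x = c * f.1 x := rfl

/-- complex valued version -/
def cc (f : PS M) : E M → ℂ := fun x => (f.1 x : ℂ)

theorem sp (f : PS M) : SP (cc f) where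
  smooth := Complex.ofRealCLM.contDiff.comp f.smooth
  per := fun x k => by
    unfold cc
    rw [f.per x k]

theorem cc_inj {f g : PS M} (h : cc f = cc g) : f = g :=
  ext' fun x => Complex.ofReal_injective (congrFun h x)

theorem cc_add (f g : PS M) : cc (f + g) = fun x => cc f x + cc g x := by
  funext x; simp [cc]

theorem cc_sub (f g : PS M) : cc (f - g) = fun x => cc f x - cc g x := by
  funext x; simp [cc]

theorem cc_smul (c : ℝ) (f : PS M) : cc (c • f) = fun x => (c : ℂ) * cc f x := by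
  funext x; simp [cc]

theorem cc_mul (f g : PS M) : cc (f * g) = fun x => cc f x * cc g x := by
  funext x; simp [cc]

theorem cc_one : cc (1 : PS M) = fun _ => 1 := by
  funext x; simp [cc]

theorem cc_zero : cc (0 : PS M) = fun _ => 0 := by
  funext x; simp [cc]

/-- real part of a complex valued smooth periodic function -/
def reP {f : E M → ℂ} (hf : SP f) : PS M :=
  ⟨fun x => (f x).re, Complex.reCLM.contDiff.comp hf.smooth, fun x k => by simp only [hf.per x k]⟩

/-- imaginary part of a complex valued smooth periodic function -/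
def imP {f : E M → ℂ} (hf : SP f) : PS M :=
  ⟨fun x => (f x).im, Complex.imCLM.contDiff.comp hf.smooth, fun x k => by simp only [hf.per x k]⟩

@[simp] theorem reP_val {f : E M → ℂ} (hf : SP f) (x : E M) : (reP hf).1 x = (f x).re := rfl
@[simp] theorem imP_val {f : E M → ℂ} (hf : SP f) (x : E M) : (imP hf).1 x = (f x).im := rfl

/-! ### derivatives -/

/-- the partial derivative -/
def dd (i : Fin (M + 1)) (f : PS M) : PS M :=
  ⟨pd i f.1, (f.smooth.fderiv_right (m := ∞) (by norm_cast)).clm_apply contDiff_const,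
    f.per.pd i⟩

theorem dd_val (i : Fin (M + 1)) (f : PS M) (x : E M) : (dd i f).1 x = pd i f.1 x := rfl

theorem cc_dd (i : Fin (M + 1)) (f : PS M) : cc (dd i f) = pd i (cc f) := by
  funext x
  unfold cc
  rw [dd_val]
  unfold pd
  have h : HasFDerivAt (fun y => (f.1 y : ℂ)) (Complex.ofRealCLM.comp (fderiv ℝ f.1 x)) x :=
    Complex.ofRealCLM.hasFDerivAt.comp x (f.diff x).hasFDerivAt
  rw [h.fderiv]
  rfl

@[simp] theorem dd_add (i : Fin (M + 1)) (f g : PS M) : dd i (f + g) = dd i f + dd i g := by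
  apply cc_inj
  rw [cc_dd, cc_add, cc_add, cc_dd, cc_dd]
  funext x
  exact pd_add f.sp.diff g.sp.diff i x

@[simp] theorem dd_sub (i : Fin (M + 1)) (f g : PS M) : dd i (f - g) = dd i f - dd i g := by
  apply cc_inj
  rw [cc_dd, cc_sub, cc_sub, cc_dd, cc_dd]
  funext x
  exact pd_sub f.sp.diff g.sp.diff i x

theorem dd_mul (i : Fin (M + 1)) (f g : PS M) : dd i (f * g) = f * dd i g + dd i f * g := by
  apply cc_inj
  rw [cc_dd, cc_mul, cc_add, cc_mul, cc_mul, cc_dd, cc_dd]
  funext x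
  exact pd_mul f.sp.diff g.sp.diff i x

@[simp] theorem dd_one (i : Fin (M + 1)) : dd i (1 : PS M) = 0 := by
  apply cc_inj
  rw [cc_dd, cc_one, cc_zero]
  funext x
  exact pd_const 1 i x

@[simp] theorem dd_zero (i : Fin (M + 1)) : dd i (0 : PS M) = 0 := by
  apply cc_inj
  rw [cc_dd, cc_zero]
  funext x
  exact pd_const 0 i x

@[simp] theorem dd_neg (i : Fin (M + 1)) (f : PS M) : dd i (-f) = -dd i f := by
  rw [← zero_sub, dd_sub, dd_zero, zero_sub]

@[simp] theorem dd_smul (i : Fin (M + 1)) (c : ℝ) (f : PS M) : dd i (c • f) = c • dd i f := by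
  have h : ∀ g : PS M, c • g = (c • (1 : PS M)) * g := fun g => by simp
  have h1 : dd i (c • (1 : PS M)) = 0 := by
    apply cc_inj
    rw [cc_dd, cc_smul, cc_zero]
    funext x
    have : (fun x : E M => (c : ℂ) * cc (1 : PS M) x) = fun _ => (c : ℂ) := by
      rw [cc_one]
      funext x
      simp
    rw [this]
    exact pd_const _ i x
  rw [h f, dd_mul, h1, zero_mul, add_zero, h (dd i f)]

/-! ### Fourier coefficients -/

/-- the Fourier coefficients -/
def hat (f : PS M) (k : K M) : ℂ := fc (cc f) k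

theorem ext_hat {f g : PS M} (h : ∀ k, hat f k = hat g k) : f = g :=
  cc_inj (f.sp.ext_fc g.sp h)

@[simp] theorem hat_add (f g : PS M) (k : K M) : hat (f + g) k = hat f k + hat g k := by
  unfold hat
  rw [cc_add, fc_add f.sp g.sp]

@[simp] theorem hat_sub (f g : PS M) (k : K M) : hat (f - g) k = hat f k - hat g k := by
  unfold hat
  rw [cc_sub, fc_sub f.sp g.sp]

@[simp] theorem hat_smul (c : ℝ) (f : PS M) (k : K M) : hat (c • f) k = c * hat f k := by
  unfold hat
  rw [cc_smul, fc_cmul]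

@[simp] theorem hat_zero (k : K M) : hat (0 : PS M) k = 0 := by
  unfold hat
  rw [cc_zero, fc_const]
  simp

theorem hat_dd (i : Fin (M + 1)) (f : PS M) (k : K M) :
    hat (dd i f) k = 2 * Real.pi * Complex.I * (k i : ℂ) * hat f k := by
  unfold hat
  rw [cc_dd, fc_pd f.sp]
  rfl

theorem dd_comm (i j : Fin (M + 1)) (f : PS M) : dd i (dd j f) = dd j (dd i f) := by
  refine ext_hat fun k => ?_
  rw [hat_dd, hat_dd, hat_dd, hat_dd]
  ring

/-! ### real multipliers -/

theorem fc_conj (f : E M → ℂ) (k : K M) :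
    fc (fun x => (starRingEnd ℂ) (f x)) k = (starRingEnd ℂ) (fc f (-k)) := by
  unfold fc
  rw [← integral_conj]
  congr 1
  funext x
  rw [map_mul, neg_neg, ee_neg]

theorem Mul_conj {m : K M → ℂ} (hm : Tame m) (hs : ∀ k, m (-k) = (starRingEnd ℂ) (m k))
    {f : E M → ℂ} (hf : SP f) :
    (fun x => (starRingEnd ℂ) (Mul m f x)) = Mul m (fun x => (starRingEnd ℂ) (f x)) := by
  refine (hm.sp hf).conj.ext_fc (hm.sp hf.conj) fun k => ?_
  rw [fc_conj, hm.fc hf, hm.fc hf.conj, fc_conj, map_mul, hs]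
  simp

/-- a multiplier which preserves real functions -/
structure Sym (m : K M → ℂ) : Prop where
  tame : Tame m
  symm : ∀ k, m (-k) = (starRingEnd ℂ) (m k)

theorem Sym.im_eq_zero {m : K M → ℂ} (hm : Sym m) (f : PS M) (x : E M) :
    (Mul m (cc f) x).im = 0 := by
  have h1 := congrFun (Mul_conj hm.tame hm.symm f.sp) x
  have h2 : (fun x => (starRingEnd ℂ) (cc f x)) = cc f := by
    funext x
    unfold cc
    exact Complex.conj_ofReal _
  rw [h2] at h1
  exact Complex.conj_eq_iff_im.1 h1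

/-- real multiplier operators -/
def mr {m : K M → ℂ} (hm : Sym m) (f : PS M) : PS M := reP (hm.tame.sp f.sp)

theorem cc_mr {m : K M → ℂ} (hm : Sym m) (f : PS M) : cc (mr hm f) = Mul m (cc f) := by
  funext x
  unfold cc
  apply Complex.ext
  · rw [Complex.ofReal_re]
    rfl
  · rw [Complex.ofReal_im]
    exact (hm.im_eq_zero f x).symm

theorem hat_mr {m : K M → ℂ} (hm : Sym m) (f : PS M) (k : K M) : hat (mr hm f) k = m k * hat f k := by
  unfold hat
  rw [cc_mr, hm.tame.fc f.sp]

theorem sym_mJ (j : Fin (M + 1)) : Sym (mJ (M := M) j) where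
  tame := tame_mJ j
  symm := fun k => by
    unfold mJ
    by_cases h : k j = 0
    · simp [h]
    · simp [h]

theorem sym_mV (j : Fin (M + 1)) : Sym (mV (M := M) j) where
  tame := tame_mV j
  symm := fun k => by
    unfold mV
    rw [map_inv₀]
    congr 1
    simp [conj_two]

/-- the average in the direction `j` -/
def Av (j : Fin (M + 1)) (f : PS M) : PS M := mr (sym_mJ j) f

/-- the primitive in the direction `j` -/
def Vv (j : Fin (M + 1)) (f : PS M) : PS M := mr (sym_mV j) f

theorem hat_Av (j : Fin (M + 1)) (f : PS M) (k : K M) :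
    hat (Av j f) k = (if k j = 0 then 1 else 0) * hat f k := hat_mr _ _ _

theorem hat_Vv (j : Fin (M + 1)) (f : PS M) (k : K M) :
    hat (Vv j f) k = (2 * Real.pi * Complex.I * (k j : ℂ))⁻¹ * hat f k := hat_mr _ _ _

@[simp] theorem Av_add (j : Fin (M + 1)) (f g : PS M) : Av j (f + g) = Av j f + Av j g :=
  ext_hat fun k => by rw [hat_Av, hat_add, hat_add, hat_Av, hat_Av]; ring

@[simp] theorem Av_sub (j : Fin (M + 1)) (f g : PS M) : Av j (f - g) = Av j f - Av j g :=
  ext_hat fun k => by rw [hat_Av, hat_sub, hat_sub, hat_Av, hat_Av]; ring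

@[simp] theorem Av_smul (j : Fin (M + 1)) (c : ℝ) (f : PS M) : Av j (c • f) = c • Av j f :=
  ext_hat fun k => by rw [hat_Av, hat_smul, hat_smul, hat_Av]; ring

@[simp] theorem Av_zero (j : Fin (M + 1)) : Av j (0 : PS M) = 0 :=
  ext_hat fun k => by rw [hat_Av, hat_zero, mul_zero]

@[simp] theorem Vv_add (j : Fin (M + 1)) (f g : PS M) : Vv j (f + g) = Vv j f + Vv j g :=
  ext_hat fun k => by rw [hat_Vv, hat_add, hat_add, hat_Vv, hat_Vv]; ring

@[simp] theorem Vv_sub (j : Fin (M + 1)) (f g : PS M) : Vv j (f - g) = Vv j f - Vv j g :=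
  ext_hat fun k => by rw [hat_Vv, hat_sub, hat_sub, hat_Vv, hat_Vv]; ring

@[simp] theorem Vv_zero (j : Fin (M + 1)) : Vv j (0 : PS M) = 0 :=
  ext_hat fun k => by rw [hat_Vv, hat_zero, mul_zero]

theorem dd_Av (i j : Fin (M + 1)) (f : PS M) : dd i (Av j f) = Av j (dd i f) :=
  ext_hat fun k => by rw [hat_Av, hat_dd, hat_dd, hat_Av]; ring

theorem dd_Vv (i j : Fin (M + 1)) (f : PS M) : dd i (Vv j f) = Vv j (dd i f) :=
  ext_hat fun k => by rw [hat_Vv, hat_dd, hat_dd, hat_Vv]; ring

theorem Av_comm (i j : Fin (M + 1)) (f : PS M) : Av i (Av j f) = Av j (Av i f) :=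
  ext_hat fun k => by rw [hat_Av, hat_Av, hat_Av, hat_Av]; ring

@[simp] theorem Av_dd_self (j : Fin (M + 1)) (f : PS M) : Av j (dd j f) = 0 :=
  ext_hat fun k => by
    rw [hat_Av, hat_dd, hat_zero]
    by_cases h : k j = 0 <;> simp [h]

@[simp] theorem dd_Av_self (j : Fin (M + 1)) (f : PS M) : dd j (Av j f) = 0 := by
  rw [dd_Av, Av_dd_self]

theorem Vv_dd_self (j : Fin (M + 1)) (f : PS M) : Vv j (dd j f) = f - Av j f :=
  ext_hat fun k => by
    rw [hat_Vv, hat_dd, hat_sub, hat_Av]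
    by_cases h : k j = 0
    · simp [h]
    · have h1 : (k j : ℂ) ≠ 0 := by exact_mod_cast h
      have h2 : (2 * Real.pi * Complex.I : ℂ) ≠ 0 := Complex.two_pi_I_ne_zero
      rw [if_neg h, zero_mul, sub_zero, ← mul_assoc, inv_mul_cancel₀ (mul_ne_zero h2 h1), one_mul]

theorem dd_Vv_self (j : Fin (M + 1)) (f : PS M) : dd j (Vv j f) = f - Av j f := by
  rw [dd_Vv, Vv_dd_self]

@[simp] theorem Av_Vv_self (j : Fin (M + 1)) (f : PS M) : Av j (Vv j f) = 0 :=
  ext_hat fun k => by
    rw [hat_Av, hat_Vv, hat_zero]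
    by_cases h : k j = 0 <;> simp [h]

@[simp] theorem Vv_Av_self (j : Fin (M + 1)) (f : PS M) : Vv j (Av j f) = 0 :=
  ext_hat fun k => by
    rw [hat_Vv, hat_Av, hat_zero]
    by_cases h : k j = 0 <;> simp [h]

theorem Av_Vv (i j : Fin (M + 1)) (f : PS M) : Av i (Vv j f) = Vv j (Av i f) :=
  ext_hat fun k => by rw [hat_Av, hat_Vv, hat_Vv, hat_Av]; ring

theorem Av_of_dd {j : Fin (M + 1)} {f : PS M} (h : dd j f = 0) : Av j f = f := by
  have h1 := Vv_dd_self j f
  rw [h, Vv_zero] at h1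
  exact (sub_eq_zero.1 h1.symm).symm

@[simp] theorem Av_one (j : Fin (M + 1)) : Av j (1 : PS M) = 1 := Av_of_dd (dd_one j)

@[simp] theorem Vv_one (j : Fin (M + 1)) : Vv j (1 : PS M) = 0 := by
  rw [← Av_one j, Vv_Av_self]

/-- the average is characterised by the differential equation -/
theorem Av_unique {j : Fin (M + 1)} {f c v : PS M} (hc : dd j c = 0) (h : f = c + dd j v) :
    Av j f = c := by
  rw [h, Av_add, Av_dd_self, add_zero, Av_of_dd hc]

theorem Av_mul {j : Fin (M + 1)} (f : PS M) {g : PS M} (hg : dd j g = 0) :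
    Av j (f * g) = Av j f * g := by
  refine Av_unique (v := Vv j f * g) ?_ ?_
  · rw [dd_mul, hg, dd_Av_self]
    ring
  · rw [dd_mul, hg, dd_Vv_self]
    ring

theorem Av_pos {f : PS M} (h : ∀ x, 0 < f.1 x) (j : Fin (M + 1)) (x : E M) : 0 < (Av j f).1 x :=
  re_mJ_pos f.sp (fun y => by
    unfold cc
    rw [Complex.ofReal_re]
    exact h y) j x

/-- inverses -/
def inv' (f : PS M) (h : ∀ x, f.1 x ≠ 0) : PS M :=
  ⟨fun x => (f.1 x)⁻¹, f.smooth.inv h, fun x k => by simp only [f.per x k]⟩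

theorem mul_inv' (f : PS M) (h : ∀ x, f.1 x ≠ 0) : f * inv' f h = 1 :=
  ext' fun x => mul_inv_cancel₀ (h x)

theorem inv'_val (f : PS M) (h : ∀ x, f.1 x ≠ 0) (x : E M) : (inv' f h).1 x = (f.1 x)⁻¹ := rfl

theorem dd_inv' (f : PS M) (h : ∀ x, f.1 x ≠ 0) {j : Fin (M + 1)} (hj : dd j f = 0) :
    dd j (inv' f h) = 0 := by
  have h1 := congrArg (dd j) (mul_inv' f h)
  rw [dd_mul, hj, dd_one, zero_mul, add_zero] at h1
  have h2 := congrArg (fun g => inv' f h * g) h1
  simp only [mul_zero] at h2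
  rw [← mul_assoc, mul_comm (inv' f h) f, mul_inv', one_mul] at h2
  exact h2

/-! ### slices -/

/-- the slice `x_j = c` -/
def sl (j : Fin (M + 1)) (c : ℝ) (f : PS M) : PS M :=
  ⟨fun x => f.1 (rs j c x), f.smooth.comp (rs_contDiff j c), fun x k => by
    simp only
    rw [rs_per, f.per]⟩

theorem sl_val (j : Fin (M + 1)) (c : ℝ) (f : PS M) (x : E M) :
    (sl j c f).1 x = f.1 (rs j c x) := rfl

@[simp] theorem sl_add (j : Fin (M + 1)) (c : ℝ) (f g : PS M) :
    sl j c (f + g) = sl j c f + sl j c g := rfl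

@[simp] theorem sl_sub (j : Fin (M + 1)) (c : ℝ) (f g : PS M) :
    sl j c (f - g) = sl j c f - sl j c g := rfl

@[simp] theorem sl_mul (j : Fin (M + 1)) (c : ℝ) (f g : PS M) :
    sl j c (f * g) = sl j c f * sl j c g := rfl

@[simp] theorem sl_smul (j : Fin (M + 1)) (c d : ℝ) (f : PS M) :
    sl j c (d • f) = d • sl j c f := rfl

@[simp] theorem sl_one (j : Fin (M + 1)) (c : ℝ) : sl j c (1 : PS M) = 1 := rfl

@[simp] theorem sl_zero (j : Fin (M + 1)) (c : ℝ) : sl j c (0 : PS M) = 0 := rfl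

theorem dd_sl {i j : Fin (M + 1)} (hij : i ≠ j) (c : ℝ) (f : PS M) :
    dd i (sl j c f) = sl j c (dd i f) :=
  ext' fun x => pd_rs f.diff hij c x

theorem dd_sl_self (j : Fin (M + 1)) (c : ℝ) (f : PS M) : dd j (sl j c f) = 0 := by
  refine ext' fun x => ?_
  change pd j (fun x => f.1 (rs j c x)) x = 0
  unfold pd
  have h : HasFDerivAt (fun x => f.1 (rs j c x)) _ x :=
    (f.diff (rs j c x)).hasFDerivAt.comp x (hasFDerivAt_rs j c x)
  rw [h.fderiv]
  simp

/-- functions which do not depend on `x_j` are their own slices -/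
theorem sl_of_dd {j : Fin (M + 1)} (c : ℝ) {f : PS M} (h : dd j f = 0) : sl j c f = f :=
  ext' fun x => const_of_pd f.diff (fun y => by rw [← dd_val, h]; rfl) x (c - x j)

theorem sl_Av {i j : Fin (M + 1)} (hij : i ≠ j) (c : ℝ) (f : PS M) :
    sl j c (Av i f) = Av i (sl j c f) := by
  refine (Av_unique (v := sl j c (Vv i f)) ?_ ?_).symm
  · rw [dd_sl hij, dd_Av_self, sl_zero]
  · rw [dd_sl hij, dd_Vv_self, sl_sub]
    ring

theorem sl_Vv {i j : Fin (M + 1)} (hij : i ≠ j) (c : ℝ) (f : PS M) :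
    sl j c (Vv i f) = Vv i (sl j c f) := by
  have h1 := Vv_dd_self i (sl j c (Vv i f))
  rw [dd_sl hij, dd_Vv_self, ← sl_Av hij, Av_Vv_self, sl_zero, sub_zero, sl_sub, Vv_sub,
    sl_Av hij, Vv_Av_self, sub_zero] at h1
  exact h1.symm

end PS

end Pool.Agent.Helper597_fou
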