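import Pool.Agent.Helper597_fou.Sol

/-!
# The normalised map `z + ψ` of a family of Beltrami coefficients
-/

set_option autoImplicit false

open MeasureTheory Set Filter Topology
open scoped ContDiff

set_option linter.unusedSectionVars false

noncomputable section

namespace Pool.Agent.Helper597_fou

variable {M : ℕ} {p q : Fin (M + 1)}

/-! ### Uniqueness of closed pairs -/

theorem unique_pair {μ : E M → ℂ} (hμ : SP μ) {κ : ℝ} (hκ : ∀ x, ‖μ x‖ ≤ κ) (hκ1 : κ < 1)
    {d D : E M → ℂ} (hd : SP d) (hD : SP D) (h1 : ∀ x, D x = μ x * d x)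
    (h2 : dzb p q d = dz p q D) (h3 : Mul (m0 p q) d = fun _ => 0) :
    (∀ x, d x = 0) ∧ ∀ x, D x = 0 := by
  have e : d = Mul (mB p q) D := by
    refine hd.ext_fc (tame_mB.sp hD) fun k => ?_
    rw [tame_mB.fc hD]
    unfold mB
    by_cases h : zt p q k = 0
    · have h4 : fc (Mul (m0 p q) d) k = 0 := by
        rw [h3, fc_const]
        simp
      rw [tame_m0.fc hd] at h4
      unfold m0 at h4
      rw [if_pos h, one_mul] at h4
      rw [h4, h]
      simp
    · have h4 : fc (dzb p q d) k = fc (dz p q D) k := by rw [h2]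
      rw [fc_dzb hd, fc_dz hD] at h4
      have h5 : (Real.pi : ℂ) ≠ 0 := by exact_mod_cast Real.pi_ne_zero
      have h6 := Complex.I_ne_zero
      rw [div_mul_eq_mul_div, eq_div_iff h]
      have h7 : (Real.pi * Complex.I : ℂ) * (zt p q k * fc d k) =
          Real.pi * Complex.I * ((starRingEnd ℂ) (zt p q k) * fc D k) := by
        linear_combination h4
      have h8 := mul_left_cancel₀ (mul_ne_zero h5 h6) h7
      linear_combination h8
  have hD0 : ∀ x, D x = 0 := unique_zero hμ hκ hκ1 norm_mB hD fun x => by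
    rw [← e]
    exact h1 x
  refine ⟨fun x => ?_, hD0⟩
  have h4 : D = fun _ => 0 := funext hD0
  rw [e, h4, mul_zero']

/-! ### Slices -/

/-- the slice `x_j = c` -/
def rs (j : Fin (M + 1)) (c : ℝ) (x : E M) : E M := x + (c - x j) • Pi.single j 1

theorem rs_contDiff (j : Fin (M + 1)) (c : ℝ) : ContDiff ℝ ∞ (rs j c : E M → E M) := by
  unfold rs
  exact contDiff_id.add ((contDiff_const.sub (contDiff_apply ℝ ℝ j)).smul contDiff_const)

theorem hasFDerivAt_rs (j : Fin (M + 1)) (c : ℝ) (x : E M) :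
    HasFDerivAt (rs j c) (ContinuousLinearMap.id ℝ (E M) -
      (ContinuousLinearMap.proj (R := ℝ) (φ := fun _ : Fin (M + 1) => ℝ) j).smulRight
        (Pi.single j 1 : E M)) x := by
  have h1 : HasFDerivAt (fun x : E M => x j)
      (ContinuousLinearMap.proj (R := ℝ) (φ := fun _ : Fin (M + 1) => ℝ) j) x :=
    (ContinuousLinearMap.proj (R := ℝ) (φ := fun _ : Fin (M + 1) => ℝ) j).hasFDerivAt
  have h2 := (hasFDerivAt_id x).add ((h1.const_sub c).smul_const (Pi.single j 1 : E M))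
  refine h2.congr_fderiv ?_
  refine ContinuousLinearMap.ext fun v => ?_
  simp [sub_eq_add_neg]

theorem rs_per (j : Fin (M + 1)) (c : ℝ) (x : E M) (k : K M) :
    rs j c (x + il k) = rs j c x + il (k - k j • Pi.single j 1) := by
  unfold rs
  funext i
  by_cases hi : i = j
  · subst hi
    simp [il]
  · simp [il, hi]

theorem rs_self (j : Fin (M + 1)) (c : ℝ) (x : E M) : rs j c x j = c := by
  simp [rs]

theorem rs_of_eq {j : Fin (M + 1)} {c : ℝ} {x : E M} (h : x j = c) : rs j c x = x := by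
  simp [rs, h]

theorem SP.rs {f : E M → ℂ} (hf : SP f) (j : Fin (M + 1)) (c : ℝ) :
    SP (fun x => f (rs j c x)) where
  smooth := hf.smooth.comp (rs_contDiff j c)
  per := fun x k => by
    simp only
    rw [rs_per, hf.per]

theorem pd_rs {F : Type*} [NormedAddCommGroup F] [NormedSpace ℝ F] {f : E M → F}
    (hf : Differentiable ℝ f) {i j : Fin (M + 1)} (hij : i ≠ j) (c : ℝ) (x : E M) :
    pd i (fun x => f (rs j c x)) x = pd i f (rs j c x) := by
  unfold pd
  have h : HasFDerivAt (fun x => f (rs j c x)) _ x :=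
    (hf (rs j c x)).hasFDerivAt.comp x (hasFDerivAt_rs j c x)
  rw [h.fderiv]
  simp [Ne.symm hij]

theorem dz_rs {f : E M → ℂ} (hf : Differentiable ℝ f) {j : Fin (M + 1)} (hp : p ≠ j) (hq : q ≠ j)
    (c : ℝ) (x : E M) : dz p q (fun x => f (rs j c x)) x = dz p q f (rs j c x) := by
  unfold dz
  rw [pd_rs hf hp, pd_rs hf hq]

theorem dzb_rs {f : E M → ℂ} (hf : Differentiable ℝ f) {j : Fin (M + 1)} (hp : p ≠ j) (hq : q ≠ j)
    (c : ℝ) (x : E M) : dzb p q (fun x => f (rs j c x)) x = dzb p q f (rs j c x) := by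
  unfold dzb
  rw [pd_rs hf hp, pd_rs hf hq]

/-! ### The determinant -/

section det

variable {μ : E M → ℂ} (hμ : SP μ) {κ : ℝ} (hκ : ∀ x, ‖μ x‖ ≤ κ) (hκ1 : κ < 1)

/-- the determinant of the linear part -/
def detB (p q : Fin (M + 1)) (μ : E M → ℂ) : E M → ℂ := fun x =>
  Mul (m0 p q) (gB p q μ) x * (starRingEnd ℂ) (Mul (m0 p q) (gB p q μ) x) -
    Mul (m0 p q) (WB p q μ) x * (starRingEnd ℂ) (Mul (m0 p q) (WB p q μ) x)

/-- the Jacobian of the primitive -/
def jacB (p q : Fin (M + 1)) (μ : E M → ℂ) : E M → ℂ := fun x =>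
  gB p q μ x * (starRingEnd ℂ) (gB p q μ x) - WB p q μ x * (starRingEnd ℂ) (WB p q μ x)

include hμ hκ hκ1

theorem sp_detB : SP (detB p q μ) := by
  have hg := (tame_m0 (p := p) (q := q)).sp (sp_gB (p := p) (q := q) hμ hκ hκ1)
  have hW := (tame_m0 (p := p) (q := q)).sp (sp_WB (p := p) (q := q) hμ hκ hκ1)
  exact (hg.mul hg.conj).sub (hW.mul hW.conj)

theorem sp_jacB : SP (jacB p q μ) := by
  have hg := sp_gB (p := p) (q := q) hμ hκ hκ1
  have hW := sp_WB (p := p) (q := q) hμ hκ hκ1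
  exact (hg.mul hg.conj).sub (hW.mul hW.conj)

omit hμ hκ hκ1 in
theorem dzb_conj_m0 {f : E M → ℂ} (hf : SP f) (x : E M) :
    dzb p q (fun y => (starRingEnd ℂ) (Mul (m0 p q) f y)) x = 0 := by
  rw [dzb_conj (tame_m0.sp hf).diff, dz_m0 hf, map_zero]

omit hμ hκ hκ1 in
theorem dz_conj_m0 {f : E M → ℂ} (hf : SP f) (x : E M) :
    dz p q (fun y => (starRingEnd ℂ) (Mul (m0 p q) f y)) x = 0 := by
  rw [dz_conj (tame_m0.sp hf).diff, dzb_m0 hf, map_zero]

theorem dz_detB (x : E M) : dz p q (detB p q μ) x = 0 := by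
  have hg' := sp_gB (p := p) (q := q) hμ hκ hκ1
  have hW' := sp_WB (p := p) (q := q) hμ hκ hκ1
  have hg := (tame_m0 (p := p) (q := q)).sp hg'
  have hW := (tame_m0 (p := p) (q := q)).sp hW'
  unfold detB
  rw [dz_sub (hg.mul hg.conj).diff (hW.mul hW.conj).diff, dz_mul hg.diff hg.conj.diff,
    dz_mul hW.diff hW.conj.diff, dz_m0 hg', dz_m0 hW', dz_conj_m0 hg',
    dz_conj_m0 hW']
  ring

theorem dzb_detB (x : E M) : dzb p q (detB p q μ) x = 0 := by
  have hg' := sp_gB (p := p) (q := q) hμ hκ hκ1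
  have hW' := sp_WB (p := p) (q := q) hμ hκ hκ1
  have hg := (tame_m0 (p := p) (q := q)).sp hg'
  have hW := (tame_m0 (p := p) (q := q)).sp hW'
  unfold detB
  rw [dzb_sub (hg.mul hg.conj).diff (hW.mul hW.conj).diff, dzb_mul hg.diff hg.conj.diff,
    dzb_mul hW.diff hW.conj.diff, dzb_m0 hg', dzb_m0 hW', dzb_conj_m0 hg',
    dzb_conj_m0 hW']
  ring

/-- the determinant is the mean value of the Jacobian -/
theorem m0_jacB : Mul (m0 p q) (jacB p q μ) = detB p q μ := by
  have hg := sp_gB (p := p) (q := q) hμ hκ hκ1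
  have hW := sp_WB (p := p) (q := q) hμ hκ hκ1
  have hg0 := (tame_m0 (p := p) (q := q)).sp hg
  have hW0 := (tame_m0 (p := p) (q := q)).sp hW
  have hu : SP (Mul (mI p q) (WB p q μ)) := tame_mI.sp hW
  set g := gB p q μ with hgdef
  set W := WB p q μ with hWdef
  set g0 := Mul (m0 p q) g with hg0def
  set w0 := Mul (m0 p q) W with hw0def
  set u := Mul (mI p q) W with hudef
  have hdu : ∀ x, dz p q u x = g x - g0 x := fun x => congrFun (dz_u hμ hκ hκ1) x
  have hbu : ∀ x, dzb p q u x = W x - w0 x := fun x => congrFun (dzb_u hμ hκ hκ1) x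
  set A : E M → ℂ := fun x => ((starRingEnd ℂ) (g0 x) * u x - w0 x * (starRingEnd ℂ) (u x)) +
    u x * dzb p q (fun y => (starRingEnd ℂ) (u y)) x with hA
  set B : E M → ℂ := fun x => (g0 x * (starRingEnd ℂ) (u x) - (starRingEnd ℂ) (w0 x) * u x) -
    u x * dz p q (fun y => (starRingEnd ℂ) (u y)) x with hB
  have hA1 : SP (fun x => (starRingEnd ℂ) (g0 x) * u x - w0 x * (starRingEnd ℂ) (u x)) :=
    (hg0.conj.mul hu).sub (hW0.mul hu.conj)
  have hA2 : SP (fun x => u x * dzb p q (fun y => (starRingEnd ℂ) (u y)) x) :=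
    hu.mul hu.conj.dzb
  have hB1 : SP (fun x => g0 x * (starRingEnd ℂ) (u x) - (starRingEnd ℂ) (w0 x) * u x) :=
    (hg0.mul hu.conj).sub (hW0.conj.mul hu)
  have hB2 : SP (fun x => u x * dz p q (fun y => (starRingEnd ℂ) (u y)) x) :=
    hu.mul hu.conj.dz
  have hAs : SP A := hA1.add hA2
  have hBs : SP B := hB1.sub hB2
  have key : jacB p q μ = fun x => detB p q μ x + (dz p q A x + dzb p q B x) := by
    funext x
    have a1 : dz p q A x = (starRingEnd ℂ) (g0 x) * (g x - g0 x) -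
        w0 x * (starRingEnd ℂ) (W x - w0 x) +
        (u x * dz p q (dzb p q (fun y => (starRingEnd ℂ) (u y))) x +
          (g x - g0 x) * (starRingEnd ℂ) (g x - g0 x)) := by
      rw [hA, dz_add hA1.diff hA2.diff, dz_sub (hg0.conj.mul hu).diff (hW0.mul hu.conj).diff,
        dz_mul hg0.conj.diff hu.diff, dz_mul hW0.diff hu.conj.diff, dz_mul hu.diff hu.conj.dzb.diff,
        dz_conj_m0 hg, dz_m0 hW, dz_conj hu.diff, dzb_conj hu.diff, hdu, hbu]
      ring
    have b1 : dzb p q B x = g0 x * (starRingEnd ℂ) (g x - g0 x) -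
        (starRingEnd ℂ) (w0 x) * (W x - w0 x) -
        (u x * dzb p q (dz p q (fun y => (starRingEnd ℂ) (u y))) x +
          (W x - w0 x) * (starRingEnd ℂ) (W x - w0 x)) := by
      rw [hB, dzb_sub hB1.diff hB2.diff, dzb_sub (hg0.mul hu.conj).diff (hW0.conj.mul hu).diff,
        dzb_mul hg0.diff hu.conj.diff, dzb_mul hW0.conj.diff hu.diff,
        dzb_mul hu.diff hu.conj.dz.diff,
        dzb_conj_m0 hW, dzb_m0 hg, dz_conj hu.diff, dzb_conj hu.diff, hdu, hbu]
      ring
    rw [a1, b1, dz_dzb hu.conj]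
    simp only [jacB, detB, ← hgdef, ← hWdef, ← hg0def, ← hw0def, map_sub]
    ring
  have hdet := sp_detB (p := p) (q := q) hμ hκ hκ1
  rw [key, mul_add' tame_m0 hdet (hAs.dz.add hBs.dzb), mul_add' tame_m0 hAs.dz hBs.dzb,
    m0_dz hAs, m0_dzb hBs, m0_of_pd hdet (dzb_detB hμ hκ hκ1)]
  funext x
  ring

theorem jacB_re_pos (x : E M) : 0 < (jacB p q μ x).re := by
  have h1 : (jacB p q μ x).re = ‖gB p q μ x‖ ^ 2 * (1 - ‖μ x‖ ^ 2) := by
    unfold jacB WB
    rw [map_mul, Complex.sub_re, Complex.mul_conj, Complex.normSq_eq_norm_sq]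
    rw [show μ x * gB p q μ x * ((starRingEnd ℂ) (μ x) * (starRingEnd ℂ) (gB p q μ x)) =
      (μ x * (starRingEnd ℂ) (μ x)) * (gB p q μ x * (starRingEnd ℂ) (gB p q μ x)) by ring,
      Complex.mul_conj, Complex.mul_conj, Complex.normSq_eq_norm_sq, Complex.normSq_eq_norm_sq]
    norm_cast
    ring
  rw [h1]
  have h2 : 0 < ‖gB p q μ x‖ := norm_pos_iff.2 (gB_ne_zero x)
  have h3 := hκ x
  have h4 := norm_nonneg (μ x)
  have h5 : ‖μ x‖ ^ 2 < 1 := by nlinarith
  have h6 : 0 < 1 - ‖μ x‖ ^ 2 := by linarith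
  positivity

theorem detB_re_pos (x : E M) : 0 < (detB p q μ x).re := by
  rw [← m0_jacB hμ hκ hκ1]
  exact re_m0_pos (sp_jacB hμ hκ hκ1) (jacB_re_pos hμ hκ hκ1) x

theorem detB_ne_zero (x : E M) : detB p q μ x ≠ 0 := by
  intro h
  have := detB_re_pos (p := p) (q := q) hμ hκ hκ1 x
  rw [h] at this
  simp at this

omit hμ hκ hκ1 in
theorem detB_conj (x : E M) : (starRingEnd ℂ) (detB p q μ x) = detB p q μ x := by
  unfold detB
  simp only [map_sub, map_mul, Complex.conj_conj]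
  ring

omit hμ hκ hκ1 in
theorem jacB_conj (x : E M) : (starRingEnd ℂ) (jacB p q μ x) = jacB p q μ x := by
  unfold jacB
  simp only [map_sub, map_mul, Complex.conj_conj]
  ring

omit hμ hκ hκ1 in
theorem dz_inv {f : E M → ℂ} (hf : SP f) (h0 : ∀ x, f x ≠ 0) (h : ∀ x, dz p q f x = 0) (x : E M) :
    dz p q (fun y => (f y)⁻¹) x = 0 := by
  have h1 : (fun y => f y * (f y)⁻¹) = fun _ => 1 := by
    funext y
    exact mul_inv_cancel₀ (h0 y)
  have h2 := dz_mul (p := p) (q := q) hf.diff (hf.inv h0).diff x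
  rw [h1, h] at h2
  have h3 : dz p q (fun _ : E M => (1 : ℂ)) x = 0 := by
    unfold dz
    rw [pd_const, pd_const]
    simp
  rw [h3, zero_mul, add_zero] at h2
  exact (mul_eq_zero.1 h2.symm).resolve_left (h0 x)

omit hμ hκ hκ1 in
theorem dzb_inv {f : E M → ℂ} (hf : SP f) (h0 : ∀ x, f x ≠ 0) (h : ∀ x, dzb p q f x = 0)
    (x : E M) : dzb p q (fun y => (f y)⁻¹) x = 0 := by
  have h1 : (fun y => f y * (f y)⁻¹) = fun _ => 1 := by
    funext y
    exact mul_inv_cancel₀ (h0 y)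
  have h2 := dzb_mul (p := p) (q := q) hf.diff (hf.inv h0).diff x
  rw [h1, h] at h2
  have h3 : dzb p q (fun _ : E M => (1 : ℂ)) x = 0 := by
    unfold dzb
    rw [pd_const, pd_const]
    simp
  rw [h3, zero_mul, add_zero] at h2
  exact (mul_eq_zero.1 h2.symm).resolve_left (h0 x)

omit hμ hκ hκ1 in
/-- the periodic part of the normalised map -/
def psiB (p q : Fin (M + 1)) (μ : E M → ℂ) : E M → ℂ := fun x =>
  ((starRingEnd ℂ) (Mul (m0 p q) (gB p q μ) x) * Mul (mI p q) (WB p q μ) x -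
    Mul (m0 p q) (WB p q μ) x * (starRingEnd ℂ) (Mul (mI p q) (WB p q μ) x)) * (detB p q μ x)⁻¹

theorem sp_psiB : SP (psiB p q μ) := by
  have hg := sp_gB (p := p) (q := q) hμ hκ hκ1
  have hW := sp_WB (p := p) (q := q) hμ hκ hκ1
  have hg0 := (tame_m0 (p := p) (q := q)).sp hg
  have hW0 := (tame_m0 (p := p) (q := q)).sp hW
  have hu : SP (Mul (mI p q) (WB p q μ)) := tame_mI.sp hW
  exact ((hg0.conj.mul hu).sub (hW0.mul hu.conj)).mul
    ((sp_detB hμ hκ hκ1).inv (detB_ne_zero hμ hκ hκ1))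

theorem dz_psiB (x : E M) : 1 + dz p q (psiB p q μ) x =
    ((starRingEnd ℂ) (Mul (m0 p q) (gB p q μ) x) * gB p q μ x -
      Mul (m0 p q) (WB p q μ) x * (starRingEnd ℂ) (WB p q μ x)) * (detB p q μ x)⁻¹ := by
  have hg := sp_gB (p := p) (q := q) hμ hκ hκ1
  have hW := sp_WB (p := p) (q := q) hμ hκ hκ1
  have hg0 := (tame_m0 (p := p) (q := q)).sp hg
  have hW0 := (tame_m0 (p := p) (q := q)).sp hW
  have hu : SP (Mul (mI p q) (WB p q μ)) := tame_mI.sp hW
  have hdet := sp_detB (p := p) (q := q) hμ hκ hκ1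
  have hne := detB_ne_zero (p := p) (q := q) hμ hκ hκ1
  have hdu := congrFun (dz_u (p := p) (q := q) hμ hκ hκ1) x
  have hbu := congrFun (dzb_u (p := p) (q := q) hμ hκ hκ1) x
  unfold psiB
  rw [dz_mul ((hg0.conj.mul hu).sub (hW0.mul hu.conj)).diff (hdet.inv hne).diff,
    dz_inv hdet hne (dz_detB hμ hκ hκ1),
    dz_sub (hg0.conj.mul hu).diff (hW0.mul hu.conj).diff, dz_mul hg0.conj.diff hu.diff,
    dz_mul hW0.diff hu.conj.diff, dz_conj_m0 hg, dz_m0 hW, dz_conj hu.diff, hdu, hbu]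
  have h1 := hne x
  have h2 : detB p q μ x = Mul (m0 p q) (gB p q μ) x * (starRingEnd ℂ) (Mul (m0 p q) (gB p q μ) x) -
    Mul (m0 p q) (WB p q μ) x * (starRingEnd ℂ) (Mul (m0 p q) (WB p q μ) x) := rfl
  rw [mul_zero, zero_add]
  simp only [map_sub]
  field_simp
  rw [h2]
  ring

theorem dzb_psiB (x : E M) : dzb p q (psiB p q μ) x =
    ((starRingEnd ℂ) (Mul (m0 p q) (gB p q μ) x) * WB p q μ x -
      Mul (m0 p q) (WB p q μ) x * (starRingEnd ℂ) (gB p q μ x)) * (detB p q μ x)⁻¹ := by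
  have hg := sp_gB (p := p) (q := q) hμ hκ hκ1
  have hW := sp_WB (p := p) (q := q) hμ hκ hκ1
  have hg0 := (tame_m0 (p := p) (q := q)).sp hg
  have hW0 := (tame_m0 (p := p) (q := q)).sp hW
  have hu : SP (Mul (mI p q) (WB p q μ)) := tame_mI.sp hW
  have hdet := sp_detB (p := p) (q := q) hμ hκ hκ1
  have hne := detB_ne_zero (p := p) (q := q) hμ hκ hκ1
  have hdu := congrFun (dz_u (p := p) (q := q) hμ hκ hκ1) x
  have hbu := congrFun (dzb_u (p := p) (q := q) hμ hκ hκ1) x
  unfold psiB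
  rw [dzb_mul ((hg0.conj.mul hu).sub (hW0.mul hu.conj)).diff (hdet.inv hne).diff,
    dzb_inv hdet hne (dzb_detB hμ hκ hκ1),
    dzb_sub (hg0.conj.mul hu).diff (hW0.mul hu.conj).diff, dzb_mul hg0.conj.diff hu.diff,
    dzb_mul hW0.diff hu.conj.diff, dzb_conj_m0 hg, dzb_m0 hW, dzb_conj hu.diff, hdu, hbu]
  rw [mul_zero, zero_add]
  simp only [map_sub]
  ring

/-- the Jacobian of the normalised map -/
theorem jac_psiB (x : E M) :
    (1 + dz p q (psiB p q μ) x) * (starRingEnd ℂ) (1 + dz p q (psiB p q μ) x) -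
      dzb p q (psiB p q μ) x * (starRingEnd ℂ) (dzb p q (psiB p q μ) x) =
    jacB p q μ x * (detB p q μ x)⁻¹ := by
  rw [dz_psiB hμ hκ hκ1, dzb_psiB hμ hκ hκ1]
  have h1 := detB_ne_zero (p := p) (q := q) hμ hκ hκ1 x
  simp only [map_sub, map_mul, Complex.conj_conj, map_inv₀, detB_conj]
  field_simp
  unfold detB jacB
  ring

/-- the mean value of the Jacobian of the normalised map is `1` -/
theorem m0_jac_psiB : Mul (m0 p q) (fun x => jacB p q μ x * (detB p q μ x)⁻¹) = fun _ => 1 := by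
  have hdet := sp_detB (p := p) (q := q) hμ hκ hκ1
  have hjac := sp_jacB (p := p) (q := q) hμ hκ hκ1
  have hne := detB_ne_zero (p := p) (q := q) hμ hκ hκ1
  have hinv := hdet.inv hne
  -- `jac - det = ∂_z̄ v`
  have h1 := dzb_mI (p := p) (q := q) hjac
  rw [m0_jacB hμ hκ hκ1] at h1
  have hv : SP (Mul (mI p q) (jacB p q μ)) := tame_mI.sp hjac
  have h2 : (fun x => jacB p q μ x * (detB p q μ x)⁻¹) = fun x => 1 +
      dzb p q (fun y => Mul (mI p q) (jacB p q μ) y * (detB p q μ y)⁻¹) x := by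
    funext x
    rw [dzb_mul hv.diff hinv.diff, dzb_inv hdet hne (dzb_detB hμ hκ hκ1), h1]
    have := hne x
    field_simp
    ring
  rw [h2, mul_add' tame_m0 (SP.const 1) (hv.mul hinv).dzb, m0_dzb (hv.mul hinv),
    m0_of_pd (SP.const 1) (fun x => by
      unfold dzb
      rw [pd_const, pd_const]
      simp)]
  funext x
  ring

/-- **Slices.** If the slice of `μ` at `x_j = c` is the Beltrami coefficient of `z + φ`, then the
slice of `ψ` has the same derivatives as `φ`. -/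
theorem slice_psiB {j : Fin (M + 1)} (hp : p ≠ j) (hq : q ≠ j) (c : ℝ) {φ : E M → ℂ} (hφ : SP φ)
    (h : ∀ x, dzb p q φ x = μ (rs j c x) * (1 + dz p q φ x)) (x : E M) :
    dz p q (psiB p q μ) (rs j c x) = dz p q φ x ∧
      dzb p q (psiB p q μ) (rs j c x) = dzb p q φ x := by
  have hg := sp_gB (p := p) (q := q) hμ hκ hκ1
  have hW := sp_WB (p := p) (q := q) hμ hκ hκ1
  have hg0 := (tame_m0 (p := p) (q := q)).sp hg
  have hW0 := (tame_m0 (p := p) (q := q)).sp hW
  have hu : SP (Mul (mI p q) (WB p q μ)) := tame_mI.sp hW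
  have hdu := dz_u (p := p) (q := q) hμ hκ hκ1
  have hbu := dzb_u (p := p) (q := q) hμ hκ hκ1
  -- the function `u ∘ r - (g₀ ∘ r) φ`
  set v : E M → ℂ := fun y => Mul (mI p q) (WB p q μ) (rs j c y) -
    Mul (m0 p q) (gB p q μ) (rs j c y) * φ y with hv
  have hur := hu.rs j c
  have hgr := hg0.rs j c
  have hvs : SP v := hur.sub (hgr.mul hφ)
  set d : E M → ℂ := fun y => gB p q μ (rs j c y) -
    Mul (m0 p q) (gB p q μ) (rs j c y) * (1 + dz p q φ y) with hd
  set D : E M → ℂ := fun y => WB p q μ (rs j c y) -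
    Mul (m0 p q) (gB p q μ) (rs j c y) * dzb p q φ y with hD
  have hds : SP d := (hg.rs j c).sub (hgr.mul ((SP.const 1).add hφ.dz))
  have hDs : SP D := (hW.rs j c).sub (hgr.mul hφ.dzb)
  have hz1 : ∀ y, dz p q (fun y => Mul (m0 p q) (gB p q μ) (rs j c y)) y = 0 := fun y => by
    rw [dz_rs hg0.diff hp hq, dz_m0 hg]
  have hz2 : ∀ y, dzb p q (fun y => Mul (m0 p q) (gB p q μ) (rs j c y)) y = 0 := fun y => by
    rw [dzb_rs hg0.diff hp hq, dzb_m0 hg]
  have e1 : d = dz p q v := by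
    funext y
    rw [hv, dz_sub hur.diff (hgr.mul hφ).diff, dz_mul hgr.diff hφ.diff, hz1,
      dz_rs hu.diff hp hq, hdu]
    simp only [hd]
    ring
  have h3 : Mul (m0 p q) d = fun _ => 0 := by
    rw [e1]
    exact m0_dz hvs
  have h1 : ∀ y, D y = μ (rs j c y) * d y := by
    intro y
    simp only [hD, hd]
    rw [h y]
    have : WB p q μ (rs j c y) = μ (rs j c y) * gB p q μ (rs j c y) := rfl
    rw [this]
    ring
  have h2 : dzb p q d = dz p q D := by
    funext y
    have a1 : dzb p q d y = dzb p q (gB p q μ) (rs j c y) -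
        Mul (m0 p q) (gB p q μ) (rs j c y) * dzb p q (dz p q φ) y := by
      rw [hd, dzb_sub (hg.rs j c).diff (hgr.mul ((SP.const 1).add hφ.dz)).diff,
        dzb_mul hgr.diff ((SP.const 1).add hφ.dz).diff, hz2, dzb_rs hg.diff hp hq,
        dzb_const_add 1 hφ.dz.diff]
      ring
    have a2 : dz p q D y = dz p q (WB p q μ) (rs j c y) -
        Mul (m0 p q) (gB p q μ) (rs j c y) * dz p q (dzb p q φ) y := by
      rw [hD, dz_sub (hW.rs j c).diff (hgr.mul hφ.dzb).diff,
        dz_mul hgr.diff hφ.dzb.diff, hz1, dz_rs hW.diff hp hq]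
      ring
    rw [a1, a2, closed_gB hμ hκ hκ1, dz_dzb hφ]
  obtain ⟨hd0, hD0⟩ := unique_pair (hμ.rs j c) (fun y => hκ _) hκ1 hds hDs h1 h2 h3
  -- the mean value of `W` vanishes on the slice
  have hw : ∀ y, Mul (m0 p q) (WB p q μ) (rs j c y) = 0 := by
    have hWr := hW0.rs j c
    have b1 : (fun y => Mul (m0 p q) (WB p q μ) (rs j c y)) =
        dzb p q (fun y => Mul (m0 p q) (gB p q μ) (rs j c y) * φ y -
          Mul (mI p q) (WB p q μ) (rs j c y)) := by
      funext y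
      rw [dzb_sub (hgr.mul hφ).diff hur.diff, dzb_mul hgr.diff hφ.diff, hz2,
        dzb_rs hu.diff hp hq, hbu]
      have := hD0 y
      simp only [hD] at this
      linear_combination this
    have b2 : Mul (m0 p q) (fun y => Mul (m0 p q) (WB p q μ) (rs j c y)) =
        fun y => Mul (m0 p q) (WB p q μ) (rs j c y) :=
      m0_of_pd hWr fun y => by rw [dzb_rs hW0.diff hp hq, dzb_m0 hW]
    have b3 : Mul (m0 p q) (fun y => Mul (m0 p q) (WB p q μ) (rs j c y)) = fun _ => 0 := by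
      rw [b1]
      exact m0_dzb ((hgr.mul hφ).sub hur)
    rw [b3] at b2
    intro y
    exact (congrFun b2 y).symm
  have hg1 : gB p q μ (rs j c x) = Mul (m0 p q) (gB p q μ) (rs j c x) * (1 + dz p q φ x) := by
    have := hd0 x
    simp only [hd] at this
    linear_combination this
  have hW1 : WB p q μ (rs j c x) = Mul (m0 p q) (gB p q μ) (rs j c x) * dzb p q φ x := by
    have := hD0 x
    simp only [hD] at this
    linear_combination this
  have hdet : detB p q μ (rs j c x) = Mul (m0 p q) (gB p q μ) (rs j c x) *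
      (starRingEnd ℂ) (Mul (m0 p q) (gB p q μ) (rs j c x)) := by
    unfold detB
    rw [hw x]
    ring
  have hne := detB_ne_zero (p := p) (q := q) hμ hκ hκ1 (rs j c x)
  have c1 := dz_psiB (p := p) (q := q) hμ hκ hκ1 (rs j c x)
  have c2 := dzb_psiB (p := p) (q := q) hμ hκ hκ1 (rs j c x)
  rw [hw x, zero_mul, sub_zero] at c1 c2
  rw [hdet] at hne
  have hne1 := left_ne_zero_of_mul hne
  have hne2 := right_ne_zero_of_mul hne
  constructor
  · have : 1 + dz p q (psiB p q μ) (rs j c x) = 1 + dz p q φ x := by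
      rw [c1, hg1, hdet]
      field_simp
    exact add_left_cancel this
  · rw [c2, hW1, hdet]
    field_simp

end det

end Pool.Agent.Helper597_fou
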