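import Pool.Agent.Helper597_fou.Basic

/-!
# Rapidly decreasing coefficients and smooth periodic functions
-/

set_option autoImplicit false

open MeasureTheory Set Filter Topology
open scoped ContDiff

noncomputable section

namespace Pool.Agent.Helper597_fou

variable {M : ℕ}

/-- the weight `1 + |k|` -/
def wt (k : K M) : ℝ := 1 + ‖k‖

theorem one_le_wt (k : K M) : 1 ≤ wt k := by
  have := norm_nonneg k
  unfold wt
  linarith

theorem wt_pos (k : K M) : 0 < wt k := lt_of_lt_of_le one_pos (one_le_wt k)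

theorem abs_le_wt (k : K M) (j : Fin (M + 1)) : |(k j : ℝ)| ≤ wt k := by
  have h := norm_le_pi_norm k j
  rw [Int.norm_eq_abs] at h
  unfold wt
  linarith

/-- rapidly decreasing coefficients -/
def RD (a : K M → ℂ) : Prop := ∀ n : ℕ, Summable fun k => wt k ^ n * ‖a k‖

theorem summable_int : Summable fun n : ℤ => (1 + (n : ℝ) ^ 2)⁻¹ := by
  have h : Summable fun n : ℤ => |(n : ℝ)| ^ (-2 : ℝ) := Real.summable_abs_int_rpow (by norm_num)
  have h2 := h.add (summable_of_hasFiniteSupport (f := fun n : ℤ => if n = 0 then (1 : ℝ) else 0)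
    ((Set.finite_singleton (0 : ℤ)).subset fun n hn => by
      by_contra h
      exact hn (if_neg h)))
  refine Summable.of_nonneg_of_le (fun n => by positivity) (fun n => ?_) h2
  by_cases hn : n = 0
  · subst hn; simp
  · rw [if_neg hn, add_zero]
    have hn' : (n : ℝ) ≠ 0 := by exact_mod_cast hn
    rw [Real.rpow_neg (abs_nonneg _), show (2 : ℝ) = ((2 : ℕ) : ℝ) by norm_num,
      Real.rpow_natCast, sq_abs]
    rw [inv_le_inv₀ (by positivity) (by positivity)]
    linarith

theorem summable_prod (n : ℕ) : Summable fun k : Fin n → ℤ => ∏ i, (1 + (k i : ℝ) ^ 2)⁻¹ := by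
  induction n with
  | zero => exact (hasSum_fintype _).summable
  | succ n ih =>
    have h1 := summable_int.mul_of_nonneg ih (fun m => by positivity)
      (fun k => Finset.prod_nonneg fun i _ => by positivity)
    refine ((Fin.consEquiv fun _ : Fin (n + 1) => ℤ).summable_iff).1 ?_
    refine h1.congr fun p => ?_
    simp [Fin.consEquiv, Fin.prod_univ_succ, mul_comm]

theorem one_add_sq_le (k : K M) (j : Fin (M + 1)) : 1 + (k j : ℝ) ^ 2 ≤ wt k ^ 2 := by
  have h := norm_le_pi_norm k j
  rw [Int.norm_eq_abs] at h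
  have h2 : (k j : ℝ) ^ 2 ≤ ‖k‖ ^ 2 := by
    rw [← sq_abs (k j : ℝ)]
    exact pow_le_pow_left₀ (abs_nonneg _) h 2
  have h3 := norm_nonneg k
  unfold wt
  nlinarith

theorem summable_wt : Summable fun k : K M => ((wt k) ^ (2 * (M + 1)))⁻¹ := by
  refine Summable.of_nonneg_of_le (fun k => by have := wt_pos k; positivity) (fun k => ?_)
    (summable_prod (M + 1))
  rw [Finset.prod_inv_distrib, inv_le_inv₀ (by have := wt_pos k; positivity)
    (Finset.prod_pos fun i _ => by positivity)]
  calc ∏ i, (1 + (k i : ℝ) ^ 2) ≤ ∏ _i : Fin (M + 1), wt k ^ 2 :=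
        Finset.prod_le_prod (fun i _ => by positivity) fun i _ => one_add_sq_le k i
    _ = wt k ^ (2 * (M + 1)) := by
        rw [Finset.prod_const, Finset.card_univ, Fintype.card_fin, ← pow_mul]

/-- polynomial bounds imply rapid decrease -/
theorem rd_of_bounds {a : K M → ℂ} (h : ∀ n : ℕ, ∃ C, ∀ k, wt k ^ n * ‖a k‖ ≤ C) : RD a := by
  intro n
  obtain ⟨C, hC⟩ := h (n + 2 * (M + 1))
  refine Summable.of_nonneg_of_le (fun k => by have := wt_pos k; positivity) (fun k => ?_)
    (summable_wt.mul_left C)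
  have hw := wt_pos k
  rw [← div_eq_mul_inv, le_div_iff₀ (by positivity)]
  have := hC k
  rw [pow_add] at this
  linarith

theorem RD.bound {a : K M → ℂ} (h : RD a) (n : ℕ) : ∃ C, ∀ k, wt k ^ n * ‖a k‖ ≤ C :=
  ⟨∑' k, wt k ^ n * ‖a k‖, fun k => (h n).le_tsum k fun l _ => by
    have := wt_pos l
    positivity⟩

theorem RD.summable {a : K M → ℂ} (h : RD a) : Summable a := by
  have := h 0
  simp only [pow_zero, one_mul] at this
  exact this.of_norm

theorem RD.mono {a b : K M → ℂ} (h : RD a) (n : ℕ) (C : ℝ)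
    (hb : ∀ k, ‖b k‖ ≤ C * wt k ^ n * ‖a k‖) : RD b := by
  intro m
  refine Summable.of_nonneg_of_le (fun k => by have := wt_pos k; positivity) (fun k => ?_)
    ((h (m + n)).mul_left C)
  have hw := wt_pos k
  calc wt k ^ m * ‖b k‖ ≤ wt k ^ m * (C * wt k ^ n * ‖a k‖) :=
        mul_le_mul_of_nonneg_left (hb k) (by positivity)
    _ = C * (wt k ^ (m + n) * ‖a k‖) := by rw [pow_add]; ring

theorem RD.add {a b : K M → ℂ} (ha : RD a) (hb : RD b) : RD fun k => a k + b k := by
  intro m
  refine Summable.of_nonneg_of_le (fun k => by have := wt_pos k; positivity) (fun k => ?_)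
    ((ha m).add (hb m))
  have hw := wt_pos k
  rw [← mul_add]
  exact mul_le_mul_of_nonneg_left (norm_add_le _ _) (by positivity)

/-! ### Derivatives of Fourier series -/

/-- multiplication of the coefficients by `2 π i k_j` -/
def D (j : Fin (M + 1)) (a : K M → ℂ) (k : K M) : ℂ := 2 * Real.pi * Complex.I * (k j : ℂ) * a k

theorem norm_D (j : Fin (M + 1)) (a : K M → ℂ) (k : K M) :
    ‖D j a k‖ = 2 * Real.pi * |(k j : ℝ)| * ‖a k‖ := by
  rw [D, norm_mul, norm_mul, norm_mul, norm_mul, Complex.norm_I, mul_one, Complex.norm_real,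
    Real.norm_eq_abs, abs_of_pos Real.pi_pos, Complex.norm_ofNat, Complex.norm_intCast]

theorem RD.D {a : K M → ℂ} (h : RD a) (j : Fin (M + 1)) : RD (D j a) := by
  refine h.mono 1 (2 * Real.pi) fun k => ?_
  rw [norm_D, pow_one]
  have h1 := abs_le_wt k j
  have h2 := Real.pi_pos
  have h3 := norm_nonneg (a k)
  exact mul_le_mul_of_nonneg_right (mul_le_mul_of_nonneg_left h1 (by positivity)) h3

theorem hasFDerivAt_ph (k : K M) (x : E M) :
    HasFDerivAt (ph k) (∑ i, (k i : ℝ) • (ContinuousLinearMap.proj i : E M →L[ℝ] ℝ)) x := by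
  unfold ph
  refine HasFDerivAt.fun_sum fun i _ => ?_
  exact ((ContinuousLinearMap.proj (R := ℝ) (φ := fun _ : Fin (M + 1) => ℝ) i).hasFDerivAt
    (x := x)).const_mul (k i : ℝ)

/-- the coordinate `x_j` as a complex valued linear form -/
def dx (j : Fin (M + 1)) : E M →L[ℝ] ℂ :=
  Complex.ofRealCLM.comp (ContinuousLinearMap.proj j : E M →L[ℝ] ℝ)

theorem dx_apply (j : Fin (M + 1)) (v : E M) : dx j v = (v j : ℂ) := rfl

theorem norm_dx_le (j : Fin (M + 1)) : ‖dx (M := M) j‖ ≤ 1 := by
  refine ContinuousLinearMap.opNorm_le_bound _ zero_le_one fun v => ?_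
  rw [dx_apply, one_mul, Complex.norm_real]
  exact norm_le_pi_norm v j

theorem hasFDerivAt_ee (k : K M) (x : E M) :
    HasFDerivAt (ee k) (∑ j, (2 * Real.pi * Complex.I * (k j : ℂ) * ee k x) • dx j) x := by
  have h1 : HasFDerivAt (fun y => (ph k y : ℂ))
      (Complex.ofRealCLM.comp (∑ i, (k i : ℝ) • (ContinuousLinearMap.proj i : E M →L[ℝ] ℝ))) x :=
    Complex.ofRealCLM.hasFDerivAt.comp x (hasFDerivAt_ph k x)
  have h2 := (h1.const_mul (2 * Real.pi * Complex.I)).cexp
  refine h2.congr_fderiv ?_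
  refine ContinuousLinearMap.ext fun v => ?_
  simp only [_root_.smul_apply, ContinuousLinearMap.comp_apply, _root_.sum_apply,
    ContinuousLinearMap.proj_apply, smul_eq_mul, Complex.ofRealCLM_apply, dx_apply]
  unfold ee
  push_cast
  rw [Finset.mul_sum, Finset.mul_sum]
  exact Finset.sum_congr rfl fun j _ => by ring

theorem RD.hasFDerivAt {a : K M → ℂ} (h : RD a) (x : E M) :
    HasFDerivAt (S a) (∑ j, S (Helper597_fou.D j a) x • dx j) x := by
  have hf : ∀ (k : K M) (y : E M), HasFDerivAt (fun y => a k * ee k y)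
      (∑ j, (Helper597_fou.D j a k * ee k y) • dx j) y := by
    intro k y
    refine ((hasFDerivAt_ee k y).const_mul (a k)).congr_fderiv ?_
    rw [Finset.smul_sum]
    refine Finset.sum_congr rfl fun j _ => ?_
    rw [smul_smul]
    congr 1
    unfold Helper597_fou.D
    ring
  have hu : Summable fun k : K M => ∑ j, ‖Helper597_fou.D j a k‖ :=
    summable_sum fun j _ => (h.D j).summable.norm
  have hb : ∀ (k : K M) (y : E M), ‖∑ j, (Helper597_fou.D j a k * ee k y) • dx (M := M) j‖ ≤
      ∑ j, ‖Helper597_fou.D j a k‖ := by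
    intro k y
    refine (norm_sum_le _ _).trans (Finset.sum_le_sum fun j _ => ?_)
    rw [norm_smul, norm_term]
    exact mul_le_of_le_one_right (norm_nonneg _) (norm_dx_le j)
  have h1 := hasFDerivAt_tsum hu hf hb (summable_term h.summable 0) x
  refine h1.congr_fderiv ?_
  rw [Summable.tsum_finsetSum]
  · refine Finset.sum_congr rfl fun j _ => ?_
    unfold S
    rw [Summable.tsum_smul_const (summable_term (h.D j).summable x)]
  · intro j _
    exact (summable_term (h.D j).summable x).smul_const _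

theorem RD.contDiff_nat (n : ℕ) : ∀ {a : K M → ℂ}, RD a → ContDiff ℝ n (S a) := by
  induction n with
  | zero =>
    intro a h
    exact contDiff_zero.2 (S_continuous h.summable)
  | succ n ih =>
    intro a h
    rw [show ((n + 1 : ℕ) : WithTop ℕ∞) = (n : WithTop ℕ∞) + 1 by push_cast; rfl,
      contDiff_succ_iff_fderiv]
    refine ⟨fun x => (h.hasFDerivAt x).differentiableAt, fun hn => by simp at hn, ?_⟩
    have e : fderiv ℝ (S a) = fun x => ∑ j, S (Helper597_fou.D j a) x • dx j := by
      funext x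
      exact (h.hasFDerivAt x).fderiv
    rw [e]
    refine ContDiff.sum fun j _ => ?_
    exact (ih (h.D j)).smul contDiff_const

theorem RD.contDiff {a : K M → ℂ} (h : RD a) : ContDiff ℝ ∞ (S a) :=
  contDiff_infty.2 fun n => h.contDiff_nat n

theorem RD.pd {a : K M → ℂ} (h : RD a) (j : Fin (M + 1)) : pd j (S a) = S (Helper597_fou.D j a) := by
  funext x
  unfold Helper597_fou.pd
  rw [(h.hasFDerivAt x).fderiv]
  simp only [_root_.sum_apply, _root_.smul_apply, dx_apply, Pi.single_apply, smul_eq_mul]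
  rw [Finset.sum_eq_single j (fun b _ hb => by rw [if_neg hb]; simp)
    (fun h => absurd (Finset.mem_univ j) h), if_pos rfl]
  simp

end Pool.Agent.Helper597_fou
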