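import Pool.Agent.Helper597_fou.RD

/-!
# Smooth periodic functions: derivatives, Fourier coefficients, multipliers
-/

set_option autoImplicit false

open MeasureTheory Set Filter Topology
open scoped ContDiff

noncomputable section

namespace Pool.Agent.Helper597_fou

variable {M : ℕ}

/-- Smooth periodic functions. -/
structure SP (f : E M → ℂ) : Prop where
  smooth : ContDiff ℝ ∞ f
  per : Per f

theorem Per.fderiv {F : Type*} [NormedAddCommGroup F] [NormedSpace ℝ F] {f : E M → F}
    (hp : Per f) : Per (fderiv ℝ f) := by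
  intro x k
  have h1 : f = fun y => f (y + il k) := by
    ext y; rw [hp]
  conv_rhs => rw [h1]
  rw [fderiv_comp_add_right]

theorem Per.pd {F : Type*} [NormedAddCommGroup F] [NormedSpace ℝ F] {f : E M → F}
    (hp : Per f) (j : Fin (M + 1)) : Per (pd j f) := by
  intro x k
  unfold Helper597_fou.pd
  rw [hp.fderiv x k]

namespace SP

variable {f g : E M → ℂ}

theorem cont (hf : SP f) : Continuous f := hf.smooth.continuous

theorem diff (hf : SP f) : Differentiable ℝ f := hf.smooth.differentiable (by simp)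

theorem pd (hf : SP f) (j : Fin (M + 1)) : SP (pd j f) where
  smooth := (hf.smooth.fderiv_right (m := ∞) (by norm_cast)).clm_apply contDiff_const
  per := hf.per.pd j

theorem mul (hf : SP f) (hg : SP g) : SP (fun x => f x * g x) where
  smooth := hf.smooth.mul hg.smooth
  per := fun i x => by simp only [hf.per i x, hg.per i x]

theorem add (hf : SP f) (hg : SP g) : SP (fun x => f x + g x) where
  smooth := hf.smooth.add hg.smooth
  per := fun i x => by simp only [hf.per i x, hg.per i x]

theorem sub (hf : SP f) (hg : SP g) : SP (fun x => f x - g x) where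
  smooth := hf.smooth.sub hg.smooth
  per := fun i x => by simp only [hf.per i x, hg.per i x]

theorem neg (hf : SP f) : SP (fun x => -f x) where
  smooth := hf.smooth.neg
  per := fun i x => by simp only [hf.per i x]

theorem const (c : ℂ) : SP (fun _ : E M => c) where
  smooth := contDiff_const
  per := fun _ _ => rfl

theorem cmul (c : ℂ) (hf : SP f) : SP (fun x => c * f x) := (const c).mul hf

theorem conj (hf : SP f) : SP (fun x => (starRingEnd ℂ) (f x)) where
  smooth := Complex.conjCLE.contDiff.comp hf.smooth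
  per := fun i x => by simp only [hf.per i x]

theorem inv (hf : SP f) (h0 : ∀ x, f x ≠ 0) : SP (fun x => (f x)⁻¹) where
  smooth := hf.smooth.inv h0
  per := fun i x => by simp only [hf.per i x]

theorem exp (hf : SP f) : SP (fun x => Complex.exp (f x)) where
  smooth := hf.smooth.cexp
  per := fun i x => by simp only [hf.per i x]

theorem log (hf : SP f) (h0 : ∀ x, f x ∈ Complex.slitPlane) : SP (fun x => Complex.log (f x)) where
  smooth := by
    rw [contDiff_iff_contDiffAt]
    intro x
    exact ((Complex.contDiffAt_log (h0 x) (n := ∞)).restrict_scalars ℝ).comp x hf.smooth.contDiffAt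
  per := fun i x => by simp only [hf.per i x]

end SP

/-! ### Rules for partial derivatives -/

theorem pd_add {f g : E M → ℂ} (hf : Differentiable ℝ f) (hg : Differentiable ℝ g)
    (j : Fin (M + 1)) (x : E M) : pd j (fun y => f y + g y) x = pd j f x + pd j g x := by
  unfold pd
  have h : HasFDerivAt (fun y => f y + g y) _ x := (hf x).hasFDerivAt.add (hg x).hasFDerivAt
  rw [h.fderiv]
  rfl

theorem pd_sub {f g : E M → ℂ} (hf : Differentiable ℝ f) (hg : Differentiable ℝ g)
    (j : Fin (M + 1)) (x : E M) : pd j (fun y => f y - g y) x = pd j f x - pd j g x := by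
  unfold pd
  have h : HasFDerivAt (fun y => f y - g y) _ x := (hf x).hasFDerivAt.sub (hg x).hasFDerivAt
  rw [h.fderiv]
  rfl

theorem pd_const (c : ℂ) (j : Fin (M + 1)) (x : E M) : pd j (fun _ : E M => c) x = 0 := by
  unfold pd
  simp

theorem pd_mul {f g : E M → ℂ} (hf : Differentiable ℝ f) (hg : Differentiable ℝ g)
    (j : Fin (M + 1)) (x : E M) :
    pd j (fun y => f y * g y) x = f x * pd j g x + pd j f x * g x := by
  unfold pd
  have h : HasFDerivAt (fun y => f y * g y) _ x := (hf x).hasFDerivAt.mul (hg x).hasFDerivAt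
  rw [h.fderiv]
  simp only [_root_.add_apply, _root_.smul_apply, smul_eq_mul]
  ring

theorem pd_exp {f : E M → ℂ} (hf : Differentiable ℝ f) (j : Fin (M + 1)) (x : E M) :
    pd j (fun y => Complex.exp (f y)) x = Complex.exp (f x) * pd j f x := by
  unfold pd
  rw [((hf x).hasFDerivAt.cexp).fderiv]
  rfl

theorem pd_log {f : E M → ℂ} (hf : Differentiable ℝ f) (h0 : ∀ x, f x ∈ Complex.slitPlane)
    (j : Fin (M + 1)) (x : E M) :
    pd j (fun y => Complex.log (f y)) x = (f x)⁻¹ * pd j f x := by
  unfold pd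
  have h1 := ((Complex.hasDerivAt_log (h0 x)).hasFDerivAt.restrictScalars ℝ).comp x
    (hf x).hasFDerivAt
  have h2 : HasFDerivAt (fun y => Complex.log (f y)) _ x := h1
  rw [h2.fderiv]
  simp [mul_comm]

theorem pd_conj {f : E M → ℂ} (hf : Differentiable ℝ f) (j : Fin (M + 1)) (x : E M) :
    pd j (fun y => (starRingEnd ℂ) (f y)) x = (starRingEnd ℂ) (pd j f x) := by
  unfold pd
  have h := (Complex.conjCLE.toContinuousLinearMap.hasFDerivAt (x := f x)).comp x (hf x).hasFDerivAt
  have h2 : HasFDerivAt (fun y => (starRingEnd ℂ) (f y)) _ x := h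
  rw [h2.fderiv]
  rfl

/-- The integral of a partial derivative of a periodic function vanishes. -/
theorem integral_pd {F : Type*} [NormedAddCommGroup F] [NormedSpace ℝ F] [CompleteSpace F]
    {f : E M → F} (hf : ContDiff ℝ 1 f) (hp : Per f) (j : Fin (M + 1)) :
    ∫ x in cube M, pd j f x = 0 := by
  have hd : Continuous (fun x => fderiv ℝ f x (Pi.single j 1)) :=
    (hf.continuous_fderiv one_ne_zero).clm_apply continuous_const
  have e0 : ∀ x, ∑ i, (if i = j then fderiv ℝ f x else 0) (Pi.single i (1 : ℝ))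
      = fderiv ℝ f x (Pi.single j 1) := by
    intro x
    rw [Finset.sum_eq_single j]
    · rw [if_pos rfl]
    · intro i _ hij
      rw [if_neg hij]; rfl
    · intro h; exact absurd (Finset.mem_univ j) h
  have h := integral_divergence_of_hasFDerivAt_off_countable' (n := M) (0 : E M) 1 (by
      intro i; simp) (fun i x => if i = j then f x else 0)
    (fun i x => if i = j then fderiv ℝ f x else 0) ∅ countable_empty
    (fun i => by
      by_cases hi : i = j
      · simp only [hi, if_true]; exact hf.continuous.continuousOn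
      · simp only [hi, if_false]; exact continuousOn_const)
    (fun x _ i => by
      by_cases hi : i = j
      · simp only [hi, if_true]
        exact (hf.differentiable one_ne_zero x).hasFDerivAt
      · simp only [hi, if_false]; exact hasFDerivAt_const _ _)
    (by
      simp_rw [e0]
      exact integrableOn_cube hd)
  simp_rw [e0] at h
  unfold pd cube
  rw [h]
  refine Finset.sum_eq_zero fun i _ => ?_
  by_cases hi : i = j
  · subst hi
    simp only [if_true]
    rw [sub_eq_zero]
    congr 1
    funext x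
    rw [← hp (i.insertNth ((0 : E M) i) x) (Pi.single i 1)]
    congr 1
    funext l
    rcases Fin.eq_self_or_eq_succAbove i l with rfl | ⟨m, rfl⟩
    · simp [il]
    · simp [il]
  · simp only [hi, if_false]
    simp

/-- Fourier coefficients of derivatives -/
theorem fc_pd {f : E M → ℂ} (hf : SP f) (j : Fin (M + 1)) : fc (pd j f) = D j (fc f) := by
  funext k
  have hc : ContDiff ℝ 1 f := hf.smooth.of_le (by norm_cast)
  have he : ContDiff ℝ 1 (ee (-k)) := ee_contDiff _
  have hprod : ContDiff ℝ 1 (fun x => ee (-k) x * f x) := he.mul hc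
  have h := integral_pd hprod ((ee_per (-k)).mul hf.per) j
  have e : ∀ x, pd j (fun x => ee (-k) x * f x) x
      = ee (-k) x * pd j f x - 2 * Real.pi * Complex.I * (k j : ℂ) * (ee (-k) x * f x) := by
    intro x
    rw [pd_mul (he.differentiable one_ne_zero) hf.diff]
    have e1 : pd j (ee (-k)) x = 2 * Real.pi * Complex.I * ((-k) j : ℂ) * ee (-k) x := by
      unfold pd
      rw [(hasFDerivAt_ee (-k) x).fderiv]
      simp only [_root_.sum_apply, _root_.smul_apply, dx_apply, Pi.single_apply, smul_eq_mul]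
      rw [Finset.sum_eq_single j (fun b _ hb => by rw [if_neg hb]; simp)
        (fun h => absurd (Finset.mem_univ j) h), if_pos rfl]
      simp
    rw [e1]
    simp only [Pi.neg_apply]
    push_cast
    ring
  simp_rw [e] at h
  have c1 : Continuous (fun x => ee (-k) x * pd j f x) := (ee_continuous _).mul (hf.pd j).cont
  have c2 : Continuous (fun x => ee (-k) x * f x) := hprod.continuous
  rw [integral_sub (integrableOn_cube c1) ((integrableOn_cube c2).const_mul _),
    integral_const_mul, sub_eq_zero] at h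
  exact h

theorem norm_fc_le {f : E M → ℂ} : ∃ C, ∀ k, ‖fc f k‖ ≤ C := by
  refine ⟨∫ x in cube M, ‖f x‖, fun k => ?_⟩
  unfold fc
  refine (norm_integral_le_integral_norm _).trans (le_of_eq ?_)
  congr 1
  funext x
  rw [norm_mul, norm_ee, one_mul]

theorem SP.iter {f : E M → ℂ} (hf : SP f) (j : Fin (M + 1)) (n : ℕ) :
    SP ((Helper597_fou.pd j)^[n] f) := by
  induction n with
  | zero => exact hf
  | succ n ih => rw [Function.iterate_succ_apply']; exact ih.pd j

theorem fc_iter {f : E M → ℂ} (hf : SP f) (j : Fin (M + 1)) (n : ℕ) (k : K M) :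
    fc ((pd j)^[n] f) k = (2 * Real.pi * Complex.I * (k j : ℂ)) ^ n * fc f k := by
  induction n with
  | zero => simp
  | succ n ih =>
    rw [Function.iterate_succ_apply', fc_pd (hf.iter j n), D, ih]
    ring

theorem wt_pow_le (k : K M) (n : ℕ) : wt k ^ n ≤ 2 ^ n * (1 + ∑ j, |(k j : ℝ)| ^ n) := by
  have hk : ∃ j, ‖k‖ = |(k j : ℝ)| := by
    obtain ⟨j, hj⟩ := Finite.exists_max (fun j : Fin (M + 1) => ‖k j‖)
    refine ⟨j, ?_⟩
    rw [← Int.norm_eq_abs]
    refine le_antisymm ?_ (norm_le_pi_norm k j)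
    exact (pi_norm_le_iff_of_nonneg (norm_nonneg _)).2 hj
  obtain ⟨j, hj⟩ := hk
  have h1 : |(k j : ℝ)| ^ n ≤ ∑ j, |(k j : ℝ)| ^ n :=
    Finset.single_le_sum (f := fun l => |(k l : ℝ)| ^ n) (fun l _ => by positivity)
      (Finset.mem_univ j)
  unfold wt
  rw [hj]
  have h0 : 0 ≤ |(k j : ℝ)| := abs_nonneg _
  rcases le_total |(k j : ℝ)| 1 with h | h
  · calc (1 + |(k j : ℝ)|) ^ n ≤ (1 + 1) ^ n := by gcongr
      _ = 2 ^ n * 1 := by norm_num
      _ ≤ 2 ^ n * (1 + ∑ j, |(k j : ℝ)| ^ n) := by
        gcongr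
        have : 0 ≤ ∑ j, |(k j : ℝ)| ^ n := Finset.sum_nonneg fun l _ => by positivity
        linarith
  · calc (1 + |(k j : ℝ)|) ^ n ≤ (|(k j : ℝ)| + |(k j : ℝ)|) ^ n := by gcongr
      _ = 2 ^ n * |(k j : ℝ)| ^ n := by rw [← two_mul, mul_pow]
      _ ≤ 2 ^ n * (1 + ∑ j, |(k j : ℝ)| ^ n) := by
        gcongr
        linarith

/-- Fourier coefficients of smooth periodic functions are rapidly decreasing. -/
theorem SP.rd {f : E M → ℂ} (hf : SP f) : RD (fc f) := by
  refine rd_of_bounds fun n => ?_
  obtain ⟨C0, hC0⟩ := norm_fc_le (f := f)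
  choose C hC using fun j => norm_fc_le (f := (Helper597_fou.pd j)^[n] f)
  refine ⟨2 ^ n * (C0 + ∑ j, C j), fun k => ?_⟩
  have h1 : ∀ j, |(k j : ℝ)| ^ n * ‖fc f k‖ ≤ C j := by
    intro j
    refine le_trans ?_ (hC j k)
    rw [fc_iter hf, norm_mul, norm_pow]
    gcongr
    rw [norm_mul, norm_mul, norm_mul, Complex.norm_I, mul_one, Complex.norm_real,
      Real.norm_eq_abs, abs_of_pos Real.pi_pos, Complex.norm_ofNat, Complex.norm_intCast]
    have h0 : 0 ≤ |(k j : ℝ)| := abs_nonneg _
    have := Real.pi_gt_three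
    nlinarith
  calc wt k ^ n * ‖fc f k‖ ≤ 2 ^ n * (1 + ∑ j, |(k j : ℝ)| ^ n) * ‖fc f k‖ := by
        gcongr
        exact wt_pow_le k n
    _ = 2 ^ n * (‖fc f k‖ + ∑ j, |(k j : ℝ)| ^ n * ‖fc f k‖) := by
        rw [← Finset.sum_mul]; ring
    _ ≤ 2 ^ n * (C0 + ∑ j, C j) := by
        gcongr
        · exact hC0 k
        · exact h1 _

/-- Fourier inversion -/
theorem SP.S_fc {f : E M → ℂ} (hf : SP f) : S (fc f) = f := by
  funext x
  exact (hasSum_fc hf.per hf.cont hf.rd.summable x).tsum_eq

theorem RD.sp {a : K M → ℂ} (h : RD a) : SP (S a) := ⟨h.contDiff, S_per a⟩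

theorem RD.fc_S {a : K M → ℂ} (h : RD a) : fc (S a) = a := Helper597_fou.fc_S h.summable

theorem SP.ext_fc {f g : E M → ℂ} (hf : SP f) (hg : SP g) (h : ∀ k, fc f k = fc g k) : f = g := by
  rw [← hf.S_fc, ← hg.S_fc, funext h]

theorem fc_add {f g : E M → ℂ} (hf : SP f) (hg : SP g) (k : K M) :
    fc (fun x => f x + g x) k = fc f k + fc g k := by
  unfold fc
  have h1 : IntegrableOn (fun x => ee (-k) x * f x) (cube M) :=
    integrableOn_cube ((ee_continuous _).mul hf.cont)
  have h2 : IntegrableOn (fun x => ee (-k) x * g x) (cube M) :=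
    integrableOn_cube ((ee_continuous _).mul hg.cont)
  rw [← integral_add h1 h2]
  congr 1
  funext x
  ring

theorem fc_cmul (c : ℂ) (f : E M → ℂ) (k : K M) : fc (fun x => c * f x) k = c * fc f k := by
  unfold fc
  rw [← integral_const_mul]
  congr 1
  funext x
  ring

theorem fc_sub {f g : E M → ℂ} (hf : SP f) (hg : SP g) (k : K M) :
    fc (fun x => f x - g x) k = fc f k - fc g k := by
  have h := fc_add hf (hg.cmul (-1)) k
  rw [fc_cmul] at h
  rw [show (fun x => f x - g x) = fun x => f x + -1 * g x by funext x; ring, h]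
  ring

theorem fc_const (c : ℂ) (k : K M) : fc (fun _ => c) k = if k = 0 then c else 0 := by
  unfold fc
  rw [integral_mul_const, integral_ee]
  by_cases h : k = 0
  · simp [h]
  · rw [if_neg h, if_neg (by simpa using h), zero_mul]

theorem fc_mul {f g : E M → ℂ} (hf : SP f) (hg : SP g) (k : K M) :
    HasSum (fun l => fc f (k - l) * fc g l) (fc (fun x => f x * g x) k) := by
  have h := hasSum_fc_mul hg.rd.summable hf.rd.summable k
  rw [hg.S_fc, hf.S_fc] at h
  simp_rw [mul_comm (fc g _)] at h
  simp_rw [mul_comm (g _)] at h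
  exact h

theorem SP.parseval {f : E M → ℂ} (hf : SP f) :
    ∫ x in cube M, ‖f x‖ ^ 2 = ∑' k, ‖fc f k‖ ^ 2 := by
  have h := integral_norm_sq hf.rd.summable
  rwa [hf.S_fc] at h

/-! ### Multipliers -/

/-- a multiplier of polynomial growth -/
def Tame (m : K M → ℂ) : Prop := ∃ (C : ℝ) (n : ℕ), ∀ k, ‖m k‖ ≤ C * wt k ^ n

theorem tame_of_bdd {m : K M → ℂ} (C : ℝ) (h : ∀ k, ‖m k‖ ≤ C) : Tame m :=
  ⟨C, 0, fun k => by rw [pow_zero, mul_one]; exact h k⟩

/-- the Fourier multiplier operator -/
def Mul (m : K M → ℂ) (f : E M → ℂ) : E M → ℂ := S fun k => m k * fc f k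

theorem Tame.rd {m : K M → ℂ} (hm : Tame m) {a : K M → ℂ} (ha : RD a) : RD fun k => m k * a k := by
  obtain ⟨C, n, h⟩ := hm
  refine ha.mono n C fun k => ?_
  rw [norm_mul]
  exact mul_le_mul_of_nonneg_right (h k) (norm_nonneg _)

theorem Tame.sp {m : K M → ℂ} (hm : Tame m) {f : E M → ℂ} (hf : SP f) : SP (Mul m f) :=
  (hm.rd hf.rd).sp

theorem Tame.fc {m : K M → ℂ} (hm : Tame m) {f : E M → ℂ} (hf : SP f) (k : K M) :
    Helper597_fou.fc (Mul m f) k = m k * Helper597_fou.fc f k := by
  unfold Mul
  rw [(hm.rd hf.rd).fc_S]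

end Pool.Agent.Helper597_fou
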