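import Pool.Agent.Helper597_fou.Log

/-!
# The normalised solution of the Beltrami equation in families

For a smooth periodic function `μ` with `|μ| ≤ κ < 1` we construct a smooth periodic function `ψ`
such that `z + ψ` has positive Jacobian in the plane of the directions `p`, `q`, and which is
determined, up to functions of the other variables, fibre by fibre by `μ`.
-/

set_option autoImplicit false

open MeasureTheory Set Filter Topology
open scoped ContDiff

noncomputable section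

namespace Pool.Agent.Helper597_fou

variable {M : ℕ} {p q : Fin (M + 1)}

/-! ### Averages in one direction -/

/-- the multiplier of the average in the direction `j` -/
def mJ (j : Fin (M + 1)) (k : K M) : ℂ := if k j = 0 then 1 else 0

/-- the multiplier of the inverse of `∂_j` -/
def mV (j : Fin (M + 1)) (k : K M) : ℂ := (2 * Real.pi * Complex.I * (k j : ℂ))⁻¹

theorem norm_mJ (j : Fin (M + 1)) (k : K M) : ‖mJ j k‖ ≤ 1 := by
  unfold mJ
  split_ifs <;> simp

theorem norm_mV (j : Fin (M + 1)) (k : K M) : ‖mV j k‖ ≤ 1 := by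
  unfold mV
  by_cases h : k j = 0
  · simp [h]
  · have h1 : 1 ≤ |(k j : ℝ)| := by
      have : 1 ≤ |k j| := Int.one_le_abs h
      exact_mod_cast this
    rw [norm_inv, norm_mul, norm_mul, norm_mul, Complex.norm_I, Complex.norm_real,
      Real.norm_eq_abs, abs_of_pos Real.pi_pos, mul_one, Complex.norm_ofNat, Complex.norm_intCast]
    have := Real.pi_gt_three
    refine inv_le_one_of_one_le₀ ?_
    nlinarith

theorem tame_mJ (j : Fin (M + 1)) : Tame (mJ (M := M) j) := tame_of_bdd 1 (norm_mJ j)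

theorem tame_mV (j : Fin (M + 1)) : Tame (mV (M := M) j) := tame_of_bdd 1 (norm_mV j)

theorem pd_Mul {m : K M → ℂ} (hm : Tame m) {f : E M → ℂ} (hf : SP f) (i : Fin (M + 1)) :
    pd i (Mul m f) = Mul m (pd i f) := by
  refine ((hm.sp hf).pd i).ext_fc (hm.sp (hf.pd i)) fun k => ?_
  rw [fc_pd (hm.sp hf), hm.fc (hf.pd i), fc_pd hf]
  unfold D
  rw [hm.fc hf]
  ring

theorem pd_mJ {f : E M → ℂ} (hf : SP f) (j : Fin (M + 1)) (x : E M) : pd j (Mul (mJ j) f) x = 0 := by
  have h : pd j (Mul (mJ j) f) = fun _ => 0 := by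
    refine (((tame_mJ j).sp hf).pd j).ext_fc (SP.const 0) fun k => ?_
    rw [fc_pd ((tame_mJ j).sp hf), fc_const]
    unfold D
    rw [(tame_mJ j).fc hf]
    unfold mJ
    by_cases h : k j = 0
    · simp [h]
    · simp [h]
  rw [h]

theorem pd_mV {f : E M → ℂ} (hf : SP f) (j : Fin (M + 1)) (x : E M) :
    pd j (Mul (mV j) f) x = f x - Mul (mJ j) f x := by
  have h : pd j (Mul (mV j) f) = fun x => f x - Mul (mJ j) f x := by
    refine (((tame_mV j).sp hf).pd j).ext_fc (hf.sub ((tame_mJ j).sp hf)) fun k => ?_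
    rw [fc_pd ((tame_mV j).sp hf), fc_sub hf ((tame_mJ j).sp hf), (tame_mJ j).fc hf]
    unfold D
    rw [(tame_mV j).fc hf]
    unfold mJ mV
    by_cases h : k j = 0
    · simp [h]
    · have h1 : (k j : ℂ) ≠ 0 := by exact_mod_cast h
      have h2 : (2 * Real.pi * Complex.I : ℂ) ≠ 0 := Complex.two_pi_I_ne_zero
      rw [if_neg h, zero_mul, sub_zero, ← mul_assoc, mul_inv_cancel₀ (mul_ne_zero h2 h1), one_mul]
  rw [h]

/-- a function whose derivative in the direction `j` vanishes is constant in this direction -/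
theorem const_of_pd {F : Type*} [NormedAddCommGroup F] [NormedSpace ℝ F] {f : E M → F}
    (hf : Differentiable ℝ f) {j : Fin (M + 1)} (h : ∀ x, pd j f x = 0) (x : E M) (s : ℝ) :
    f (x + s • Pi.single j 1) = f x := by
  have h1 : ∀ t : ℝ, HasDerivAt (fun t : ℝ => f (x + t • (Pi.single j 1 : E M))) 0 t := by
    intro t
    have h2 : HasDerivAt (fun t : ℝ => x + t • (Pi.single j 1 : E M)) (Pi.single j 1) t := by
      simpa using ((hasDerivAt_id t).smul_const (Pi.single j 1 : E M)).const_add x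
    have h3 := (hf (x + t • (Pi.single j 1 : E M))).hasFDerivAt.comp_hasDerivAt t h2
    have h4 : fderiv ℝ f (x + t • (Pi.single j 1 : E M)) (Pi.single j 1) = 0 := h _
    rw [h4] at h3
    exact h3
  have h5 := is_const_of_deriv_eq_zero (fun t => (h1 t).differentiableAt)
    (fun t => (h1 t).deriv) s 0
  simpa using h5

/-- the mean value property, by Rolle's theorem -/
theorem rolle {f c v : E M → ℝ} (hc : Differentiable ℝ c) (hv : Differentiable ℝ v) (hp : Per v)
    {j : Fin (M + 1)} (hcj : ∀ x, pd j c x = 0) (h : ∀ x, f x = c x + pd j v x) (x : E M) :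
    ∃ s : ℝ, c x = f (x + s • Pi.single j 1) := by
  have h1 : ∀ t : ℝ, HasDerivAt (fun t : ℝ => v (x + t • (Pi.single j 1 : E M)))
      (pd j v (x + t • (Pi.single j 1 : E M))) t := by
    intro t
    have h2 : HasDerivAt (fun t : ℝ => x + t • (Pi.single j 1 : E M)) (Pi.single j 1) t := by
      simpa using ((hasDerivAt_id t).smul_const (Pi.single j 1 : E M)).const_add x
    exact (hv (x + t • (Pi.single j 1 : E M))).hasFDerivAt.comp_hasDerivAt t h2
  obtain ⟨s, -, hs⟩ := exists_hasDerivAt_eq_zero (f := fun t : ℝ => v (x + t • (Pi.single j 1 : E M)))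
    (f' := fun t : ℝ => pd j v (x + t • (Pi.single j 1 : E M))) (zero_lt_one' ℝ)
    (fun t _ => (h1 t).continuousAt.continuousWithinAt) (by
      have e : (il (Pi.single j 1) : E M) = Pi.single j 1 := by
        funext i
        by_cases hi : i = j
        · subst hi; simp [il]
        · simp [il, hi]
      have := hp x (Pi.single j 1)
      rw [e] at this
      simp only [zero_smul, add_zero, one_smul]
      exact this.symm) (fun t _ => h1 t)
  refine ⟨s, ?_⟩
  rw [h, hs, add_zero, const_of_pd hc hcj]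

theorem pd_re {f : E M → ℂ} (hf : Differentiable ℝ f) (j : Fin (M + 1)) (x : E M) :
    pd j (fun y => (f y).re) x = (pd j f x).re := by
  unfold pd
  have h : HasFDerivAt (fun y => (f y).re) (Complex.reCLM.comp (fderiv ℝ f x)) x :=
    Complex.reCLM.hasFDerivAt.comp x (hf x).hasFDerivAt
  rw [h.fderiv]
  rfl

/-- the average in the direction `j` of a function with positive real part has positive real
part -/
theorem re_mJ_pos {f : E M → ℂ} (hf : SP f) (h : ∀ x, 0 < (f x).re) (j : Fin (M + 1)) (x : E M) :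
    0 < (Mul (mJ j) f x).re := by
  have hJ := (tame_mJ j).sp hf
  have hV := (tame_mV j).sp hf
  obtain ⟨s, hs⟩ := rolle (f := fun x => (f x).re) (c := fun x => (Mul (mJ j) f x).re)
    (v := fun x => (Mul (mV j) f x).re) (j := j)
    (Complex.reCLM.differentiable.comp hJ.diff) (Complex.reCLM.differentiable.comp hV.diff)
    (fun x k => by simp only [hV.per x k])
    (fun x => by rw [pd_re hJ.diff, pd_mJ hf]; rfl)
    (fun x => by
      rw [pd_re hV.diff, pd_mV hf, Complex.sub_re]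
      ring) x
  have hs' : (Mul (mJ j) f x).re = (f (x + s • Pi.single j 1)).re := hs
  rw [hs']
  exact h _

/-! ### The mean value in the plane -/

theorem m0_eq (k : K M) : m0 p q k = mJ p k * mJ q k := by
  unfold m0 mJ
  by_cases h1 : k p = 0
  · by_cases h2 : k q = 0
    · rw [if_pos (zt_eq_zero.2 ⟨h1, h2⟩), if_pos h1, if_pos h2, one_mul]
    · rw [if_neg (fun h => h2 (zt_eq_zero.1 h).2), if_neg h2, mul_zero]
  · rw [if_neg (fun h => h1 (zt_eq_zero.1 h).1), if_neg h1, zero_mul]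

theorem Mul_m0 {f : E M → ℂ} (hf : SP f) : Mul (m0 p q) f = Mul (mJ p) (Mul (mJ q) f) := by
  refine (tame_m0.sp hf).ext_fc ((tame_mJ p).sp ((tame_mJ q).sp hf)) fun k => ?_
  rw [tame_m0.fc hf, (tame_mJ p).fc ((tame_mJ q).sp hf), (tame_mJ q).fc hf, m0_eq]
  ring

theorem re_m0_pos {f : E M → ℂ} (hf : SP f) (h : ∀ x, 0 < (f x).re) (x : E M) :
    0 < (Mul (m0 p q) f x).re := by
  rw [Mul_m0 hf]
  exact re_mJ_pos ((tame_mJ q).sp hf) (re_mJ_pos hf h q) p x

theorem pd_m0_left {f : E M → ℂ} (hf : SP f) (x : E M) : pd p (Mul (m0 p q) f) x = 0 := by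
  rw [Mul_m0 hf]
  exact pd_mJ ((tame_mJ q).sp hf) p x

theorem Mul_m0' {f : E M → ℂ} (hf : SP f) : Mul (m0 p q) f = Mul (mJ q) (Mul (mJ p) f) := by
  refine (tame_m0.sp hf).ext_fc ((tame_mJ q).sp ((tame_mJ p).sp hf)) fun k => ?_
  rw [tame_m0.fc hf, (tame_mJ q).fc ((tame_mJ p).sp hf), (tame_mJ p).fc hf, m0_eq]
  ring

theorem pd_m0_right {f : E M → ℂ} (hf : SP f) (x : E M) : pd q (Mul (m0 p q) f) x = 0 := by
  rw [Mul_m0' hf]
  exact pd_mJ ((tame_mJ p).sp hf) q x

theorem dz_m0 {f : E M → ℂ} (hf : SP f) (x : E M) : dz p q (Mul (m0 p q) f) x = 0 := by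
  unfold dz
  rw [pd_m0_left hf, pd_m0_right hf]
  simp

theorem dzb_m0 {f : E M → ℂ} (hf : SP f) (x : E M) : dzb p q (Mul (m0 p q) f) x = 0 := by
  unfold dzb
  rw [pd_m0_left hf, pd_m0_right hf]
  simp

theorem m0_dz {f : E M → ℂ} (hf : SP f) : Mul (m0 p q) (dz p q f) = fun _ => 0 := by
  refine (tame_m0.sp hf.dz).ext_fc (SP.const 0) fun k => ?_
  rw [tame_m0.fc hf.dz, fc_dz hf, fc_const]
  unfold m0
  by_cases h : zt p q k = 0
  · simp [h]
  · simp [h]

theorem m0_dzb {f : E M → ℂ} (hf : SP f) : Mul (m0 p q) (dzb p q f) = fun _ => 0 := by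
  refine (tame_m0.sp hf.dzb).ext_fc (SP.const 0) fun k => ?_
  rw [tame_m0.fc hf.dzb, fc_dzb hf, fc_const]
  unfold m0
  by_cases h : zt p q k = 0
  · simp [h]
  · simp [h]

/-- a function without dependence on the plane is its own mean value -/
theorem m0_of_pd {f : E M → ℂ} (hf : SP f) (h : ∀ x, dzb p q f x = 0) : Mul (m0 p q) f = f := by
  refine (tame_m0.sp hf).ext_fc hf fun k => ?_
  rw [tame_m0.fc hf]
  unfold m0
  by_cases hk : zt p q k = 0
  · simp [hk]
  · rw [if_neg hk, zero_mul]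
    have h1 : fc (dzb p q f) k = 0 := by
      have : dzb p q f = fun _ => 0 := funext h
      rw [this, fc_const]
      simp
    rw [fc_dzb hf] at h1
    have h2 : (Real.pi : ℂ) * Complex.I * zt p q k ≠ 0 :=
      mul_ne_zero (mul_ne_zero (by exact_mod_cast Real.pi_ne_zero) Complex.I_ne_zero) hk
    exact ((mul_eq_zero.1 h1).resolve_left h2).symm

theorem dz_add {f g : E M → ℂ} (hf : Differentiable ℝ f) (hg : Differentiable ℝ g) (x : E M) :
    dz p q (fun y => f y + g y) x = dz p q f x + dz p q g x := by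
  unfold dz
  rw [pd_add hf hg, pd_add hf hg]
  ring

theorem dzb_add {f g : E M → ℂ} (hf : Differentiable ℝ f) (hg : Differentiable ℝ g) (x : E M) :
    dzb p q (fun y => f y + g y) x = dzb p q f x + dzb p q g x := by
  unfold dzb
  rw [pd_add hf hg, pd_add hf hg]
  ring

theorem dz_sub {f g : E M → ℂ} (hf : Differentiable ℝ f) (hg : Differentiable ℝ g) (x : E M) :
    dz p q (fun y => f y - g y) x = dz p q f x - dz p q g x := by
  unfold dz
  rw [pd_sub hf hg, pd_sub hf hg]
  ring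

theorem dzb_sub {f g : E M → ℂ} (hf : Differentiable ℝ f) (hg : Differentiable ℝ g) (x : E M) :
    dzb p q (fun y => f y - g y) x = dzb p q f x - dzb p q g x := by
  unfold dzb
  rw [pd_sub hf hg, pd_sub hf hg]
  ring

theorem conj_two : (starRingEnd ℂ) 2 = 2 := Complex.conj_ofNat 2

theorem dz_conj {f : E M → ℂ} (hf : Differentiable ℝ f) (x : E M) :
    dz p q (fun y => (starRingEnd ℂ) (f y)) x = (starRingEnd ℂ) (dzb p q f x) := by
  unfold dz dzb
  rw [pd_conj hf, pd_conj hf]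
  simp only [map_div₀, map_add, map_mul, Complex.conj_I, conj_two]
  ring

theorem dzb_conj {f : E M → ℂ} (hf : Differentiable ℝ f) (x : E M) :
    dzb p q (fun y => (starRingEnd ℂ) (f y)) x = (starRingEnd ℂ) (dz p q f x) := by
  unfold dz dzb
  rw [pd_conj hf, pd_conj hf]
  simp only [map_div₀, map_sub, map_mul, Complex.conj_I, conj_two]
  ring

/-- `∂_z ∂_z̄ = ∂_z̄ ∂_z` -/
theorem dz_dzb {f : E M → ℂ} (hf : SP f) : dz p q (dzb p q f) = dzb p q (dz p q f) := by
  refine hf.dzb.dz.ext_fc hf.dz.dzb fun k => ?_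
  rw [fc_dz hf.dzb, fc_dzb hf, fc_dzb hf.dz, fc_dz hf]
  ring

/-- `∂_z ∂_z̄⁻¹ = S` -/
theorem dz_mI {f : E M → ℂ} (hf : SP f) : dz p q (Mul (mI p q) f) = Mul (mB p q) f := by
  refine (tame_mI.sp hf).dz.ext_fc (tame_mB.sp hf) fun k => ?_
  rw [fc_dz (tame_mI.sp hf), tame_mI.fc hf, tame_mB.fc hf]
  unfold mI mB
  by_cases h : zt p q k = 0
  · simp [h]
  · have h1 : (Real.pi : ℂ) ≠ 0 := by exact_mod_cast Real.pi_ne_zero
    have h2 := Complex.I_ne_zero
    field_simp

/-- `∂_z̄ ∂_z̄⁻¹ = 1 - P₀` -/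
theorem dzb_mI {f : E M → ℂ} (hf : SP f) :
    dzb p q (Mul (mI p q) f) = fun x => f x - Mul (m0 p q) f x := by
  refine (tame_mI.sp hf).dzb.ext_fc (hf.sub (tame_m0.sp hf)) fun k => ?_
  rw [fc_dzb (tame_mI.sp hf), tame_mI.fc hf, fc_sub hf (tame_m0.sp hf), tame_m0.fc hf]
  unfold mI m0
  by_cases h : zt p q k = 0
  · simp [h]
  · have h1 : (Real.pi : ℂ) ≠ 0 := by exact_mod_cast Real.pi_ne_zero
    have h2 := Complex.I_ne_zero
    rw [if_neg h]
    field_simp
    ring

/-! ### The solution -/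

section sol

/-- the solution of the logarithmic equation -/
def tauB (p q : Fin (M + 1)) (μ : E M → ℂ) : E M → ℂ := Rs μ (mB p q) (dz p q μ)

/-- `g = exp σ` -/
def gB (p q : Fin (M + 1)) (μ : E M → ℂ) : E M → ℂ :=
  fun x => Complex.exp (Mul (mI p q) (tauB p q μ) x)

/-- `W = μ g` -/
def WB (p q : Fin (M + 1)) (μ : E M → ℂ) : E M → ℂ := fun x => μ x * gB p q μ x

variable {μ : E M → ℂ} (hμ : SP μ) {κ : ℝ} (hκ : ∀ x, ‖μ x‖ ≤ κ) (hκ1 : κ < 1)

theorem gB_ne_zero (x : E M) : gB p q μ x ≠ 0 := Complex.exp_ne_zero _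

include hμ hκ hκ1

theorem sp_tauB : SP (tauB p q μ) := sp_Rs hμ hκ hκ1 norm_mB hμ.dz

theorem m0_tauB : Mul (m0 p q) (tauB p q μ) = fun _ => 0 := by
  have hs := sp_tauB (p := p) (q := q) hμ hκ hκ1
  refine (tame_m0.sp hs).ext_fc (SP.const 0) fun k => ?_
  rw [tame_m0.fc hs, fc_const]
  unfold m0
  by_cases h : zt p q k = 0
  · rw [tauB, fc_tau hμ hκ hκ1 h]
    simp
  · simp [h]

theorem sp_gB : SP (gB p q μ) := (tame_mI.sp (sp_tauB hμ hκ hκ1)).exp

theorem sp_WB : SP (WB p q μ) := hμ.mul (sp_gB hμ hκ hκ1)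

/-- the closedness `∂_z̄ g = ∂_z W` -/
theorem closed_gB : dzb p q (gB p q μ) = dz p q (WB p q μ) := by
  have hs := sp_tauB (p := p) (q := q) hμ hκ hκ1
  have hσ : SP (Mul (mI p q) (tauB p q μ)) := tame_mI.sp hs
  funext x
  have h1 : dzb p q (gB p q μ) x = gB p q μ x * tauB p q μ x := by
    unfold gB
    rw [dzb_exp hσ.diff, dzb_mI hs, m0_tauB hμ hκ hκ1]
    simp only [sub_zero]
  have h2 : dz p q (gB p q μ) x = gB p q μ x * Mul (mB p q) (tauB p q μ) x := by
    unfold gB
    rw [dz_exp hσ.diff, dz_mI hs]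
  have h3 : dz p q (WB p q μ) x = μ x * dz p q (gB p q μ) x + dz p q μ x * gB p q μ x :=
    dz_mul hμ.diff (sp_gB hμ hκ hκ1).diff x
  have h4 : tauB p q μ x = dz p q μ x + μ x * Mul (mB p q) (tauB p q μ) x :=
    Rs_eq hμ hκ hκ1 norm_mB hμ.dz x
  rw [h1, h3, h2]
  conv_lhs => rw [h4]
  ring

/-- the periodic part of the primitive -/
theorem dz_u : dz p q (Mul (mI p q) (WB p q μ)) =
    fun x => gB p q μ x - Mul (m0 p q) (gB p q μ) x := by
  have hg := sp_gB (p := p) (q := q) hμ hκ hκ1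
  have hW := sp_WB (p := p) (q := q) hμ hκ hκ1
  rw [dz_mI hW]
  refine (tame_mB.sp hW).ext_fc (hg.sub (tame_m0.sp hg)) fun k => ?_
  rw [tame_mB.fc hW, fc_sub hg (tame_m0.sp hg), tame_m0.fc hg]
  have h1 : fc (dzb p q (gB p q μ)) k = fc (dz p q (WB p q μ)) k := by
    rw [closed_gB hμ hκ hκ1]
  rw [fc_dzb hg, fc_dz hW] at h1
  unfold mB m0
  by_cases h : zt p q k = 0
  · simp [h]
  · have h2 : (Real.pi : ℂ) ≠ 0 := by exact_mod_cast Real.pi_ne_zero
    have h3 := Complex.I_ne_zero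
    rw [if_neg h, zero_mul, sub_zero, div_mul_eq_mul_div, div_eq_iff h]
    have h4 : (Real.pi * Complex.I : ℂ) * (zt p q k * fc (gB p q μ) k) =
        Real.pi * Complex.I * ((starRingEnd ℂ) (zt p q k) * fc (WB p q μ) k) := by
      linear_combination h1
    have h5 := mul_left_cancel₀ (mul_ne_zero h2 h3) h4
    linear_combination -h5

theorem dzb_u : dzb p q (Mul (mI p q) (WB p q μ)) =
    fun x => WB p q μ x - Mul (m0 p q) (WB p q μ) x := dzb_mI (sp_WB hμ hκ hκ1)

end sol

end Pool.Agent.Helper597_fou
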